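import Pool.Agent.Helper37.Q4.Mv

/-!
# The valuation `w = wt + s u`
-/

set_option autoImplicit false

namespace Pool.Agent.Helper37.Q4

open Module Pool.Agent.Helper37.SD

variable {K : Type} [Field K] [Algebra ℂ K] {R : Subalgebra ℂ K} {ξ : Derivation ℂ K K}

/-- `w` is the valuation `wt + s u` of the cone: the value of `x` in `R` is the least value
`c + s u (x c)` of its homogeneous components `x c`. -/
def IsWs (R : Subalgebra ℂ K) (ξ : Derivation ℂ K K) (u : RVal K) (s : ℝ) (w : RVal K) : Prop :=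
  ∀ x ∈ R, x ≠ 0 → ∀ (P : ℝ → Prop) (F : ℝ →₀ K), IsDec (ξ : K →ₗ[ℂ] K) (RS R) P F x →
    w.val x = mv u s F

theorem dec_mul {x y : K} {P Q : ℝ → Prop} {F G : ℝ →₀ K}
    (hF : IsDec (ξ : K →ₗ[ℂ] K) (RS R) P F x) (hG : IsDec (ξ : K →ₗ[ℂ] K) (RS R) Q G y) :
    ∃ H : ℝ →₀ K, IsDec (ξ : K →ₗ[ℂ] K) (RS R) (fun _ => True) H (x * y) ∧
      ∀ e, H e = ∑ p ∈ F.support ×ˢ G.support, if p.1 + p.2 = e then F p.1 * G p.2 else 0 := by
  classical
  refine ⟨∑ p ∈ F.support ×ˢ G.support, Finsupp.single (p.1 + p.2) (F p.1 * G p.2),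
    ⟨fun e => ?_, fun e => ?_, fun _ _ => trivial, ?_⟩, fun e => ?_⟩
  · rw [Finsupp.finsetSum_apply, map_sum, Finset.smul_sum]
    refine Finset.sum_congr rfl fun p _ => ?_
    rw [Finsupp.single_apply]
    by_cases he : p.1 + p.2 = e
    · rw [if_pos he, ← he]
      exact eig_mul (hF.eig p.1) (hG.eig p.2)
    · rw [if_neg he, map_zero, smul_zero]
  · rw [Finsupp.finsetSum_apply]
    refine Submodule.sum_mem _ fun p _ => ?_
    rw [Finsupp.single_apply]
    by_cases he : p.1 + p.2 = e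
    · rw [if_pos he]
      exact R.mul_mem (hF.mem p.1) (hG.mem p.2)
    · rw [if_neg he]
      exact Submodule.zero_mem _
  · have h1 : ∀ S : Finset (ℝ × ℝ),
        ((∑ p ∈ S, Finsupp.single (p.1 + p.2) (F p.1 * G p.2)).sum fun _ z => z) =
          ∑ p ∈ S, F p.1 * G p.2 := by
      intro S
      induction S using Finset.induction_on with
      | empty => simp
      | insert p S hp ih =>
        rw [Finset.sum_insert hp, Finset.sum_insert hp,
          Finsupp.sum_add_index' (fun _ => rfl) (fun _ _ _ => rfl), ih,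
          Finsupp.sum_single_index rfl]
    rw [h1, Finset.sum_product, ← hF.sum, ← hG.sum, Finsupp.sum, Finsupp.sum, Finset.sum_mul]
    exact Finset.sum_congr rfl fun a _ => by rw [Finset.mul_sum]
  · rw [Finsupp.finsetSum_apply]
    exact Finset.sum_congr rfl fun p _ => Finsupp.single_apply

theorem dec_ne_zero {x : K} {P : ℝ → Prop} {F : ℝ →₀ K}
    (hF : IsDec (ξ : K →ₗ[ℂ] K) (RS R) P F x) (hx : x ≠ 0) : F ≠ 0 := by
  rintro rfl
  exact hx (by rw [← hF.sum, Finsupp.sum_zero_index])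

/-- **the valuation `wt + s u` exists** -/
theorem exists_ws (h : IsCone R ξ) (u : RVal K) {s : ℝ} (hs : 0 ≤ s) :
    ∃ w : RVal K, IsWs R ξ u s w := by
  classical
  have hd : ∀ x : K, ∃ F : ℝ →₀ K, x ∈ R →
      IsDec (ξ : K →ₗ[ℂ] K) (RS R) (fun c => 0 ≤ c) F x := by
    intro x
    by_cases hx : x ∈ R
    · obtain ⟨F, hF⟩ := exists_dec (h.span x hx)
      exact ⟨F, fun _ => hF⟩
    · exact ⟨0, fun h1 => absurd h1 hx⟩
  choose F hF using hd
  obtain ⟨w, hw⟩ := exists_extend h.frac (fun x => mv u s (F x)) (by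
    intro x hx y hy hx0 hy0
    obtain ⟨H, hH, hHe⟩ := dec_mul (hF x hx) (hF y hy)
    have h1 := mv_mul u hs (dec_ne_zero (hF x hx) hx0) (dec_ne_zero (hF y hy) hy0) hHe
    have h2 : F (x * y) = H := (hF (x * y) (R.mul_mem hx hy)).unique hH
    show mv u s (F (x * y)) = _
    rw [h2]
    exact h1.2) (by
    intro x hx y hy hx0 hy0 hxy
    have h1 := hF x hx
    have h2 := hF y hy
    have h3 : IsDec (ξ : K →ₗ[ℂ] K) (RS R) (fun _ => True) (F x + F y) (x + y) := by
      refine ⟨fun c => ?_, fun c => ?_, fun _ _ => trivial, ?_⟩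
      · rw [Finsupp.add_apply, map_add, h1.eig, h2.eig, smul_add]
      · rw [Finsupp.add_apply]
        exact Submodule.add_mem _ (h1.mem c) (h2.mem c)
      · rw [Finsupp.sum_add_index' (fun _ => rfl) (fun _ _ _ => rfl), h1.sum, h2.sum]
    have h4 : F (x + y) = F x + F y := (hF (x + y) (R.add_mem hx hy)).unique h3
    show min (mv u s (F x)) (mv u s (F y)) ≤ mv u s (F (x + y))
    rw [h4]
    exact mv_add u hs (dec_ne_zero h3 hxy)) (by
    intro z hz
    have h0 : algebraMap ℂ K z ≠ 0 := (map_ne_zero _).mpr hz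
    have h1 : IsDec (ξ : K →ₗ[ℂ] K) ⊤ (fun c => c = 0) (Finsupp.single 0 (algebraMap ℂ K z))
        (algebraMap ℂ K z) := isDec_single (by
      show ξ (algebraMap ℂ K z) = _
      rw [Derivation.map_algebraMap]
      simp)
    have h2 : F (algebraMap ℂ K z) = Finsupp.single 0 (algebraMap ℂ K z) :=
      (hF _ (R.algebraMap_mem z)).unique h1
    show mv u s (F (algebraMap ℂ K z)) = 0
    rw [h2]
    obtain ⟨c, hc, he⟩ := exists_mv u s (F := Finsupp.single 0 (algebraMap ℂ K z))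
      (by
        rw [Ne, Finsupp.single_eq_zero]
        exact h0)
    have hc0 : c = 0 := by
      by_contra hcon
      rw [Finsupp.single_apply, if_neg (Ne.symm hcon)] at hc
      exact hc rfl
    rw [he, hc0, Finsupp.single_eq_same, u.map_const z hz]
    ring)
  refine ⟨w, fun x hx hx0 P G hG => ?_⟩
  rw [hw x hx hx0, (hF x hx).unique hG]

variable {u w : RVal K} {s : ℝ}

/-- value of a homogeneous element of the ring -/
theorem IsWs.val_hom (hw : IsWs R ξ u s w) {x : K} (hx : x ∈ R) (hx0 : x ≠ 0) {c : ℝ}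
    (hc : ξ x = (c : ℂ) • x) : w.val x = c + s * u.val x := by
  have h1 : IsDec (ξ : K →ₗ[ℂ] K) (RS R) (fun _ => True) (Finsupp.single c x) x := by
    have h2 := isDec_single (A := (ξ : K →ₗ[ℂ] K)) hc
    refine ⟨h2.eig, fun b => ?_, fun _ _ => trivial, h2.sum⟩
    by_cases hb : c = b
    · subst hb
      rw [Finsupp.single_eq_same]
      exact hx
    · rw [Finsupp.single_eq_of_ne (Ne.symm hb)]
      exact Submodule.zero_mem _
  rw [hw x hx hx0 _ _ h1]
  obtain ⟨b, hb, he⟩ := exists_mv u s (F := Finsupp.single c x)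
    (by
      rw [Ne, Finsupp.single_eq_zero]
      exact hx0)
  have hb0 : b = c := by
    by_contra hcon
    rw [Finsupp.single_apply, if_neg (Ne.symm hcon)] at hb
    exact hb rfl
  rw [he, hb0, Finsupp.single_eq_same]

/-- the filtration -/
theorem IsWs.ge_iff (hw : IsWs R ξ u s w) {x : K} (hx : x ∈ R) (hx0 : x ≠ 0) {P : ℝ → Prop}
    {F : ℝ →₀ K} (hF : IsDec (ξ : K →ₗ[ℂ] K) (RS R) P F x) (m : ℝ) :
    m ≤ w.val x ↔ ∀ c, F c ≠ 0 → m ≤ c + s * u.val (F c) := by
  rw [hw x hx hx0 _ _ hF]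
  exact le_mv_iff u s (dec_ne_zero hF hx0) m

/-- a homogeneous element of the field is a quotient of homogeneous elements of the ring -/
theorem hom_frac (h : IsCone R ξ) {z : K} {c : ℝ} (hc : ξ z = (c : ℂ) • z) :
    ∃ p ∈ R, ∃ q ∈ R, ∃ b : ℝ, q ≠ 0 ∧ ξ q = (b : ℂ) • q ∧ ξ p = ((c + b : ℝ) : ℂ) • p ∧
      z = p / q := by
  obtain ⟨p, hp, q, hq, hq0, e⟩ := h.frac z
  have e1 : p = z * q := by rw [e, div_mul_cancel₀ _ hq0]
  obtain ⟨F, hF⟩ := exists_dec (h.span q hq)
  obtain ⟨G, hG⟩ := exists_dec (h.span p hp)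
  obtain ⟨b, hb⟩ : ∃ b, F b ≠ 0 := by
    by_contra hcon
    push Not at hcon
    exact dec_ne_zero hF hq0 (Finsupp.ext hcon)
  -- the components of `p` are `z` times those of `q`
  have h1 : IsDec (ξ : K →ₗ[ℂ] K) ⊤ (fun _ => True)
      ((F.mapRange (fun y => z * y) (mul_zero z)).embDomain
        ⟨fun b => c + b, add_right_injective c⟩) p := by
    refine ⟨fun a => ?_, fun _ => Submodule.mem_top, fun _ _ => trivial, ?_⟩
    · by_cases ha : a ∈ Set.range (⟨fun b => c + b, add_right_injective c⟩ : ℝ ↪ ℝ)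
      · obtain ⟨b, rfl⟩ := ha
        rw [Finsupp.embDomain_apply_self, Finsupp.mapRange_apply]
        exact eig_mul hc (hF.eig b)
      · rw [Finsupp.embDomain_of_notMem_range _ _ _ ha, map_zero, smul_zero]
    · rw [Finsupp.sum_embDomain, Finsupp.sum_mapRange_index (fun _ => rfl), e1, ← hF.sum,
        Finsupp.sum, Finsupp.sum, Finset.mul_sum]
  have h2 : G (c + b) = z * F b := by
    rw [hG.unique h1]
    have := Finsupp.embDomain_apply_self ⟨fun b => c + b, add_right_injective c⟩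
      (F.mapRange (fun y => z * y) (mul_zero z)) b
    rw [Finsupp.mapRange_apply] at this
    exact this
  refine ⟨G (c + b), hG.mem _, F b, hF.mem _, b, hb, hF.eig b, hG.eig _, ?_⟩
  rw [h2, mul_div_assoc, div_self hb, mul_one]

/-- value of a homogeneous element of the field -/
theorem IsWs.val_hom' (h : IsCone R ξ) (hw : IsWs R ξ u s w) {z : K} (hz0 : z ≠ 0) {c : ℝ}
    (hc : ξ z = (c : ℂ) • z) : w.val z = c + s * u.val z := by
  obtain ⟨p, hp, q, hq, b, hq0, hqb, hpb, e⟩ := hom_frac h hc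
  have hp0 : p ≠ 0 := by
    rintro rfl
    exact hz0 (by rw [e, zero_div])
  rw [e, w.val_div hp0 hq0, u.val_div hp0 hq0, hw.val_hom hp hp0 hpb, hw.val_hom hq hq0 hqb]
  ring

end Pool.Agent.Helper37.Q4
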