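import Mathlib

/-!
# Two inequalities from a family of minimality inequalities
-/

set_option autoImplicit false

namespace Pool.Agent.Helper37.Q4

open Filter Topology

theorem deriv_nonneg {φ : ℝ → ℝ} {D : ℝ} (h : HasDerivAt φ D 0) (h0 : φ 0 = 0)
    (hpos : ∀ s, 0 < s → 0 ≤ φ s) : 0 ≤ D := by
  have h1 := hasDerivAt_iff_tendsto_slope_zero.mp h
  have h2 : Tendsto (fun t : ℝ => t⁻¹ • (φ (0 + t) - φ 0)) (𝓝[>] 0) (𝓝 D) :=
    h1.mono_left (nhdsWithin_mono _ fun t ht => ne_of_gt ht)
  refine ge_of_tendsto h2 ?_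
  filter_upwards [self_mem_nhdsWithin] with t ht
  have ht' : (0 : ℝ) < t := ht
  rw [h0, zero_add, sub_zero, smul_eq_mul]
  exact mul_nonneg (inv_nonneg.mpr ht'.le) (hpos t ht')

/-- one element -/
theorem num_one {a V b c e : ℝ} (ha : 0 < a) (hV : 0 < V) (hb : 0 < b) (he : 0 ≤ e) (d : ℕ)
    (h : ∀ s, 0 < s → a ^ d * V ≤ (a + s * c) ^ d * (V * b / (b + s * e))) :
    a * e ≤ d * b * c := by
  have hder : HasDerivAt (fun s : ℝ => (a + s * c) ^ d * b - a ^ d * (b + s * e))
      ((d : ℝ) * a ^ (d - 1) * c * b - a ^ d * e) 0 := by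
    have h1 : HasDerivAt (fun s : ℝ => a + s * c) c 0 := by
      have := ((hasDerivAt_id (0 : ℝ)).mul_const c).const_add a
      simpa using this
    have h2 := (h1.pow d).mul_const b
    have h3 : HasDerivAt (fun s : ℝ => a ^ d * (b + s * e)) (a ^ d * e) 0 := by
      have := (((hasDerivAt_id (0 : ℝ)).mul_const e).const_add b).const_mul (a ^ d)
      simpa using this
    have h4 := h2.sub h3
    simp only [zero_mul, add_zero] at h4
    exact h4
  have h0 := deriv_nonneg hder (by simp) (fun s hs => by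
    have h1 := h s hs
    have h2 : 0 < b + s * e := by positivity
    rw [mul_div_assoc', le_div_iff₀ h2] at h1
    have h3 : V * (a ^ d * (b + s * e)) ≤ V * ((a + s * c) ^ d * b) := by
      calc V * (a ^ d * (b + s * e)) = a ^ d * V * (b + s * e) := by ring
        _ ≤ (a + s * c) ^ d * (V * b) := h1
        _ = _ := by ring
    have h4 := le_of_mul_le_mul_left h3 hV
    linarith)
  rcases Nat.eq_zero_or_pos d with hd | hd
  · subst hd
    simp only [Nat.cast_zero, zero_mul, pow_zero, one_mul, zero_sub] at h0 ⊢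
    have h1 : e = 0 := le_antisymm (by linarith) he
    rw [h1, mul_zero]
  · have h1 : a ^ d = a ^ (d - 1) * a := by
      rw [← pow_succ]
      congr 1
      omega
    rw [h1] at h0
    have h2 : 0 < a ^ (d - 1) := pow_pos ha _
    have h3 : a ^ (d - 1) * (a * e) ≤ a ^ (d - 1) * (d * b * c) := by linarith
    exact le_of_mul_le_mul_left h3 h2

/-- two elements -/
theorem num_two {a V b c e : ℝ} (ha : 0 < a) (hV : 0 < V) (hb : 0 < b) (he : 0 ≤ e) (d : ℕ)
    (h : ∀ s, 0 < s → a ^ d * V ≤ (a + s * c) ^ d * (V * (b / (b + s * e)) ^ 2)) :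
    2 * (a * e) ≤ d * b * c := by
  have hder : HasDerivAt (fun s : ℝ => (a + s * c) ^ d * b ^ 2 - a ^ d * (b + s * e) ^ 2)
      ((d : ℝ) * a ^ (d - 1) * c * b ^ 2 - a ^ d * (2 * b * e)) 0 := by
    have h1 : HasDerivAt (fun s : ℝ => a + s * c) c 0 := by
      have := ((hasDerivAt_id (0 : ℝ)).mul_const c).const_add a
      simpa using this
    have h1' : HasDerivAt (fun s : ℝ => b + s * e) e 0 := by
      have := ((hasDerivAt_id (0 : ℝ)).mul_const e).const_add b
      simpa using this
    have h2 := (h1.pow d).mul_const (b ^ 2)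
    have h3 := (h1'.pow 2).const_mul (a ^ d)
    have h4 := h2.sub h3
    simp only [zero_mul, add_zero, Nat.cast_ofNat, Nat.add_one_sub_one, pow_one] at h4
    exact h4
  have h0 := deriv_nonneg hder (by simp) (fun s hs => by
    have h1 := h s hs
    have h2 : 0 < b + s * e := by positivity
    rw [div_pow, mul_div_assoc', mul_div_assoc', le_div_iff₀ (pow_pos h2 2)] at h1
    have h3 : V * (a ^ d * (b + s * e) ^ 2) ≤ V * ((a + s * c) ^ d * b ^ 2) := by
      calc V * (a ^ d * (b + s * e) ^ 2) = a ^ d * V * (b + s * e) ^ 2 := by ring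
        _ ≤ (a + s * c) ^ d * (V * b ^ 2) := h1
        _ = _ := by ring
    have h4 := le_of_mul_le_mul_left h3 hV
    linarith)
  rcases Nat.eq_zero_or_pos d with hd | hd
  · subst hd
    simp only [Nat.cast_zero, zero_mul, pow_zero, one_mul, zero_sub] at h0 ⊢
    have h1 : e = 0 := by
      have : b * e ≤ 0 := by linarith
      have h2 : b * e ≤ b * 0 := by linarith
      exact le_antisymm (le_of_mul_le_mul_left h2 hb) he
    rw [h1]
    simp
  · have h1 : a ^ d = a ^ (d - 1) * a := by
      rw [← pow_succ]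
      congr 1
      omega
    rw [h1] at h0
    have h2 : 0 < a ^ (d - 1) * b := mul_pos (pow_pos ha _) hb
    have h3 : (a ^ (d - 1) * b) * (2 * (a * e)) ≤ (a ^ (d - 1) * b) * (d * b * c) := by
      linarith
    exact le_of_mul_le_mul_left h3 h2

end Pool.Agent.Helper37.Q4
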