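import Pool.Agent.Helper37.Q4.VolW
import Pool.Agent.Helper37.Q4.Num
import Pool.Agent.Helper88.D4.Defs

/-!
# Project D4, package V: one and two homogeneous functions
-/

set_option autoImplicit false

namespace Pool.Agent.Helper37.Q4

open Module Filter Topology Pool.Agent.Helper37.SD Pool.Agent.Helper88.D4

variable {K : Type} [Field K] [Algebra ℂ K] {R : Subalgebra ℂ K} {ξ : Derivation ℂ K K}
  {J : Bra K} {u v w : RVal K} {s : ℝ}

/-! ## brackets -/

theorem IsAlt.slot2 (h : IsAlt J) (x y z t : K) : J y z t x = (-J x z t) y := by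
  rw [Derivation.neg_apply, h.s1 x y z t, neg_neg]

theorem IsAlt.slot3 (h : IsAlt J) (x y z t : K) : J y z t x = (J x y t) z := by
  rw [h.s1 x z y t, h.s2 y z t, Derivation.neg_apply, neg_neg]

theorem IsAlt.slot4 (h : IsAlt J) (x y z t : K) : J y z t x = (-J x y z) t := by
  rw [Derivation.neg_apply, ← IsAlt.slot3 h x y t z, h.s3 y z t, Derivation.neg_apply, neg_neg]

/-- brackets of homogeneous elements are homogeneous -/
theorem bra_eig (h : IsAlt J) {a : ℝ} (hom : HomBra ξ (a : ℂ) J) {x y z t : K} {c₁ c₂ c₃ c₄ : ℝ}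
    (h1 : ξ x = (c₁ : ℂ) • x) (h2 : ξ y = (c₂ : ℂ) • y) (h3 : ξ z = (c₃ : ℂ) • z)
    (h4 : ξ t = (c₄ : ℂ) • t) :
    ξ (J y z t x) = ((c₁ + c₂ + c₃ + c₄ - a : ℝ) : ℂ) • J y z t x := by
  have e2 : J (ξ y) z t x = (c₂ : ℂ) • J y z t x := by
    rw [h2, IsAlt.slot2 h x _ z t, IsAlt.slot2 h x y z t, Derivation.map_smul]
  have e3 : J y (ξ z) t x = (c₃ : ℂ) • J y z t x := by
    rw [h3, IsAlt.slot3 h x y _ t, IsAlt.slot3 h x y z t, Derivation.map_smul]
  have e4 : J y z (ξ t) x = (c₄ : ℂ) • J y z t x := by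
    rw [h4, IsAlt.slot4 h x y z _, IsAlt.slot4 h x y z t, Derivation.map_smul]
  rw [hom x y z t, e2, e3, e4, h1, Derivation.map_smul]
  push_cast
  module

/-! ## extension of inequalities -/

/-- from the ring to the field -/
theorem ge_frac (hR : IsFrac R) {D : Derivation ℂ K K} {κ : ℝ}
    (h : ∀ x ∈ R, x ≠ 0 → w.Ge (w.val x + κ) (D x)) {x : K} (hx : x ≠ 0) :
    w.Ge (w.val x + κ) (D x) := by
  obtain ⟨a, ha, b, hb, hb0, e⟩ := hR x
  have ha0 : a ≠ 0 := by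
    rintro rfl
    exact hx (by rw [e, zero_div])
  rw [e, der_div D a b hb0, w.val_div ha0 hb0]
  have h1 : w.Ge (w.val a + w.val b + κ) (b * D a - a * D b) := by
    refine w.ge_sub ?_ ?_
    · have h2 := w.ge_mul (w.ge_self (x := b)) (h a ha ha0)
      have e2 : w.val b + (w.val a + κ) = w.val a + w.val b + κ := by ring
      rwa [e2] at h2
    · have h2 := w.ge_mul (w.ge_self (x := a)) (h b hb hb0)
      have e2 : w.val a + (w.val b + κ) = w.val a + w.val b + κ := by ring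
      rwa [e2] at h2
  have h2 := w.ge_div h1 (mul_ne_zero hb0 hb0)
  rw [w.map_mul b b hb0 hb0] at h2
  have e3 : w.val a + w.val b + κ - (w.val b + w.val b) = w.val a - w.val b + κ := by ring
  rwa [e3] at h2

/-- from homogeneous elements to the field -/
theorem ge_of_hom (h : IsCone R ξ) (hw : IsWs R ξ u s w) {D : Derivation ℂ K K} {κ : ℝ}
    (hD : ∀ x ∈ R, x ≠ 0 → ∀ c : ℝ, ξ x = (c : ℂ) • x → w.Ge (w.val x + κ) (D x)) {x : K}
    (hx : x ≠ 0) : w.Ge (w.val x + κ) (D x) := by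
  refine ge_frac h.frac (fun x hx hx0 => ?_) hx
  obtain ⟨F, hF⟩ := exists_dec (h.span x hx)
  have e : D x = ∑ c ∈ F.support, D (F c) := by
    conv_lhs => rw [← hF.sum]
    rw [Finsupp.sum, map_sum]
  rw [e]
  refine w.ge_sum _ _ fun c hc => ?_
  have hc0 := Finsupp.mem_support_iff.mp hc
  have h1 := hD (F c) (hF.mem c) hc0 c (hF.eig c)
  have h2 : w.val x ≤ w.val (F c) := by
    rw [hw.val_hom (hF.mem c) hc0 (hF.eig c)]
    exact ((hw.ge_iff hx hx0 hF _).mp le_rfl) c hc0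
  exact w.ge_mono (by linarith) h1

/-- log discrepancies from homogeneous elements of the ring -/
theorem ldLe_of_hom (h : IsCone R ξ) (hw : IsWs R ξ u s w) (hJ : IsAlt J) {c : ℝ}
    (hh : ∀ x ∈ R, ∀ y ∈ R, ∀ z ∈ R, ∀ t ∈ R, x ≠ 0 → y ≠ 0 → z ≠ 0 → t ≠ 0 →
      (∃ c : ℝ, ξ x = (c : ℂ) • x) → (∃ c : ℝ, ξ y = (c : ℂ) • y) →
      (∃ c : ℝ, ξ z = (c : ℂ) • z) → (∃ c : ℝ, ξ t = (c : ℂ) • t) →
      w.Ge (w.val x + w.val y + w.val z + w.val t - c) (J y z t x)) : LDLe J w c := by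
  -- slot 1
  have s1 : ∀ x : K, ∀ y ∈ R, ∀ z ∈ R, ∀ t ∈ R, x ≠ 0 → y ≠ 0 → z ≠ 0 → t ≠ 0 →
      (∃ c : ℝ, ξ y = (c : ℂ) • y) → (∃ c : ℝ, ξ z = (c : ℂ) • z) →
      (∃ c : ℝ, ξ t = (c : ℂ) • t) →
      w.Ge (w.val x + w.val y + w.val z + w.val t - c) (J y z t x) := by
    intro x y hy z hz t ht hx0 hy0 hz0 ht0 e2 e3 e4
    have h1 := ge_of_hom h hw (D := J y z t) (κ := w.val y + w.val z + w.val t - c)
      (fun x hx hx0 c' hc' => by
        have h2 := hh x hx y hy z hz t ht hx0 hy0 hz0 ht0 ⟨c', hc'⟩ e2 e3 e4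
        have e : w.val x + (w.val y + w.val z + w.val t - c) =
            w.val x + w.val y + w.val z + w.val t - c := by ring
        rwa [e]) hx0
    have e : w.val x + (w.val y + w.val z + w.val t - c) =
        w.val x + w.val y + w.val z + w.val t - c := by ring
    rwa [e] at h1
  have s2 : ∀ x y : K, ∀ z ∈ R, ∀ t ∈ R, x ≠ 0 → y ≠ 0 → z ≠ 0 → t ≠ 0 →
      (∃ c : ℝ, ξ z = (c : ℂ) • z) → (∃ c : ℝ, ξ t = (c : ℂ) • t) →
      w.Ge (w.val x + w.val y + w.val z + w.val t - c) (J y z t x) := by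
    intro x y z hz t ht hx0 hy0 hz0 ht0 e3 e4
    have h1 := ge_of_hom h hw (D := -J x z t) (κ := w.val x + w.val z + w.val t - c)
      (fun y hy hy0 c' hc' => by
        have h2 := s1 x y hy z hz t ht hx0 hy0 hz0 ht0 ⟨c', hc'⟩ e3 e4
        rw [IsAlt.slot2 hJ] at h2
        have e : w.val y + (w.val x + w.val z + w.val t - c) =
            w.val x + w.val y + w.val z + w.val t - c := by ring
        rwa [e]) hy0
    rw [IsAlt.slot2 hJ]
    have e : w.val y + (w.val x + w.val z + w.val t - c) =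
        w.val x + w.val y + w.val z + w.val t - c := by ring
    rwa [e] at h1
  have s3 : ∀ x y z : K, ∀ t ∈ R, x ≠ 0 → y ≠ 0 → z ≠ 0 → t ≠ 0 →
      (∃ c : ℝ, ξ t = (c : ℂ) • t) →
      w.Ge (w.val x + w.val y + w.val z + w.val t - c) (J y z t x) := by
    intro x y z t ht hx0 hy0 hz0 ht0 e4
    have h1 := ge_of_hom h hw (D := J x y t) (κ := w.val x + w.val y + w.val t - c)
      (fun z hz hz0 c' hc' => by
        have h2 := s2 x y z hz t ht hx0 hy0 hz0 ht0 ⟨c', hc'⟩ e4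
        rw [IsAlt.slot3 hJ] at h2
        have e : w.val z + (w.val x + w.val y + w.val t - c) =
            w.val x + w.val y + w.val z + w.val t - c := by ring
        rwa [e]) hz0
    rw [IsAlt.slot3 hJ]
    have e : w.val z + (w.val x + w.val y + w.val t - c) =
        w.val x + w.val y + w.val z + w.val t - c := by ring
    rwa [e] at h1
  intro x y z t hx0 hy0 hz0 ht0
  have h1 := ge_of_hom h hw (D := -J x y z) (κ := w.val x + w.val y + w.val z - c)
    (fun t ht ht0 c' hc' => by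
      have h2 := s3 x y z t ht hx0 hy0 hz0 ht0 ⟨c', hc'⟩
      rw [IsAlt.slot4 hJ] at h2
      have e : w.val t + (w.val x + w.val y + w.val z - c) =
          w.val x + w.val y + w.val z + w.val t - c := by ring
      rwa [e]) ht0
  rw [IsAlt.slot4 hJ]
  have e : w.val t + (w.val x + w.val y + w.val z - c) =
      w.val x + w.val y + w.val z + w.val t - c := by ring
  rwa [e] at h1

/-- **the log discrepancy of `wt + s u`** -/
theorem ldLe_ws {a c : ℝ} (hC : Cone4 R ξ J a) (hs : 0 ≤ s) (hw : IsWs R ξ u s w)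
    (hc : LDLe J u c) : LDLe J w (a + s * c) := by
  refine ldLe_of_hom hC.toIsCone hw hC.alt ?_
  rintro x hx y hy z hz t ht hx0 hy0 hz0 ht0 ⟨c₁, h1⟩ ⟨c₂, h2⟩ ⟨c₃, h3⟩ ⟨c₄, h4⟩
  by_cases h0 : J y z t x = 0
  · exact Or.inl h0
  · refine Or.inr ?_
    have e1 := hw.val_hom (hC.reg x hx y hy z hz t ht) h0 (bra_eig hC.alt hC.hom h1 h2 h3 h4)
    rw [e1, hw.val_hom hx hx0 h1, hw.val_hom hy hy0 h2, hw.val_hom hz hz0 h3,
      hw.val_hom ht ht0 h4]
    have e2 := mul_le_mul_of_nonneg_left ((hc x y z t hx0 hy0 hz0 ht0).resolve_left h0) hs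
    linarith

theorem centred_ws (h : IsCone R ξ) (hv : IsWt R ξ v)
    (hu : ∀ x ∈ R, x ≠ 0 → 0 ≤ u.val x) (hs : 0 ≤ s) (hw : IsWs R ξ u s w) :
    Centred R v w := by
  intro x hx hx0 hpos
  have h1 : (⟨x, hx⟩ : R) ∈ idl R w (v.val x) :=
    idl_le_of_ws h hv hu hs hw _ (Or.inr le_rfl)
  rcases h1 with h1 | h1
  · exact absurd h1 hx0
  · exact hpos.trans_le h1

theorem volLe_conv {V : ℝ} (h : Pool.Agent.Helper37.Q4.VolLe 2 R w V) :
    Pool.Agent.Helper88.D4.VolLe R w V := by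
  intro ε hε
  filter_upwards [h ε hε, eventually_gt_atTop 0] with m hm hm0
  have h1 : (0 : ℝ) < (m : ℝ) ^ (2 * 2) := by
    have : (0 : ℝ) < m := by exact_mod_cast hm0
    positivity
  rw [div_le_iff₀ h1] at hm
  have e : ((2 * 2).factorial : ℝ) = 24 := by
    norm_num [Nat.factorial]
  rw [e] at hm
  exact hm

/-- the minimality inequality for `wt + s u` -/
theorem min_ws {a V c V' : ℝ} (hC : Cone4 R ξ J a) (hM : IsMin R ξ J v a V)
    (hu : ∀ x ∈ R, x ≠ 0 → 0 ≤ u.val x) (hs : 0 ≤ s) (hw : IsWs R ξ u s w)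
    (hc : LDLe J u c) (hV : Pool.Agent.Helper37.Q4.VolLe 2 R w V') :
    0 < a + s * c ∧ a ^ 4 * V ≤ (a + s * c) ^ 4 * V' :=
  hM.min w _ _ (centred_ws hC.toIsCone hM.wt hu hs hw) (ldLe_ws hC hs hw hc) (volLe_conv hV)

/-- one homogeneous function of positive degree -/
theorem T0_pos {a V : ℝ} (hC : Cone4 R ξ J a) (hM : IsMin R ξ J v a V)
    {c : ℝ} (hu : ∀ x ∈ R, x ≠ 0 → 0 ≤ u.val x) (hc : LDLe J u c) {F : K} {δ : ℝ}
    (hF : F ∈ R) (hF0 : F ≠ 0) (hFδ : ξ F = (δ : ℂ) • F) (hδ : 0 < δ) :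
    a * u.val F ≤ 4 * δ * c := by
  have h1 := num_one hM.apos hM.vpos hδ (hu F hF hF0) 4 (c := c) (fun s hs => by
    obtain ⟨w, hw⟩ := exists_ws hC.toIsCone u hs.le
    exact (min_ws hC hM hu hs.le hw hc
      (volLe_one hC.toIsCone hM.wt hu hs.le hw hF hF0 hδ hFδ hM.vol)).2)
  exact_mod_cast h1

/-- an element of `R` of positive degree -/
theorem exists_pos_deg {a : ℝ} (hC : Cone4 R ξ J a) :
    ∃ F ∈ R, F ≠ 0 ∧ ∃ δ : ℝ, 0 < δ ∧ ξ F = (δ : ℂ) • F := by
  by_contra hcon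
  push Not at hcon
  -- then all elements of `R` are constant
  have h1 : ∀ x ∈ R, ∃ z : ℂ, x = algebraMap ℂ K z := by
    intro x hx
    have h2 := hC.span x hx
    induction h2 using Submodule.span_induction with
    | mem y hy =>
      obtain ⟨hyR, c, hc0, hc⟩ := hy
      by_cases hy0 : y = 0
      · exact ⟨0, by rw [hy0, map_zero]⟩
      · have h3 : c = 0 := by
          rcases lt_or_eq_of_le hc0 with h4 | h4
          · exact absurd hc (hcon y hyR hy0 c h4)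
          · exact h4.symm
        refine hC.const y hyR ?_
        show ξ y = 0
        have h4 : ξ y = (c : ℂ) • y := hc
        rw [h4, h3]
        simp
    | zero => exact ⟨0, by rw [map_zero]⟩
    | add y z hy hz h1 h2 =>
      obtain ⟨p, hp⟩ := h1 (hsp_le hy)
      obtain ⟨q, hq⟩ := h2 (hsp_le hz)
      exact ⟨p + q, by rw [hp, hq, map_add]⟩
    | smul t y hy h1 =>
      obtain ⟨p, hp⟩ := h1 (hsp_le hy)
      exact ⟨t * p, by rw [hp, map_mul, Algebra.smul_def]⟩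
  obtain ⟨x, y, z, t, hne⟩ := hC.alt.ne
  apply hne
  obtain ⟨p, hp, q, hq, hq0, e⟩ := hC.frac x
  obtain ⟨p', rfl⟩ := h1 p hp
  obtain ⟨q', rfl⟩ := h1 q hq
  rw [e, ← map_div₀, Derivation.map_algebraMap]

theorem T0 : ∀ (K : Type) [Field K] [Algebra ℂ K] (R : Subalgebra ℂ K)
    (ξ : Derivation ℂ K K) (J : Bra K) (v : RVal K) (a V : ℝ), Cone4 R ξ J a →
    IsMin R ξ J v a V →
    ∀ (u : RVal K) (c : ℝ), (∀ x ∈ R, x ≠ 0 → 0 ≤ u.val x) → LDLe J u c →
      0 ≤ c ∧ ∀ (F : K) (δ : ℝ), F ∈ R → F ≠ 0 → ξ F = (δ : ℂ) • F → a * u.val F ≤ 4 * δ * c := by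
  intro K _ _ R ξ J v a V hC hM u c hu hc
  refine ⟨?_, fun F δ hF hF0 hFδ => ?_⟩
  · obtain ⟨F, hF, hF0, δ, hδ, hFδ⟩ := exists_pos_deg hC
    have h1 := T0_pos hC hM hu hc hF hF0 hFδ hδ
    have h2 := mul_nonneg hM.apos.le (hu F hF hF0)
    by_contra hcon
    have h3 : 4 * δ * c < 0 := mul_neg_of_pos_of_neg (by linarith) (not_le.mp hcon)
    linarith
  · have hδ := hC.toIsCone.eig_nonneg hF hF0 hFδ
    rcases lt_or_eq_of_le hδ with h1 | h1
    · exact T0_pos hC hM hu hc hF hF0 hFδ h1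
    · obtain ⟨z, hz⟩ := hC.const F hF (by rw [hFδ, ← h1]; simp)
      have hz0 : z ≠ 0 := by
        rintro rfl
        exact hF0 (by rw [hz, map_zero])
      rw [hz, u.map_const z hz0, ← h1]
      simp

theorem V3 : ∀ (K : Type) [Field K] [Algebra ℂ K] (R : Subalgebra ℂ K)
    (ξ : Derivation ℂ K K) (J : Bra K) (v : RVal K) (a V : ℝ), Cone4 R ξ J a →
    IsMin R ξ J v a V →
    ∀ (u : RVal K) (c : ℝ), (∀ x ∈ R, x ≠ 0 → 0 ≤ u.val x) → LDLe J u c →
      ∀ (f g : K) (N e : ℝ), f ∈ R → g ∈ R → f ≠ 0 → g ≠ 0 → 0 < N → ξ f = (N : ℂ) • f →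
        ξ g = (N : ℂ) • g → (∀ x ∈ R, ∀ y ∈ R, g * x = f * y → ∃ z ∈ R, x = f * z) → 0 ≤ e →
          e ≤ u.val f → e ≤ u.val g → a * e ≤ 2 * N * c := by
  intro K _ _ R ξ J v a V hC hM u c hu hc f g N e hf hg hf0 hg0 hN hfN hgN hreg he hfe hge
  have h1 := num_two hM.apos hM.vpos hN he 4 (c := c) (fun s hs => by
    obtain ⟨w, hw⟩ := exists_ws hC.toIsCone u hs.le
    exact (min_ws hC hM hu hs.le hw hc
      (volLe_two hC.toIsCone hM.wt hu hs.le hw hf hf0 hg hg0 hN hfN hgN hreg hfe hge he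
        hM.vol)).2)
  have h2 : 2 * (a * e) ≤ 4 * N * c := by exact_mod_cast h1
  linarith

end Pool.Agent.Helper37.Q4
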