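import Mathlib

/-!
# Sums of counting functions along arithmetic progressions
-/

set_option autoImplicit false

namespace Pool.Agent.Helper37.Q4

open Filter Topology

theorem pow5_upper {a b : ℝ} (hb : 0 ≤ b) (hab : b ≤ a) : a ^ 5 - b ^ 5 ≤ 5 * a ^ 4 * (a - b) := by
  have ha : 0 ≤ a := hb.trans hab
  have e : 5 * a ^ 4 * (a - b) - (a ^ 5 - b ^ 5) =
      (a - b) * ((a ^ 4 - a ^ 3 * b) + (a ^ 4 - a ^ 2 * b ^ 2) + (a ^ 4 - a * b ^ 3) +
        (a ^ 4 - b ^ 4)) := by ring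
  have h1 : a ^ 3 * b ≤ a ^ 4 := by
    have := mul_le_mul_of_nonneg_left hab (pow_nonneg ha 3)
    calc a ^ 3 * b ≤ a ^ 3 * a := this
      _ = a ^ 4 := by ring
  have h2 : a ^ 2 * b ^ 2 ≤ a ^ 4 := by
    have := mul_le_mul_of_nonneg_left (pow_le_pow_left₀ hb hab 2) (pow_nonneg ha 2)
    calc a ^ 2 * b ^ 2 ≤ a ^ 2 * a ^ 2 := this
      _ = a ^ 4 := by ring
  have h3 : a * b ^ 3 ≤ a ^ 4 := by
    have := mul_le_mul_of_nonneg_left (pow_le_pow_left₀ hb hab 3) ha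
    calc a * b ^ 3 ≤ a * a ^ 3 := this
      _ = a ^ 4 := by ring
  have h4 : b ^ 4 ≤ a ^ 4 := pow_le_pow_left₀ hb hab 4
  have h5 : 0 ≤ (a - b) * ((a ^ 4 - a ^ 3 * b) + (a ^ 4 - a ^ 2 * b ^ 2) + (a ^ 4 - a * b ^ 3) +
        (a ^ 4 - b ^ 4)) := mul_nonneg (by linarith) (by linarith)
  linarith

theorem pow5_lower {a b : ℝ} (hb : 0 ≤ b) (hab : b ≤ a) : 5 * b ^ 4 * (a - b) ≤ a ^ 5 - b ^ 5 := by
  have ha : 0 ≤ a := hb.trans hab
  have e : (a ^ 5 - b ^ 5) - 5 * b ^ 4 * (a - b) =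
      (a - b) * ((a ^ 4 - b ^ 4) + (a ^ 3 * b - b ^ 4) + (a ^ 2 * b ^ 2 - b ^ 4) +
        (a * b ^ 3 - b ^ 4)) := by ring
  have h1 : b ^ 4 ≤ a ^ 3 * b := by
    have := mul_le_mul_of_nonneg_right (pow_le_pow_left₀ hb hab 3) hb
    calc b ^ 4 = b ^ 3 * b := by ring
      _ ≤ a ^ 3 * b := this
  have h2 : b ^ 4 ≤ a ^ 2 * b ^ 2 := by
    have := mul_le_mul_of_nonneg_right (pow_le_pow_left₀ hb hab 2) (pow_nonneg hb 2)
    calc b ^ 4 = b ^ 2 * b ^ 2 := by ring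
      _ ≤ a ^ 2 * b ^ 2 := this
  have h3 : b ^ 4 ≤ a * b ^ 3 := by
    have := mul_le_mul_of_nonneg_right hab (pow_nonneg hb 3)
    calc b ^ 4 = b * b ^ 3 := by ring
      _ ≤ a * b ^ 3 := this
  have h4 : b ^ 4 ≤ a ^ 4 := pow_le_pow_left₀ hb hab 4
  have h5 : 0 ≤ (a - b) * ((a ^ 4 - b ^ 4) + (a ^ 3 * b - b ^ 4) + (a ^ 2 * b ^ 2 - b ^ 4) +
        (a * b ^ 3 - b ^ 4)) := mul_nonneg (by linarith) (by linarith)
  linarith

theorem sum_lower {s : ℝ} (hs : 0 < s) (X : ℝ) (n : ℕ) :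
    (max X 0) ^ 5 - (max (X - n * s) 0) ^ 5 ≤
      5 * s * ∑ k ∈ Finset.range n, (max (X - k * s) 0) ^ 4 := by
  induction n with
  | zero => simp
  | succ n ih =>
    rw [Finset.sum_range_succ, mul_add]
    have e : X - ((n + 1 : ℕ) : ℝ) * s = X - n * s - s := by push_cast; ring
    rw [e]
    set Y := X - n * s with hY
    have h1 : (max Y 0) ^ 5 - (max (Y - s) 0) ^ 5 ≤ 5 * s * (max Y 0) ^ 4 := by
      have h2 : max (Y - s) 0 ≤ max Y 0 := max_le_max (by linarith) le_rfl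
      have h3 := pow5_upper (le_max_right (Y - s) 0) h2
      have h4 : max Y 0 - max (Y - s) 0 ≤ s := by
        rcases le_total Y 0 with h | h
        · rw [max_eq_right h]
          have := le_max_right (Y - s) 0
          linarith
        · rw [max_eq_left h]
          have := le_max_left (Y - s) 0
          linarith
      have h5 : 5 * (max Y 0) ^ 4 * (max Y 0 - max (Y - s) 0) ≤ 5 * (max Y 0) ^ 4 * s :=
        mul_le_mul_of_nonneg_left h4 (by positivity)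
      linarith
    linarith

theorem sum_upper {s : ℝ} (hs : 0 < s) (X : ℝ) (n : ℕ) :
    5 * s * ∑ k ∈ Finset.range n, (max (X - k * s) 0) ^ 4 ≤
      (max (X + s) 0) ^ 5 - (max (X + s - n * s) 0) ^ 5 := by
  induction n with
  | zero => simp
  | succ n ih =>
    rw [Finset.sum_range_succ, mul_add]
    have e : X + s - ((n + 1 : ℕ) : ℝ) * s = X - n * s := by push_cast; ring
    have e' : X + s - n * s = X - n * s + s := by ring
    rw [e]
    rw [e'] at ih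
    set Y := X - n * s with hY
    have h1 : 5 * s * (max Y 0) ^ 4 ≤ (max (Y + s) 0) ^ 5 - (max Y 0) ^ 5 := by
      rcases le_total Y 0 with h | h
      · rw [max_eq_right h]
        have := pow_nonneg (le_max_right (Y + s) 0) 5
        simp only [ne_eq, OfNat.ofNat_ne_zero, not_false_eq_true, zero_pow, mul_zero, sub_zero]
        exact this
      · have h2 : max (Y + s) 0 = Y + s := max_eq_left (by linarith)
        rw [max_eq_left h, h2]
        have h3 := pow5_lower h (show Y ≤ Y + s by linarith)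
        have e2 : 5 * Y ^ 4 * (Y + s - Y) = 5 * s * Y ^ 4 := by ring
        linarith
    linarith

theorem real_lower {H : ℝ → ℝ} (hmono : Monotone H) (hH : ∀ x, 0 ≤ H x) {A : ℝ} (hA : 0 ≤ A)
    (h : ∀ᶠ m : ℕ in atTop, A * (m : ℝ) ^ 4 ≤ H m) :
    ∃ b : ℝ, 0 ≤ b ∧ ∀ x, A * (max (x - b) 0) ^ 4 ≤ H x := by
  obtain ⟨m₀, hm₀⟩ := eventually_atTop.mp h
  refine ⟨m₀ + 1, by positivity, fun x => ?_⟩
  rcases le_total x (m₀ + 1) with hx | hx
  · rw [max_eq_right (by linarith)]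
    simpa using hH x
  · have h1 : (m₀ : ℝ) ≤ x := by linarith
    have hx0 : 0 ≤ x := le_trans (by positivity) hx
    have h2 : m₀ ≤ ⌊x⌋₊ := Nat.le_floor h1
    have h3 := hm₀ _ h2
    have h4 : H (⌊x⌋₊ : ℝ) ≤ H x := hmono (Nat.floor_le hx0)
    have h5 : max (x - (m₀ + 1)) 0 ≤ (⌊x⌋₊ : ℝ) := by
      refine max_le ?_ (by positivity)
      have h6 := Nat.lt_floor_add_one x
      have h7 : (0 : ℝ) ≤ m₀ := by positivity
      linarith
    have h6 : A * (max (x - (m₀ + 1)) 0) ^ 4 ≤ A * (⌊x⌋₊ : ℝ) ^ 4 :=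
      mul_le_mul_of_nonneg_left (pow_le_pow_left₀ (le_max_right _ _) h5 4) hA
    linarith

theorem real_upper {N : ℝ → ℝ} (hmono : Monotone N) (hN : ∀ x ≤ 0, N x ≤ 0) {A : ℝ}
    (hA : 0 ≤ A) (h : ∀ᶠ m : ℕ in atTop, N m ≤ A * (m : ℝ) ^ 4) :
    ∃ b : ℝ, 0 ≤ b ∧ ∀ x, N x ≤ A * (max (x + b) 0) ^ 4 := by
  obtain ⟨m₀, hm₀⟩ := eventually_atTop.mp h
  refine ⟨m₀ + 1, by positivity, fun x => ?_⟩
  rcases le_total x 0 with hx | hx
  · exact (hN x hx).trans (by positivity)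
  · have h1 : x ≤ ((⌈x⌉₊ + m₀ : ℕ) : ℝ) := by
      push_cast
      have h2 := Nat.le_ceil x
      have h7 : (0 : ℝ) ≤ m₀ := by positivity
      linarith
    have h3 := hm₀ _ (Nat.le_add_left m₀ ⌈x⌉₊)
    have h4 := hmono h1
    have h5 : ((⌈x⌉₊ + m₀ : ℕ) : ℝ) ≤ max (x + (m₀ + 1)) 0 := by
      refine le_trans ?_ (le_max_left _ _)
      push_cast
      have h6 := Nat.ceil_lt_add_one hx
      linarith
    have h6 : A * ((⌈x⌉₊ + m₀ : ℕ) : ℝ) ^ 4 ≤ A * (max (x + (m₀ + 1)) 0) ^ 4 :=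
      mul_le_mul_of_nonneg_left (pow_le_pow_left₀ (by positivity) h5 4) hA
    linarith

theorem tendsto_lin (t c : ℝ) :
    Tendsto (fun n : ℕ => (t * n + c) ^ 5 / (n : ℝ) ^ 5) atTop (𝓝 (t ^ 5)) := by
  have h1 : Tendsto (fun n : ℕ => (t + c / (n : ℝ)) ^ 5) atTop (𝓝 ((t + 0) ^ 5)) :=
    ((tendsto_const_div_atTop_nhds_zero_nat c).const_add t).pow 5
  rw [add_zero] at h1
  refine h1.congr' ?_
  filter_upwards [eventually_gt_atTop 0] with n hn
  have hn' : (n : ℝ) ≠ 0 := by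
    have : (0 : ℝ) < n := by exact_mod_cast hn
    exact this.ne'
  rw [← div_pow]
  congr 1
  field_simp

theorem asy_lower {H : ℝ → ℝ} (hmono : Monotone H) (hH : ∀ x, 0 ≤ H x) {A : ℝ} (hA : 0 ≤ A)
    (h : ∀ᶠ m : ℕ in atTop, A * (m : ℝ) ^ 4 ≤ H m) {s t : ℝ} (hs : 0 < s) (r : ℝ) {ε : ℝ}
    (hε : 0 < ε) : ∀ᶠ n : ℕ in atTop, ∀ K : ℕ, t * n + r ≤ K * s →
      (A * t ^ 5 / (5 * s) - ε) * (n : ℝ) ^ 5 ≤
        ∑ k ∈ Finset.range K, H (t * n + r - k * s) := by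
  obtain ⟨b, hb, hHb⟩ := real_lower hmono hH hA h
  have h1 := ((tendsto_lin t (r - b)).const_mul (A / (5 * s))).eventually_const_lt
    (u := A / (5 * s) * t ^ 5 - ε) (by linarith)
  filter_upwards [h1, eventually_gt_atTop 0] with n hn hn0 K hK
  have hn' : (0 : ℝ) < (n : ℝ) ^ 5 := by
    have : (0 : ℝ) < n := by exact_mod_cast hn0
    positivity
  have h2 := sum_lower hs (t * n + (r - b)) K
  have h3 : max (t * n + (r - b) - K * s) 0 = 0 := max_eq_right (by linarith)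
  rw [h3] at h2
  have h4 : (t * n + (r - b)) ^ 5 ≤ (max (t * n + (r - b)) 0) ^ 5 :=
    (Odd.strictMono_pow (by decide : Odd 5)).monotone (le_max_left _ _)
  have h5 : A * ∑ k ∈ Finset.range K, (max (t * n + (r - b) - k * s) 0) ^ 4 ≤
      ∑ k ∈ Finset.range K, H (t * n + r - k * s) := by
    rw [Finset.mul_sum]
    refine Finset.sum_le_sum fun k _ => ?_
    have h6 := hHb (t * n + r - k * s)
    have e : t * n + r - k * s - b = t * n + (r - b) - k * s := by ring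
    rwa [e] at h6
  refine le_trans ?_ h5
  have h7 : A / (5 * s) * (t * n + (r - b)) ^ 5 ≤
      A * ∑ k ∈ Finset.range K, (max (t * n + (r - b) - k * s) 0) ^ 4 := by
    have h8 : A / (5 * s) * (t * n + (r - b)) ^ 5 ≤ A / (5 * s) *
        (5 * s * ∑ k ∈ Finset.range K, (max (t * n + (r - b) - k * s) 0) ^ 4) := by
      refine mul_le_mul_of_nonneg_left ?_ (by positivity)
      have : (0 : ℝ) ^ 5 = 0 := by norm_num
      linarith
    refine h8.trans (le_of_eq ?_)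
    generalize ∑ k ∈ Finset.range K, (max (t * (n : ℝ) + (r - b) - k * s) 0) ^ 4 = X
    field_simp
  refine le_trans ?_ h7
  have h9 : (A / (5 * s) * t ^ 5 - ε) * (n : ℝ) ^ 5 ≤
      A / (5 * s) * ((t * n + (r - b)) ^ 5 / (n : ℝ) ^ 5) * (n : ℝ) ^ 5 :=
    mul_le_mul_of_nonneg_right hn.le hn'.le
  have e1 : A / (5 * s) * ((t * n + (r - b)) ^ 5 / (n : ℝ) ^ 5) * (n : ℝ) ^ 5 =
      A / (5 * s) * (t * n + (r - b)) ^ 5 := by
    field_simp
  have e2 : A * t ^ 5 / (5 * s) = A / (5 * s) * t ^ 5 := by ring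
  rw [e2]
  rw [e1] at h9
  exact h9

theorem asy_upper {N : ℝ → ℝ} (hmono : Monotone N) (hN : ∀ x ≤ 0, N x ≤ 0) {A : ℝ}
    (hA : 0 ≤ A) (h : ∀ᶠ m : ℕ in atTop, N m ≤ A * (m : ℝ) ^ 4) {s t : ℝ} (hs : 0 < s)
    (ht : 0 < t) (r : ℝ) {ε : ℝ} (hε : 0 < ε) : ∀ᶠ n : ℕ in atTop, ∀ K : ℕ,
      ∑ k ∈ Finset.range K, N (t * n + r - k * s) ≤
        (A * t ^ 5 / (5 * s) + ε) * (n : ℝ) ^ 5 := by
  obtain ⟨b, hb, hNb⟩ := real_upper hmono hN hA h
  have h1 := ((tendsto_lin t (r + b + s)).const_mul (A / (5 * s))).eventually_lt_const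
    (u := A / (5 * s) * t ^ 5 + ε) (by linarith)
  have h0 : ∀ᶠ n : ℕ in atTop, 0 ≤ t * (n : ℝ) + (r + b + s) := by
    have h2 : Tendsto (fun n : ℕ => t * (n : ℝ) + (r + b + s)) atTop atTop :=
      tendsto_atTop_add_const_right _ _ (tendsto_natCast_atTop_atTop.const_mul_atTop ht)
    exact h2.eventually_ge_atTop 0
  filter_upwards [h1, h0, eventually_gt_atTop 0] with n hn hpos hn0 K
  have hn' : (0 : ℝ) < (n : ℝ) ^ 5 := by
    have : (0 : ℝ) < n := by exact_mod_cast hn0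
    positivity
  have h2 := sum_upper hs (t * n + (r + b)) K
  have e0 : t * n + (r + b) + s = t * n + (r + b + s) := by ring
  rw [e0] at h2
  have h3 : max (t * (n : ℝ) + (r + b + s)) 0 = t * n + (r + b + s) := max_eq_left hpos
  rw [h3] at h2
  have h4 := pow_nonneg (le_max_right (t * (n : ℝ) + (r + b + s) - K * s) 0) 5
  have h5 : ∑ k ∈ Finset.range K, N (t * n + r - k * s) ≤
      A * ∑ k ∈ Finset.range K, (max (t * n + (r + b) - k * s) 0) ^ 4 := by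
    rw [Finset.mul_sum]
    refine Finset.sum_le_sum fun k _ => ?_
    have h6 := hNb (t * n + r - k * s)
    have e : t * n + r - k * s + b = t * n + (r + b) - k * s := by ring
    rwa [e] at h6
  refine h5.trans ?_
  have h7 : A * ∑ k ∈ Finset.range K, (max (t * n + (r + b) - k * s) 0) ^ 4 ≤
      A / (5 * s) * (t * n + (r + b + s)) ^ 5 := by
    have h8 : A / (5 * s) *
        (5 * s * ∑ k ∈ Finset.range K, (max (t * n + (r + b) - k * s) 0) ^ 4) ≤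
          A / (5 * s) * (t * n + (r + b + s)) ^ 5 := by
      refine mul_le_mul_of_nonneg_left ?_ (by positivity)
      linarith
    refine le_trans (le_of_eq ?_) h8
    generalize ∑ k ∈ Finset.range K, (max (t * (n : ℝ) + (r + b) - k * s) 0) ^ 4 = X
    field_simp
  refine h7.trans ?_
  have h9 : A / (5 * s) * ((t * n + (r + b + s)) ^ 5 / (n : ℝ) ^ 5) * (n : ℝ) ^ 5 ≤
      (A / (5 * s) * t ^ 5 + ε) * (n : ℝ) ^ 5 :=
    mul_le_mul_of_nonneg_right hn.le hn'.le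
  have e1 : A / (5 * s) * ((t * n + (r + b + s)) ^ 5 / (n : ℝ) ^ 5) * (n : ℝ) ^ 5 =
      A / (5 * s) * (t * n + (r + b + s)) ^ 5 := by
    field_simp
  have e2 : A * t ^ 5 / (5 * s) = A / (5 * s) * t ^ 5 := by ring
  rw [e2]
  rw [e1] at h9
  exact h9

/-- the eventual bounds from the limit -/
theorem ev_bounds {N : ℝ → ℝ} {V : ℝ}
    (hV : Tendsto (fun m : ℕ => N m / (m : ℝ) ^ 4) atTop (𝓝 V)) {η : ℝ} (hη : 0 < η) :
    (∀ᶠ m : ℕ in atTop, (V - η) * (m : ℝ) ^ 4 ≤ N m) ∧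
      ∀ᶠ m : ℕ in atTop, N m ≤ (V + η) * (m : ℝ) ^ 4 := by
  constructor
  · filter_upwards [hV.eventually_const_lt (u := V - η) (by linarith),
      eventually_gt_atTop 0] with m hm hm0
    have h1 : (0 : ℝ) < (m : ℝ) ^ 4 := by
      have : (0 : ℝ) < m := by exact_mod_cast hm0
      positivity
    rw [lt_div_iff₀ h1] at hm
    exact hm.le
  · filter_upwards [hV.eventually_lt_const (u := V + η) (by linarith),
      eventually_gt_atTop 0] with m hm hm0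
    have h1 : (0 : ℝ) < (m : ℝ) ^ 4 := by
      have : (0 : ℝ) < m := by exact_mod_cast hm0
      positivity
    rw [div_lt_iff₀ h1] at hm
    exact hm.le

theorem asy_dir {N₁ N₂ : ℝ → ℝ} {V q h₂ r : ℝ} (hq : 0 < q) (hh₂ : 0 < h₂) (hV0 : 0 < V)
    (hmono₁ : Monotone N₁) (hN₁ : ∀ x ≤ 0, N₁ x ≤ 0) (hmono₂ : Monotone N₂)
    (hN₂ : ∀ x, 0 ≤ N₂ x)
    (hV : Tendsto (fun m : ℕ => N₁ m / (m : ℝ) ^ 4) atTop (𝓝 V))
    (key : ∀ n : ℕ, ∃ I : ℕ, ∀ K : ℕ, ∑ k ∈ Finset.range K, N₂ (n - k * q) ≤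
      ∑ i ∈ Finset.range I, N₁ (n + r - i * h₂)) {ε : ℝ} (hε : 0 < ε) :
    ∃ᶠ m : ℕ in atTop, N₂ m ≤ (V * q / h₂ + ε) * (m : ℝ) ^ 4 := by
  rw [Filter.Frequently]
  intro hcon
  have hA : 0 ≤ V * q / h₂ + ε := by positivity
  have h1 : ∀ᶠ m : ℕ in atTop, (V * q / h₂ + ε) * (m : ℝ) ^ 4 ≤ N₂ m := by
    filter_upwards [hcon] with m hm
    exact (not_le.mp hm).le
  -- choose the small constants
  have h2 : (V * q / h₂ + ε) / (5 * q) ≤ V / (5 * h₂) := by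
    refine le_of_forall_pos_le_add fun η hη => ?_
    have hη1 : 0 < 5 * h₂ * (η / 3) := by positivity
    have hη2 : 0 < η / 3 := by positivity
    have a1 := asy_lower hmono₂ hN₂ hA h1 hq (t := 1) 0 hη2
    have a2 := asy_upper hmono₁ hN₁ (show 0 ≤ V + 5 * h₂ * (η / 3) by positivity)
      (ev_bounds hV hη1).2 hh₂ (t := 1) one_pos r hη2
    obtain ⟨n, hn1, hn2, hn0⟩ := (a1.and (a2.and (eventually_gt_atTop 0))).exists
    have hn' : (0 : ℝ) < (n : ℝ) ^ 5 := by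
      have : (0 : ℝ) < n := by exact_mod_cast hn0
      positivity
    obtain ⟨I, hI⟩ := key n
    obtain ⟨K, hK⟩ := exists_nat_ge ((n : ℝ) / q)
    rw [div_le_iff₀ hq] at hK
    have b1 := hn1 K (by linarith)
    have b2 := hn2 I
    have b3 := hI K
    simp only [one_mul, add_zero, one_pow, mul_one] at b1 b2
    have b4 := (b1.trans b3).trans b2
    have b5 := le_of_mul_le_mul_right b4 hn'
    have e : (V + 5 * h₂ * (η / 3)) / (5 * h₂) = V / (5 * h₂) + η / 3 := by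
      field_simp
    rw [e] at b5
    linarith
  have h3 : V * q / h₂ / (5 * q) = V / (5 * h₂) := by
    field_simp
  rw [add_div, h3] at h2
  have h4 : 0 < ε / (5 * q) := by positivity
  linarith

theorem asy_chain {N₁ H : ℝ → ℝ} {V s δ t p : ℝ} (hs : 0 < s) (hδ : 0 < δ) (ht : 0 < t)
    (hp : 0 ≤ p) (hV0 : 0 < V)
    (hmono₁ : Monotone N₁) (hN₁ : ∀ x ≤ 0, N₁ x ≤ 0) (hN₁' : ∀ x, 0 ≤ N₁ x) (hmono : Monotone H)
    (hH : ∀ x, 0 ≤ H x)
    (hV : Tendsto (fun m : ℕ => N₁ m / (m : ℝ) ^ 4) atTop (𝓝 V))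
    (key : ∀ n K I : ℕ, (n : ℝ) ≤ K * s → ∑ k ∈ Finset.range K, H (n - k * s) +
      2 * p * ∑ i ∈ Finset.range I, N₁ (t * n - δ - i * δ) ≤
        ∑ k ∈ Finset.range K, N₁ (n - k * s)) {ε : ℝ} (hε : 0 < ε) :
    ∃ᶠ m : ℕ in atTop, H m ≤ (V * (1 - 2 * p * s * t ^ 5 / δ) + ε) * (m : ℝ) ^ 4 := by
  rw [Filter.Frequently]
  intro hcon
  set A₀ : ℝ := V * (1 - 2 * p * s * t ^ 5 / δ) + ε with hA₀
  have h1 : ∀ᶠ m : ℕ in atTop, (max A₀ 0) * (m : ℝ) ^ 4 ≤ H m := by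
    filter_upwards [hcon] with m hm
    rcases le_total A₀ 0 with h | h
    · rw [max_eq_right h, zero_mul]
      exact hH m
    · rw [max_eq_left h]
      exact (not_le.mp hm).le
  have h2 : (max A₀ 0) / (5 * s) + 2 * p * (V * t ^ 5 / (5 * δ)) ≤ V / (5 * s) := by
    refine le_of_forall_pos_le_add fun η hη => ?_
    -- small constants
    obtain ⟨θ, hθ, hθV, hθη⟩ : ∃ θ : ℝ, 0 < θ ∧ θ ≤ V ∧
        θ * (2 + 2 * p * (t ^ 5 / (5 * δ) + 1) + 1 / (5 * s)) ≤ η := by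
      have hc : 0 < 2 + 2 * p * (t ^ 5 / (5 * δ) + 1) + 1 / (5 * s) := by positivity
      refine ⟨min V (η / (2 + 2 * p * (t ^ 5 / (5 * δ) + 1) + 1 / (5 * s))),
        lt_min hV0 (by positivity), min_le_left _ _, ?_⟩
      refine (mul_le_mul_of_nonneg_right (min_le_right _ _) hc.le).trans (le_of_eq ?_)
      exact div_mul_cancel₀ _ hc.ne'
    have a1 := asy_lower hmono hH (le_max_right A₀ 0) h1 hs (t := 1) 0 hθ
    have a2 := asy_lower hmono₁ hN₁' (show 0 ≤ V - θ by linarith) (ev_bounds hV hθ).1 hδ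
      (t := t) (-δ) hθ
    have a3 := asy_upper hmono₁ hN₁ (show 0 ≤ V + θ by linarith)
      (ev_bounds hV hθ).2 hs (t := 1) one_pos 0 hθ
    obtain ⟨n, hn1, hn2, hn3, hn0⟩ :=
      (a1.and (a2.and (a3.and (eventually_gt_atTop 0)))).exists
    have hn' : (0 : ℝ) < (n : ℝ) ^ 5 := by
      have : (0 : ℝ) < n := by exact_mod_cast hn0
      positivity
    obtain ⟨K, hK⟩ := exists_nat_ge ((n : ℝ) / s)
    rw [div_le_iff₀ hs] at hK
    obtain ⟨I, hI⟩ := exists_nat_ge ((t * n) / δ)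
    rw [div_le_iff₀ hδ] at hI
    have b1 := hn1 K (by linarith)
    have b2 := hn2 I (by linarith)
    have b3 := hn3 K
    have b4 := key n K I hK
    simp only [one_mul, add_zero, one_pow, mul_one] at b1 b3
    have e0 : ∀ i : ℕ, t * (n : ℝ) + -δ - i * δ = t * n - δ - i * δ := fun i => by ring
    simp only [e0] at b2
    have b5 := mul_le_mul_of_nonneg_left b2 (show 0 ≤ 2 * p by linarith)
    have b6 : (max A₀ 0 / (5 * s) - θ + 2 * p * ((V - θ) * t ^ 5 / (5 * δ) - θ)) * (n : ℝ) ^ 5 ≤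
        ((V + θ) / (5 * s) + θ) * (n : ℝ) ^ 5 := by
      have e : (max A₀ 0 / (5 * s) - θ + 2 * p * ((V - θ) * t ^ 5 / (5 * δ) - θ)) * (n : ℝ) ^ 5 =
          (max A₀ 0 / (5 * s) - θ) * (n : ℝ) ^ 5 +
            2 * p * (((V - θ) * t ^ 5 / (5 * δ) - θ) * (n : ℝ) ^ 5) := by ring
      rw [e]
      linarith
    have b7 := le_of_mul_le_mul_right b6 hn'
    have e2 : (V + θ) / (5 * s) = V / (5 * s) + θ * (1 / (5 * s)) := by ring
    have e3 : (V - θ) * t ^ 5 / (5 * δ) = V * t ^ 5 / (5 * δ) - θ * (t ^ 5 / (5 * δ)) := by ring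
    rw [e2, e3] at b7
    have e4 : θ * (2 + 2 * p * (t ^ 5 / (5 * δ) + 1) + 1 / (5 * s)) =
        2 * θ + 2 * p * (θ * (t ^ 5 / (5 * δ)) + θ) + θ * (1 / (5 * s)) := by ring
    rw [e4] at hθη
    linarith
  have h3 : A₀ / (5 * s) ≤ max A₀ 0 / (5 * s) :=
    div_le_div_of_nonneg_right (le_max_left _ _) (by positivity)
  have h4 : A₀ / (5 * s) = V / (5 * s) - 2 * p * (V * t ^ 5 / (5 * δ)) + ε / (5 * s) := by
    rw [hA₀]
    field_simp
  have h5 : 0 < ε / (5 * s) := by positivity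
  linarith

end Pool.Agent.Helper37.Q4
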