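import Pool.Agent.Helper37.Q4.JH

/-!
# Project D4, package V: the volume in a torus direction
-/

set_option autoImplicit false

namespace Pool.Agent.Helper37.Q4

open Module Filter Topology Pool.Agent.Helper37.SD Pool.Agent.Helper88.D4

variable {K : Type} [Field K] [Algebra ℂ K] {R : Subalgebra ℂ K} {ξ H : Derivation ℂ K K}
  {J : Bra K} {v w : RVal K}

/-- refinement of homogeneous components -/
theorem jh_refine' {Q : ℝ → ℕ → Prop} (hspan : ∀ x ∈ R, x ∈ JH R ξ H Q) {P : ℝ → Prop} {x : K}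
    (hx : x ∈ RH R ξ P) : x ∈ JH R ξ H (fun c i => P c ∧ Q c i) := by
  induction hx using Submodule.span_induction with
  | mem y hy =>
    obtain ⟨hyR, c, hP, hc⟩ := hy
    refine jh_mono ?_ (jh_comp (hspan y hyR) hc)
    rintro c' i ⟨rfl, hQ⟩
    exact ⟨hP, hQ⟩
  | zero => exact Submodule.zero_mem _
  | add x y _ _ hx hy => exact Submodule.add_mem _ hx hy
  | smul z x _ hx => exact Submodule.smul_mem _ z hx

theorem isWs_of_isWt (hw : IsWt R ξ w) : IsWs R ξ w 0 w := by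
  intro x hx hx0 P F hF
  refine eq_of_forall_le_iff fun m => ?_
  rw [hw x hx hx0 m, le_mv_iff w 0 (dec_ne_zero hF hx0) m]
  constructor
  · intro h1 c hc
    obtain ⟨G, hG⟩ := exists_dec h1
    rw [hF.unique hG] at hc
    have := hG.prop c hc
    linarith
  · intro h1
    have h2 : IsDec (ξ : K →ₗ[ℂ] K) (RS R) (fun b => m ≤ b) F x :=
      ⟨hF.eig, hF.mem, fun c hc => by
        have := h1 c hc
        linarith, hF.sum⟩
    exact h2.mem_hsp

theorem homBra_dir (hJ : IsAlt J) {a s : ℝ} (h1 : HomBra ξ (a : ℂ) J) (h2 : HomBra H 1 J) :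
    HomBra (ξ - (s : ℂ) • H) ((a - s : ℝ) : ℂ) J := by
  intro x y z t
  have e : ∀ p : K, (ξ - (s : ℂ) • H) p = ξ p - (s : ℂ) • H p := fun p => rfl
  have e2 : J ((ξ - (s : ℂ) • H) y) z t x = J (ξ y) z t x - (s : ℂ) • J (H y) z t x := by
    rw [IsAlt.slot2 hJ x _ z t, IsAlt.slot2 hJ x (ξ y) z t, IsAlt.slot2 hJ x (H y) z t, e, map_sub,
      Derivation.map_smul]
  have e3 : J y ((ξ - (s : ℂ) • H) z) t x = J y (ξ z) t x - (s : ℂ) • J y (H z) t x := by
    rw [IsAlt.slot3 hJ x y _ t, IsAlt.slot3 hJ x y (ξ z) t, IsAlt.slot3 hJ x y (H z) t, e, map_sub,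
      Derivation.map_smul]
  have e4 : J y z ((ξ - (s : ℂ) • H) t) x = J y z (ξ t) x - (s : ℂ) • J y z (H t) x := by
    rw [IsAlt.slot4 hJ x y z _, IsAlt.slot4 hJ x y z (ξ t), IsAlt.slot4 hJ x y z (H t), e, map_sub,
      Derivation.map_smul]
  rw [e2, e3, e4, e, e, map_sub, Derivation.map_smul, h1 x y z t, h2 x y z t]
  push_cast
  module

theorem val_dir_ge {C : ℝ}
    (hC : ∀ x ∈ R, x ∈ JH R ξ H (fun c i => 0 ≤ c ∧ (i : ℝ) ≤ C * c)) {s : ℝ} (hs : 0 < s)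
    (hsC : s * C < 1) (hv : IsWt R ξ v) (hw : IsWt R (ξ - (s : ℂ) • H) w) {x : K} (hx : x ∈ R)
    (hx0 : x ≠ 0) : (1 - s * C) * v.val x ≤ w.val x := by
  rw [hw x hx hx0]
  refine jh_le_rh ?_ (jh_refine' hC ((hv x hx hx0 (v.val x)).mp le_rfl))
  rintro c i ⟨h1, _, h2⟩
  have h3 := mul_le_mul_of_nonneg_left h2 hs.le
  have h4 := mul_le_mul_of_nonneg_left h1 (show 0 ≤ 1 - s * C by linarith)
  linarith

/-- the filtrations modulo `F` -/
theorem sup_le_dir (hspan : ∀ x ∈ R, x ∈ JH R ξ H (fun _ _ => True)) {s : ℝ} (hs : 0 < s)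
    (hv : IsWt R ξ v) (hw : IsWt R (ξ - (s : ℂ) • H) w) (f : R) {l : ℕ}
    (hf : ∀ x ∈ R, ∀ i : ℕ, H x = (i : ℂ) • x → l ≤ i → ∃ y ∈ R, x = (f : K) * y) (m : ℝ) :
    idl R v (m + s * l) ⊔ LinearMap.range (mulR R f) ≤
      idl R w m ⊔ LinearMap.range (mulR R f) := by
  refine sup_le ?_ le_sup_right
  intro x hx
  by_cases hx0 : (x : K) = 0
  · exact Submodule.mem_sup_left (Or.inl hx0)
  · have h1 := jh_refine hspan ((hv x x.2 hx0 _).mp (hx.resolve_left hx0))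
    have h2 : JH R ξ H (fun c _ => m + s * l ≤ c) ≤
        (idl R w m ⊔ LinearMap.range (mulR R f)).map R.val.toLinearMap := by
      refine Submodule.span_le.mpr ?_
      rintro y ⟨hyR, c, i, hc0, hc, hi⟩
      refine ⟨⟨y, hyR⟩, ?_, rfl⟩
      rcases lt_or_ge i l with h3 | h3
      · refine Submodule.mem_sup_left ?_
        by_cases hy0 : y = 0
        · exact Or.inl hy0
        · refine Or.inr ((hw y hyR hy0 m).mpr (mem_hsp (c := c - s * i) hyR ?_ ?_))
          · have h4 : (i : ℝ) ≤ l := by exact_mod_cast h3.le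
            have h5 := mul_le_mul_of_nonneg_left h4 hs.le
            show m ≤ c - s * i
            linarith
          · show (ξ - (s : ℂ) • H) y = _
            rw [Derivation.sub_apply, Derivation.smul_apply, hc, hi, smul_smul, ← sub_smul]
            push_cast
            rfl
      · refine Submodule.mem_sup_right ?_
        obtain ⟨z, hz, e⟩ := hf y hyR i hi h3
        exact ⟨⟨z, hz⟩, Subtype.ext e.symm⟩
    obtain ⟨y, hy, e⟩ := h2 h1
    have e' : y = x := Subtype.ext e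
    rwa [← e']

/-- **the volume in a torus direction** -/
theorem volLe_dir (h : IsCone R ξ) (hspan : ∀ x ∈ R, x ∈ JH R ξ H (fun _ _ => True)) {s : ℝ}
    (hs : 0 < s) (hv : IsWt R ξ v) (h' : IsCone R (ξ - (s : ℂ) • H))
    (hw : IsWt R (ξ - (s : ℂ) • H) w) {F : K} {δ : ℝ} {l : ℕ} (hF : F ∈ R) (hF0 : F ≠ 0)
    (hFδ : ξ F = (δ : ℂ) • F) (hFl : H F = (l : ℂ) • F) (hδ : 0 < δ - s * l)
    (hf : ∀ x ∈ R, ∀ i : ℕ, H x = (i : ℂ) • x → l ≤ i → ∃ y ∈ R, x = F * y)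
    {n : ℕ} {V : ℝ} (hV : HasVol n R v V) : VolLe n R w (V * δ / (δ - s * l)) := by
  set A : ℝ := ((2 * n).factorial : ℝ) with hA
  have hA0 : 0 < A := by
    rw [hA]
    exact_mod_cast Nat.factorial_pos _
  have hsl : 0 ≤ s * l := by positivity
  have hvf : v.val F = δ := hv.val_eig h hF0 hFδ
  have hwf : w.val F = δ - s * l := by
    refine hw.val_eig h' hF0 ?_
    rw [Derivation.sub_apply, Derivation.smul_apply, hFδ, hFl, smul_smul, ← sub_smul]
    push_cast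
    rfl
  have hfv : ∀ c, Module.Finite ℂ (R ⧸ idl R v c) := hv.finite_quot h
  have hfw : ∀ c, Module.Finite ℂ (R ⧸ idl R w c) := hw.finite_quot h'
  have hw0 : ∀ x ∈ R, x ≠ 0 → 0 ≤ w.val x := fun x hx hx0 => hw.nonneg h' hx hx0
  set g : R := ⟨F, hF⟩ with hg
  have hfJ : ∀ m, Module.Finite ℂ (R ⧸ idl R v m ⊔ LinearMap.range (mulR R g)) := fun m =>
    finite_of_le le_sup_left (hfv m)
  have key := growth_le (N₁ := fun m => A * (finrank ℂ (R ⧸ idl R v m) : ℝ))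
    (N₂ := fun m => A * (finrank ℂ (R ⧸ idl R w m) : ℝ))
    (N' := fun m => A * (finrank ℂ (R ⧸ idl R v m ⊔ LinearMap.range (mulR R g)) : ℝ))
    (h₁ := δ) (h₂ := δ - s * l) (c := s * l) (by linarith) hδ hsl ?_ ?_ ?_ ?_ ?_ ?_ ?_
    (2 * n) hV
  · exact key
  · intro a b hab
    refine mul_le_mul_of_nonneg_left ?_ hA0.le
    exact_mod_cast finrank_anti (sup_le_sup_right (idl_anti hab) _) (hfJ b)
  · intro a b hab
    refine mul_le_mul_of_nonneg_left ?_ hA0.le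
    exact_mod_cast finrank_anti (idl_anti hab) (hfv b)
  · intro m
    positivity
  · intro m hm
    show A * _ ≤ 0
    rw [finrank_top (idl_top hw0 hm)]
    simp
  · intro m
    positivity
  · intro m
    show A * _ + A * _ ≤ A * _
    have h1 := colen_rec (f := g) hF0 m (hfv m)
    have e : v.val (g : K) = δ := hvf
    rw [e] at h1
    rw [h1]
    push_cast
    linarith
  · intro m
    show A * _ ≤ A * _ + A * _
    have h1 := colen_rec (f := g) hF0 m (hfw m)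
    have e : w.val (g : K) = δ - s * l := hwf
    rw [e] at h1
    have h2 := finrank_anti (sup_le_dir hspan hs hv hw g hf m) (hfJ (m + s * l))
    rw [h1, ← mul_add]
    refine mul_le_mul_of_nonneg_left ?_ hA0.le
    exact_mod_cast Nat.add_le_add_left h2 _

theorem deriv_nonneg' {φ : ℝ → ℝ} {D : ℝ} (h : HasDerivAt φ D 0) (h0 : φ 0 = 0)
    (hpos : ∀ᶠ s in 𝓝[>] 0, 0 ≤ φ s) : 0 ≤ D := by
  have h1 := hasDerivAt_iff_tendsto_slope_zero.mp h
  have h2 : Tendsto (fun t : ℝ => t⁻¹ • (φ (0 + t) - φ 0)) (𝓝[>] 0) (𝓝 D) :=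
    h1.mono_left (nhdsWithin_mono _ fun t ht => ne_of_gt ht)
  refine ge_of_tendsto h2 ?_
  filter_upwards [self_mem_nhdsWithin, hpos] with t ht ht2
  have ht' : (0 : ℝ) < t := ht
  rw [h0, zero_add, sub_zero, smul_eq_mul]
  exact mul_nonneg (inv_nonneg.mpr ht'.le) ht2

theorem num_dir {a V δ l s₀ : ℝ} (ha : 0 < a) (hV : 0 < V) (hs₀ : 0 < s₀)
    (hpos : ∀ s, 0 < s → s < s₀ → 0 < δ - s * l)
    (h : ∀ s, 0 < s → s < s₀ → a ^ 4 * V ≤ (a - s) ^ 4 * (V * δ / (δ - s * l))) :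
    4 * δ ≤ a * l := by
  have hder : HasDerivAt (fun s : ℝ => (a - s) ^ 4 * δ - a ^ 4 * (δ - s * l))
      (-(4 * a ^ 3 * δ) + a ^ 4 * l) 0 := by
    have h1 : HasDerivAt (fun s : ℝ => a - s) (-1) 0 := by
      have := (hasDerivAt_id (0 : ℝ)).const_sub a
      simpa using this
    have h2 := (h1.pow 4).mul_const δ
    have h3 : HasDerivAt (fun s : ℝ => a ^ 4 * (δ - s * l)) (a ^ 4 * (-l)) 0 := by
      have := (((hasDerivAt_id (0 : ℝ)).mul_const l).const_sub δ).const_mul (a ^ 4)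
      simpa using this
    have h4 := h2.sub h3
    refine h4.congr_deriv ?_
    simp only [sub_zero, Nat.cast_ofNat, Nat.add_one_sub_one]
    ring
  have h0 := deriv_nonneg' hder (by simp) (by
    filter_upwards [Ioo_mem_nhdsGT hs₀] with s hs
    obtain ⟨hs, hs'⟩ := hs
    have h1 := h s hs hs'
    have h2 := hpos s hs hs'
    rw [mul_div_assoc', le_div_iff₀ h2] at h1
    have h3 : V * (a ^ 4 * (δ - s * l)) ≤ V * ((a - s) ^ 4 * δ) := by
      calc V * (a ^ 4 * (δ - s * l)) = a ^ 4 * V * (δ - s * l) := by ring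
        _ ≤ (a - s) ^ 4 * (V * δ) := h1
        _ = _ := by ring
    have h4 := le_of_mul_le_mul_left h3 hV
    linarith)
  have h1 : a ^ 3 * (4 * δ) ≤ a ^ 3 * (a * l) := by
    have e : a ^ 3 * (a * l) = a ^ 4 * l := by ring
    rw [e]
    linarith
  exact le_of_mul_le_mul_left h1 (by positivity)

theorem V4 : ∀ (K : Type) [Field K] [Algebra ℂ K] (R : Subalgebra ℂ K)
    (ξ : Derivation ℂ K K) (J : Bra K) (v : RVal K) (a V : ℝ), Cone4 R ξ J a →
    IsMin R ξ J v a V →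
    ∀ (H : Derivation ℂ K K), ⁅ξ, H⁆ = 0 →
      (∀ x ∈ R, x ∈ Submodule.span ℂ {y | y ∈ R ∧ ∃ c : ℝ, ∃ i : ℕ, ξ y = (c : ℂ) • y ∧
        H y = (i : ℂ) • y}) → HomBra H 1 J →
      ∀ (F : K) (δ : ℝ) (l : ℕ), F ∈ R → F ≠ 0 → 0 < l → ξ F = (δ : ℂ) • F → H F = (l : ℂ) • F →
        (∀ x ∈ R, ∀ i : ℕ, H x = (i : ℂ) • x → l ≤ i → ∃ y ∈ R, x = F * y) → 4 * δ ≤ a * l := by
  intro K _ _ R ξ J v a V hC hM H _ hsp hH F δ l hF hF0 hl hFδ hFl hf
  have hspan : ∀ x ∈ R, x ∈ JH R ξ H (fun _ _ => True) := by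
    intro x hx
    refine Submodule.span_mono ?_ (hsp x hx)
    rintro y ⟨h1, c, i, h2, h3⟩
    exact ⟨h1, c, i, trivial, h2, h3⟩
  obtain ⟨C, hC0, hCb⟩ := exists_bound hC.toIsCone hspan
  have hlC : (l : ℝ) ≤ C * δ := (prop_of_mem_jh hF0 (hCb F hF) hFδ hFl).2
  have hl0 : (0 : ℝ) < l := by exact_mod_cast hl
  have hδ0 : 0 < δ := by
    by_contra hcon
    have := mul_nonpos_of_nonneg_of_nonpos hC0.le (not_lt.mp hcon)
    linarith
  have hsC : ∀ s, 0 < s → s < 1 / C → s * C < 1 := fun s _ h1 => by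
    rwa [lt_div_iff₀ hC0] at h1
  have hpos : ∀ s, 0 < s → s < 1 / C → 0 < δ - s * l := by
    intro s h1 h2
    have h3 := hsC s h1 h2
    have h4 := mul_le_mul_of_nonneg_left hlC h1.le
    have h5 : s * C * δ < 1 * δ := mul_lt_mul_of_pos_right h3 hδ0
    linarith
  refine num_dir hM.apos hM.vpos (one_div_pos.mpr hC0) hpos fun s h1 h2 => ?_
  have h3 := hsC s h1 h2
  have h' := cone_dir hC.toIsCone hCb h1 h3
  obtain ⟨w, hw⟩ := h'.exists_wt
  have hcen : Centred R v w := by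
    intro x hx hx0 hpos
    have h4 := val_dir_ge hCb h1 h3 hM.wt hw hx hx0
    have h5 : 0 < (1 - s * C) * v.val x := mul_pos (by linarith) hpos
    linarith
  have hld : LDLe J w (a - s) := by
    refine ldLe_of_hom h' (isWs_of_isWt hw) hC.alt ?_
    rintro x hx y hy z hz t ht hx0 hy0 hz0 ht0 ⟨c₁, e1⟩ ⟨c₂, e2⟩ ⟨c₃, e3⟩ ⟨c₄, e4⟩
    by_cases h0 : J y z t x = 0
    · exact Or.inl h0
    · refine Or.inr ?_
      have e := hw.val_eig h' h0
        (bra_eig hC.alt (homBra_dir hC.alt hC.hom hH) e1 e2 e3 e4)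
      rw [e, hw.val_eig h' hx0 e1, hw.val_eig h' hy0 e2, hw.val_eig h' hz0 e3,
        hw.val_eig h' ht0 e4]
  have hvol := volLe_dir hC.toIsCone hspan h1 hM.wt h' hw hF hF0 hFδ hFl (hpos s h1 h2) hf hM.vol
  exact (hM.min w _ _ hcen hld (volLe_conv hvol)).2

end Pool.Agent.Helper37.Q4
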