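import Pool.Agent.Helper37.Q4.Dir
import Pool.Agent.Helper37.Q4.Asy
import Pool.Agent.Helper88.D4.Stmts2

/-!
# Project D4: a torus direction and a function with poles
-/

set_option autoImplicit false

namespace Pool.Agent.Helper37.Q4

open Module Filter Topology Pool.Agent.Helper37.SD Pool.Agent.Helper88.D4

variable {K : Type} [Field K] [Algebra ℂ K] {R : Subalgebra ℂ K} {ξ H : Derivation ℂ K K}
  {J : Bra K} {v w : RVal K}

theorem finrank_quot_sup (S T : Submodule ℂ R) (hfin : Module.Finite ℂ (R ⧸ S)) :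
    finrank ℂ (R ⧸ S) = finrank ℂ (T.map S.mkQ) + finrank ℂ (R ⧸ S ⊔ T) := by
  have h3 := (T.map S.mkQ).finrank_quotient_add_finrank
  have h5 : finrank ℂ ((R ⧸ S) ⧸ T.map S.mkQ) = finrank ℂ (R ⧸ S ⊔ T) :=
    (Submodule.quotientQuotientEquivQuotientSup S T).finrank_eq
  omega

theorem finrank_range_le {M N P : Type} [AddCommGroup M] [Module ℂ M] [AddCommGroup N]
    [Module ℂ N] [AddCommGroup P] [Module ℂ P] (φ : M →ₗ[ℂ] N) (ψ : M →ₗ[ℂ] P)
    [Module.Finite ℂ P] (h : LinearMap.ker ψ ≤ LinearMap.ker φ) :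
    finrank ℂ (LinearMap.range φ) ≤ finrank ℂ (LinearMap.range ψ) := by
  rw [← (LinearMap.quotKerEquivRange φ).finrank_eq, ← (LinearMap.quotKerEquivRange ψ).finrank_eq]
  have : Module.Finite ℂ (M ⧸ LinearMap.ker ψ) :=
    Module.Finite.equiv (LinearMap.quotKerEquivRange ψ).symm
  exact LinearMap.finrank_le_finrank_of_surjective (f := Submodule.factor h)
    (Submodule.factor_surjective h)

/-- the part of `R` spanned by joint eigenvectors -/
def JR (R : Subalgebra ℂ K) (ξ H : Derivation ℂ K K) (Q : ℝ → ℕ → Prop) : Submodule ℂ R :=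
  (JH R ξ H Q).comap R.val.toLinearMap

theorem jh_sub_map {Q : ℝ → ℕ → Prop} {S : Submodule ℂ R}
    (hS : ∀ (y : R) (c : ℝ) (i : ℕ), Q c i → ξ (y : K) = (c : ℂ) • (y : K) →
      H (y : K) = (i : ℂ) • (y : K) → y ∈ S) {x : R} (hx : (x : K) ∈ JH R ξ H Q) : x ∈ S := by
  have h2 : JH R ξ H Q ≤ S.map R.val.toLinearMap := by
    refine Submodule.span_le.mpr ?_
    rintro y ⟨hyR, c, i, hQ, hc, hi⟩
    exact ⟨⟨y, hyR⟩, hS ⟨y, hyR⟩ c i hQ hc hi, rfl⟩
  obtain ⟨y, hy, e⟩ := h2 hx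
  have e' : y = x := Subtype.ext e
  rwa [← e']

theorem eig_dir {s c : ℝ} {i : ℕ} {y : K} (hc : ξ y = (c : ℂ) • y) (hi : H y = (i : ℂ) • y) :
    (ξ - (s : ℂ) • H) y = ((c - s * i : ℝ) : ℂ) • y := by
  rw [Derivation.sub_apply, Derivation.smul_apply, hc, hi, smul_smul, ← sub_smul]
  push_cast
  rfl

/-- **the recursion in a torus direction** -/
theorem rec_dir (h : IsCone R ξ) (hspan : ∀ x ∈ R, x ∈ JH R ξ H (fun _ _ => True)) {s : ℝ}
    (hs : 0 < s) (hv : IsWt R ξ v) (h' : IsCone R (ξ - (s : ℂ) • H))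
    (hw : IsWt R (ξ - (s : ℂ) • H) w) {W : K} {q : ℝ} {p : ℕ} (hW0 : W ≠ 0)
    (hWq : ξ W = -(q : ℂ) • W) (hWp : H W = -(p : ℂ) • W)
    (hf : ∀ x ∈ R, ∀ i : ℕ, H x = (i : ℂ) • x → p ≤ i → W * x ∈ R) (m : ℝ) :
    finrank ℂ (R ⧸ idl R w m) + finrank ℂ (R ⧸ idl R v (m + s * p - q)) ≤
      finrank ℂ (R ⧸ idl R w (m - (q - s * p))) + finrank ℂ (R ⧸ idl R v (m + s * p)) := by
  have hfv : ∀ c, Module.Finite ℂ (R ⧸ idl R v c) := hv.finite_quot h
  have hfw : ∀ c, Module.Finite ℂ (R ⧸ idl R w c) := hw.finite_quot h'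
  have hwW : w.val W = -(q - s * p) := by
    refine hw.val_eig h' hW0 ?_
    rw [Derivation.sub_apply, Derivation.smul_apply, hWq, hWp, smul_smul, ← sub_smul]
    push_cast
    ring_nf
  set A := idl R w m with hA
  set A' := idl R w (m - (q - s * p)) with hA'
  set B := idl R v (m + s * p) with hB
  set B' := idl R v (m + s * p - q) with hB'
  set B₁ := JR R ξ H (fun c i => m + s * p ≤ c ∧ p ≤ i) with hB₁
  have ha : B ≤ A ⊔ B₁ := by
    intro x hx
    by_cases hx0 : (x : K) = 0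
    · exact Submodule.mem_sup_left (Or.inl hx0)
    · have h1 := jh_refine hspan ((hv x x.2 hx0 _).mp (hx.resolve_left hx0))
      refine jh_sub_map ?_ h1
      intro y c i hc0 hc hi
      rcases lt_or_ge i p with h3 | h3
      · refine Submodule.mem_sup_left ?_
        by_cases hy0 : (y : K) = 0
        · exact Or.inl hy0
        · refine Or.inr ((hw y y.2 hy0 m).mpr (mem_hsp (c := c - s * i) y.2 ?_ (eig_dir hc hi)))
          have h4 : (i : ℝ) ≤ p := by exact_mod_cast h3.le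
          have h5 := mul_le_mul_of_nonneg_left h4 hs.le
          show m ≤ c - s * i
          linarith
      · exact Submodule.mem_sup_right (mem_jh y.2 ⟨hc0, h3⟩ hc hi)
  have hd : A' ≤ B' := by
    intro x hx
    by_cases hx0 : (x : K) = 0
    · exact Or.inl hx0
    · have h1 := (hw x x.2 hx0 _).mp (hx.resolve_left hx0)
      -- joint eigenvectors for `ξ'`
      have h2 : (x : K) ∈ JH R (ξ - (s : ℂ) • H) H (fun c _ => m - (q - s * p) ≤ c) := by
        refine jh_refine (fun y hy => ?_) h1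
        have h3 := hspan y hy
        refine Submodule.span_le.mpr ?_ h3
        rintro z ⟨hzR, c, i, _, hc, hi⟩
        exact mem_jh hzR trivial (eig_dir hc hi) hi
      refine jh_sub_map (ξ := ξ - (s : ℂ) • H) (H := H) ?_ h2
      intro y c i hc0 hc hi
      by_cases hy0 : (y : K) = 0
      · exact Or.inl hy0
      · refine Or.inr ((hv y y.2 hy0 _).mpr (mem_hsp (c := c + s * i) y.2 ?_ ?_))
        · have h5 : 0 ≤ s * (i : ℝ) := by positivity
          show m + s * p - q ≤ c + s * i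
          linarith
        · have e : ξ (y : K) = (ξ - (s : ℂ) • H) (y : K) + (s : ℂ) • H (y : K) := by
            rw [Derivation.sub_apply, Derivation.smul_apply, sub_add_cancel]
          show ξ (y : K) = _
          rw [e, hc, hi, smul_smul, ← add_smul]
          push_cast
          rfl
  -- multiplication by `W`
  have hb : ∀ x : B₁, W * ((x : R) : K) ∈ RH R ξ (fun b => m + s * p - q ≤ b) := by
    intro x
    have h1 : JH R ξ H (fun c i => m + s * p ≤ c ∧ p ≤ i) ≤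
        (RH R ξ (fun b => m + s * p - q ≤ b)).comap (LinearMap.mulLeft ℂ W) := by
      refine Submodule.span_le.mpr ?_
      rintro y ⟨hyR, c, i, hci, hc, hi⟩
      refine mem_hsp (c := -q + c) (hf y hyR i hi hci.2) ?_ ?_
      · show m + s * p - q ≤ -q + c
        linarith [hci.1]
      · exact eig_mul (by push_cast; exact hWq) hc
    exact h1 x.2
  let μ : B₁ →ₗ[ℂ] R := LinearMap.codRestrict (Subalgebra.toSubmodule R)
    ((LinearMap.mulLeft ℂ W).comp (R.val.toLinearMap.comp B₁.subtype)) (fun x => hsp_le (hb x))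
  have hμ : ∀ x : B₁, ((μ x : R) : K) = W * ((x : R) : K) := fun _ => rfl
  let φ : B₁ →ₗ[ℂ] R ⧸ A := A.mkQ.comp B₁.subtype
  let ψ : B₁ →ₗ[ℂ] R ⧸ A' := A'.mkQ.comp μ
  have hker : LinearMap.ker ψ ≤ LinearMap.ker φ := by
    intro x hx
    have h1 : μ x ∈ A' := (Submodule.Quotient.mk_eq_zero A').mp hx
    have h2 : (x : R) ∈ A := by
      by_cases hx0 : ((x : R) : K) = 0
      · exact Or.inl hx0
      · have h3 : w.Ge (m - (q - s * p)) (W * ((x : R) : K)) := h1
        have h4 := h3.resolve_left (mul_ne_zero hW0 hx0)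
        rw [w.map_mul _ _ hW0 hx0, hwW] at h4
        exact Or.inr (by linarith)
    exact (Submodule.Quotient.mk_eq_zero A).mpr h2
  have h1 := finrank_range_le φ ψ hker
  have h2 : LinearMap.range φ = B₁.map A.mkQ := by
    rw [LinearMap.range_comp, Submodule.range_subtype]
  have h3 : LinearMap.range ψ ≤ B'.map A'.mkQ := by
    rintro _ ⟨x, rfl⟩
    refine ⟨μ x, ?_, rfl⟩
    by_cases hx0 : ((μ x : R) : K) = 0
    · exact Or.inl hx0
    · exact Or.inr ((hv _ (μ x).2 hx0 _).mpr (hb x))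
  have h4 : finrank ℂ (LinearMap.range ψ) ≤ finrank ℂ (B'.map A'.mkQ) :=
    Submodule.finrank_mono h3
  have h5 := finrank_quot_sup A B₁ (hfw m)
  have h6 := finrank_quot_sup A' B' (hfw _)
  rw [sup_eq_right.mpr hd] at h6
  have h7 := finrank_anti ha (hfv _)
  rw [h2] at h1
  omega

theorem volLeF_dir (h : IsCone R ξ) (hspan : ∀ x ∈ R, x ∈ JH R ξ H (fun _ _ => True)) {s : ℝ}
    (hs : 0 < s) (hv : IsWt R ξ v) (h' : IsCone R (ξ - (s : ℂ) • H))
    (hw : IsWt R (ξ - (s : ℂ) • H) w) {W : K} {q : ℝ} {p : ℕ} (hW0 : W ≠ 0)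
    (hWq : ξ W = -(q : ℂ) • W) (hWp : H W = -(p : ℂ) • W)
    (hf : ∀ x ∈ R, ∀ i : ℕ, H x = (i : ℂ) • x → p ≤ i → W * x ∈ R) (hq : 0 < q)
    (hqp : 0 < q - s * p) {V : ℝ} (hV0 : 0 < V) (hV : HasVol 2 R v V) :
    VolLeF R w (V * q / (q - s * p)) := by
  have hfv : ∀ c, Module.Finite ℂ (R ⧸ idl R v c) := hv.finite_quot h
  have hfw : ∀ c, Module.Finite ℂ (R ⧸ idl R w c) := hw.finite_quot h'
  have hw0 : ∀ x ∈ R, x ≠ 0 → 0 ≤ w.val x := fun x hx hx0 => hw.nonneg h' hx hx0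
  have hv0 : ∀ x ∈ R, x ≠ 0 → 0 ≤ v.val x := fun x hx hx0 => hv.nonneg h hx hx0
  set N₁ : ℝ → ℝ := fun m => 24 * (finrank ℂ (R ⧸ idl R v m) : ℝ) with hN₁
  set N₂ : ℝ → ℝ := fun m => 24 * (finrank ℂ (R ⧸ idl R w m) : ℝ) with hN₂
  have hrec : ∀ m, N₂ m ≤ N₂ (m - (q - s * p)) + (N₁ (m + s * p) - N₁ (m + s * p - q)) := by
    intro m
    have h1 := rec_dir h hspan hs hv h' hw hW0 hWq hWp hf m
    have h2 : ((finrank ℂ (R ⧸ idl R w m) + finrank ℂ (R ⧸ idl R v (m + s * p - q)) : ℕ) : ℝ) ≤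
      ((finrank ℂ (R ⧸ idl R w (m - (q - s * p))) + finrank ℂ (R ⧸ idl R v (m + s * p)) : ℕ) :
        ℝ) := by exact_mod_cast h1
    push_cast at h2
    show 24 * _ ≤ 24 * _ + (24 * _ - 24 * _)
    linarith
  have hzero : ∀ m ≤ 0, N₂ m = 0 := by
    intro m hm
    show 24 * _ = _
    rw [finrank_top (idl_top hw0 hm)]
    simp
  have hiter : ∀ (I : ℕ) (m : ℝ), m ≤ I * (q - s * p) → N₂ m ≤ ∑ i ∈ Finset.range I,
      (N₁ (m + s * p - i * (q - s * p)) - N₁ (m + s * p - i * (q - s * p) - q)) := by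
    intro I
    induction I with
    | zero =>
      intro m hm
      rw [hzero m (by simpa using hm)]
      simp
    | succ I ih =>
      intro m hm
      have h1 := ih (m - (q - s * p)) (by push_cast at hm; linarith)
      rw [Finset.sum_range_succ']
      have e : ∀ i : ℕ, N₁ (m + s * p - ((i + 1 : ℕ) : ℝ) * (q - s * p)) -
          N₁ (m + s * p - ((i + 1 : ℕ) : ℝ) * (q - s * p) - q) =
          N₁ (m - (q - s * p) + s * p - i * (q - s * p)) -
          N₁ (m - (q - s * p) + s * p - i * (q - s * p) - q) := by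
        intro i
        congr 2
        · push_cast; ring
        · push_cast; ring
      simp only [e]
      have h2 := hrec m
      simp only [Nat.cast_zero, zero_mul, sub_zero]
      linarith
  intro ε hε
  refine asy_dir (N₁ := N₁) (N₂ := N₂) (r := s * p) hq hqp hV0 ?_ ?_ ?_ ?_ ?_ ?_ hε
  · intro a b hab
    refine mul_le_mul_of_nonneg_left ?_ (by norm_num)
    exact_mod_cast finrank_anti (idl_anti hab) (hfv b)
  · intro m hm
    show 24 * _ ≤ 0
    rw [finrank_top (idl_top hv0 hm)]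
    simp
  · intro a b hab
    refine mul_le_mul_of_nonneg_left ?_ (by norm_num)
    exact_mod_cast finrank_anti (idl_anti hab) (hfw b)
  · intro m
    positivity
  · refine hV.congr fun m => ?_
    have e : ((2 * 2).factorial : ℝ) = 24 := by norm_num [Nat.factorial]
    rw [e]
  · intro n
    obtain ⟨I, hI⟩ := exists_nat_ge ((n : ℝ) / (q - s * p))
    rw [div_le_iff₀ hqp] at hI
    refine ⟨I, fun k => ?_⟩
    have h1 : ∑ j ∈ Finset.range k, N₂ (n - j * q) ≤ ∑ j ∈ Finset.range k,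
        ∑ i ∈ Finset.range I, (N₁ (n - j * q + s * p - i * (q - s * p)) -
          N₁ (n - j * q + s * p - i * (q - s * p) - q)) := by
      refine Finset.sum_le_sum fun j _ => hiter I _ ?_
      have : 0 ≤ (j : ℝ) * q := by positivity
      linarith
    refine h1.trans ?_
    rw [Finset.sum_comm]
    refine Finset.sum_le_sum fun i _ => ?_
    have h2 : ∀ k : ℕ, ∑ j ∈ Finset.range k, (N₁ (n - j * q + s * p - i * (q - s * p)) -
          N₁ (n - j * q + s * p - i * (q - s * p) - q)) =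
        N₁ (n + s * p - i * (q - s * p)) - N₁ (n + s * p - i * (q - s * p) - k * q) := by
      intro k
      induction k with
      | zero => simp
      | succ k ih =>
        rw [Finset.sum_range_succ, ih]
        have e1 : (n : ℝ) - k * q + s * p - i * (q - s * p) =
          n + s * p - i * (q - s * p) - k * q := by ring
        have e2 : (n : ℝ) - k * q + s * p - i * (q - s * p) - q =
          n + s * p - i * (q - s * p) - ((k + 1 : ℕ) : ℝ) * q := by push_cast; ring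
        rw [e2, e1]
        ring
    rw [h2]
    have h3 : 0 ≤ N₁ (n + s * p - i * (q - s * p) - k * q) := by
      show 0 ≤ 24 * _
      positivity
    linarith

theorem V4W : ∀ (K : Type) [Field K] [Algebra ℂ K] (R : Subalgebra ℂ K)
    (ξ : Derivation ℂ K K) (J : Bra K) (v : RVal K) (a V : ℝ), Cone4 R ξ J a →
    IsMinF R ξ J v a V →
    ∀ (H : Derivation ℂ K K), ⁅ξ, H⁆ = 0 →
      (∀ x ∈ R, x ∈ Submodule.span ℂ {y | y ∈ R ∧ ∃ c : ℝ, ∃ i : ℕ, ξ y = (c : ℂ) • y ∧
        H y = (i : ℂ) • y}) → HomBra H 1 J →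
      ∀ (W : K) (q : ℝ) (p : ℕ), W ≠ 0 → 0 < p → ξ W = -(q : ℂ) • W → H W = -(p : ℂ) • W →
        (∀ x ∈ R, ∀ i : ℕ, H x = (i : ℂ) • x → p ≤ i → W * x ∈ R) → 4 * q ≤ a * p := by
  intro K _ _ R ξ J v a V hC hM H _ hsp hH W q p hW0 hp hWq hWp hf
  have hp0 : (0 : ℝ) < p := by exact_mod_cast hp
  rcases le_or_gt q 0 with hq | hq
  · have := mul_pos hM.apos hp0
    linarith
  have hspan : ∀ x ∈ R, x ∈ JH R ξ H (fun _ _ => True) := by
    intro x hx
    refine Submodule.span_mono ?_ (hsp x hx)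
    rintro y ⟨h1, c, i, h2, h3⟩
    exact ⟨h1, c, i, trivial, h2, h3⟩
  obtain ⟨C, hC0, hCb⟩ := exists_bound hC.toIsCone hspan
  have hsC : ∀ s, 0 < s → s < min (1 / C) (q / p) → s * C < 1 := fun s _ h1 => by
    have h2 := lt_of_lt_of_le h1 (min_le_left _ _)
    rwa [lt_div_iff₀ hC0] at h2
  have hpos : ∀ s, 0 < s → s < min (1 / C) (q / p) → 0 < q - s * p := by
    intro s _ h2
    have h3 := lt_of_lt_of_le h2 (min_le_right _ _)
    rw [lt_div_iff₀ hp0] at h3
    linarith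
  refine num_dir hM.apos hM.vpos (lt_min (one_div_pos.mpr hC0) (div_pos hq hp0)) hpos
    fun s h1 h2 => ?_
  have h3 := hsC s h1 h2
  have h' := cone_dir hC.toIsCone hCb h1 h3
  obtain ⟨w, hw⟩ := h'.exists_wt
  have hcen : Centred R v w := by
    intro x hx hx0 hpos
    have h4 := val_dir_ge hCb h1 h3 hM.wt hw hx hx0
    have h5 : 0 < (1 - s * C) * v.val x := mul_pos (by linarith) hpos
    linarith
  have hld : LDLe J w (a - s) := by
    refine ldLe_of_hom h' (isWs_of_isWt hw) hC.alt ?_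
    rintro x hx y hy z hz t ht hx0 hy0 hz0 ht0 ⟨c₁, e1⟩ ⟨c₂, e2⟩ ⟨c₃, e3⟩ ⟨c₄, e4⟩
    by_cases h0 : J y z t x = 0
    · exact Or.inl h0
    · refine Or.inr ?_
      have e := hw.val_eig h' h0
        (bra_eig hC.alt (homBra_dir hC.alt hC.hom hH) e1 e2 e3 e4)
      rw [e, hw.val_eig h' hx0 e1, hw.val_eig h' hy0 e2, hw.val_eig h' hz0 e3,
        hw.val_eig h' ht0 e4]
  have hvol := volLeF_dir hC.toIsCone hspan h1 hM.wt h' hw hW0 hWq hWp hf hq (hpos s h1 h2)
    hM.vpos hM.vol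
  exact (hM.min w _ _ hcen hld hvol).2

end Pool.Agent.Helper37.Q4
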