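import Pool.Agent.Helper37.Q4.DirW

/-!
# Project D4: counting by degrees
-/

set_option autoImplicit false

namespace Pool.Agent.Helper37.Q4

open Module Filter Topology Pool.Agent.Helper37.SD Pool.Agent.Helper88.D4

variable {K : Type} [Field K] [Algebra ℂ K] {R : Subalgebra ℂ K} {ξ : Derivation ℂ K K}
  {J : Bra K} {v w : RVal K}

/-- the inclusion of the elements of degree `c` -/
def inc (R : Subalgebra ℂ K) (ξ : Derivation ℂ K K) (c : ℝ) : eigR R ξ c →ₗ[ℂ] R :=
  LinearMap.codRestrict (Subalgebra.toSubmodule R) (eigR R ξ c).subtype (fun x => x.2.1)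

theorem inc_coe (c : ℝ) (y : eigR R ξ c) : ((inc R ξ c y : R) : K) = y := rfl

theorem finrank_biSup_le {M : Type} [AddCommGroup M] [Module ℂ M] [Module.Finite ℂ M]
    (C : Finset ℝ) (N : ℝ → Submodule ℂ M) :
    finrank ℂ (⨆ c ∈ C, N c : Submodule ℂ M) ≤ ∑ c ∈ C, finrank ℂ (N c) := by
  classical
  induction C using Finset.induction_on with
  | empty => simp
  | insert a C ha ih =>
    rw [Finset.sum_insert ha, Finset.iSup_insert]
    exact (Submodule.finrank_add_le_finrank_add_finrank _ _).trans (Nat.add_le_add_left ih _)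

theorem finrank_quot_le (h : IsCone R ξ) (G : Submodule ℂ R) (hfin : Module.Finite ℂ (R ⧸ G))
    (C : Finset ℝ) (hC : ∀ c ∉ C, ∀ y : eigR R ξ c, inc R ξ c y ∈ G) :
    finrank ℂ (R ⧸ G) ≤ ∑ c ∈ C, finrank ℂ (LinearMap.range (G.mkQ.comp (inc R ξ c))) := by
  classical
  refine le_trans ?_ (finrank_biSup_le C fun c => LinearMap.range (G.mkQ.comp (inc R ξ c)))
  have htop : (⨆ c ∈ C, LinearMap.range (G.mkQ.comp (inc R ξ c)) : Submodule ℂ (R ⧸ G)) = ⊤ := by
    rw [eq_top_iff]
    rintro y -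
    obtain ⟨x, rfl⟩ := G.mkQ_surjective y
    obtain ⟨F, hF⟩ := exists_dec (h.span x x.2)
    have e : x = ∑ c ∈ F.support, inc R ξ c ⟨F c, hF.mem c, hF.eig c⟩ := by
      refine Subtype.ext ?_
      rw [AddSubmonoidClass.coe_finsetSum]
      exact hF.sum.symm
    rw [e, map_sum]
    refine Submodule.sum_mem _ fun c _ => ?_
    by_cases hc : c ∈ C
    · exact Submodule.mem_iSup_of_mem c (Submodule.mem_iSup_of_mem hc ⟨_, rfl⟩)
    · have h1 : G.mkQ (inc R ξ c ⟨F c, hF.mem c, hF.eig c⟩) = 0 :=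
        (Submodule.Quotient.mk_eq_zero G).mpr (hC c hc _)
      rw [h1]
      exact Submodule.zero_mem _
  rw [htop]
  exact (_root_.finrank_top ℂ (R ⧸ G)).ge

theorem le_finrank_quot (h : IsCone R ξ) (hv : IsWt R ξ v) (x : ℝ) (C : Finset ℝ)
    (hC : ∀ c ∈ C, c < x) :
    ∑ c ∈ C, finrank ℂ (eigR R ξ c) ≤ finrank ℂ (R ⧸ idl R v x) := by
  classical
  have hfin := hv.finite_quot h x
  have hfe := fun c : ℝ => h.finite_eigR c
  let Θ : (∀ c : C, eigR R ξ (c : ℝ)) →ₗ[ℂ] R ⧸ idl R v x :=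
    (idl R v x).mkQ.comp (∑ c : C, (inc R ξ (c : ℝ)).comp (LinearMap.proj c))
  have hΘ : Function.Injective Θ := by
    rw [injective_iff_map_eq_zero]
    intro f hf
    have h1 : (∑ c : C, inc R ξ (c : ℝ) (f c)) ∈ idl R v x := by
      rw [← Submodule.Quotient.mk_eq_zero]
      have h2 : Θ f = (idl R v x).mkQ (∑ c : C, inc R ξ (c : ℝ) (f c)) := by
        show (idl R v x).mkQ ((∑ c : C, (inc R ξ (c : ℝ)).comp (LinearMap.proj c)) f) = _
        rw [LinearMap.sum_apply]
        rfl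
      rw [← hf, h2]
      rfl
    set F : ℝ →₀ K := Finsupp.onFinset C (fun c => if hc : c ∈ C then (f ⟨c, hc⟩ : K) else 0)
      (by
        intro c hc
        by_contra hcon
        exact hc (dif_neg hcon)) with hF
    have hFc : ∀ (c : ℝ) (hc : c ∈ C), F c = f ⟨c, hc⟩ := fun c hc => dif_pos hc
    have hsum : (F.sum fun _ z => z) = ((∑ c : C, inc R ξ (c : ℝ) (f c) : R) : K) := by
      rw [AddSubmonoidClass.coe_finsetSum, hF, Finsupp.onFinset_sum _ (fun _ => rfl),
        ← Finset.sum_coe_sort C]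
      refine Finset.sum_congr rfl fun c _ => ?_
      rw [dif_pos c.2]
      rfl
    have hD : IsDec (ξ : K →ₗ[ℂ] K) ⊤ (fun _ => True) F
        ((∑ c : C, inc R ξ (c : ℝ) (f c) : R) : K) := by
      refine ⟨fun c => ?_, fun _ => Submodule.mem_top, fun _ _ => trivial, hsum⟩
      by_cases hc : c ∈ C
      · rw [hFc c hc]
        exact (f ⟨c, hc⟩).2.2
      · have e : F c = 0 := dif_neg hc
        rw [e, map_zero, smul_zero]
    have hcomp : ∀ c (hc : c ∈ C), f ⟨c, hc⟩ = 0 := by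
      intro c hc
      by_contra hne
      have hne' : F c ≠ 0 := by
        rw [hFc c hc]
        exact fun h => hne (Subtype.ext h)
      by_cases hy0 : ((∑ c : C, inc R ξ (c : ℝ) (f c) : R) : K) = 0
      · have h2 : IsDec (ξ : K →ₗ[ℂ] K) ⊤ (fun _ => True) 0
            ((∑ c : C, inc R ξ (c : ℝ) (f c) : R) : K) :=
          ⟨fun b => by simp, fun b => Submodule.mem_top, fun _ _ => trivial, by
            rw [hy0]; simp⟩
        have h3 := hD.unique h2
        rw [h3] at hne'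
        exact hne' rfl
      · have h2 := (hv _ (∑ c : C, inc R ξ (c : ℝ) (f c) : R).2 hy0 x).mp (h1.resolve_left hy0)
        obtain ⟨G, hG⟩ := exists_dec h2
        have h3 := hD.unique hG
        rw [h3] at hne'
        exact absurd (hG.prop c hne') (not_le.mpr (hC c hc))
    funext c
    exact hcomp c c.2
  have h4 := LinearMap.finrank_le_finrank_of_injective hΘ
  rw [Module.finrank_pi_fintype] at h4
  rw [← Finset.sum_coe_sort C]
  exact h4

theorem finite_degrees (h : IsCone R ξ) (hv : IsWt R ξ v) (x : ℝ) :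
    {c : ℝ | c < x ∧ eigR R ξ c ≠ ⊥}.Finite := by
  by_contra hinf
  obtain ⟨C, hC, hcard⟩ := Set.Infinite.exists_subset_card_eq hinf
    (finrank ℂ (R ⧸ idl R v x) + 1)
  have h1 := le_finrank_quot h hv x C (fun c hc => (hC hc).1)
  have h2 : C.card ≤ ∑ c ∈ C, finrank ℂ (eigR R ξ c) := by
    rw [Finset.card_eq_sum_ones]
    refine Finset.sum_le_sum fun c hc => ?_
    have hfe := h.finite_eigR c
    have hne : Nontrivial (eigR R ξ c) := Submodule.nontrivial_iff_ne_bot.mpr (hC hc).2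
    exact Module.finrank_pos
  omega

/-- **counting by degrees** -/
theorem exists_degrees (h : IsCone R ξ) (hv : IsWt R ξ v) (n : ℝ) : ∃ C : Finset ℝ,
    (∀ c ∈ C, 0 ≤ c ∧ c < n ∧ eigR R ξ c ≠ ⊥) ∧ (∀ c < n, eigR R ξ c ≠ ⊥ → c ∈ C) ∧
      ∀ x ≤ n, finrank ℂ (R ⧸ idl R v x) =
        ∑ c ∈ C.filter (· < x), finrank ℂ (eigR R ξ c) := by
  classical
  have hfin := finite_degrees h hv n
  refine ⟨hfin.toFinset, fun c hc => ?_, fun c hc hne => ?_, fun x hx => le_antisymm ?_ ?_⟩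
  · obtain ⟨h1, h2⟩ := hfin.mem_toFinset.mp hc
    obtain ⟨y, hy, hy0⟩ := (Submodule.ne_bot_iff _).mp h2
    exact ⟨h.eig_nonneg hy.1 hy0 hy.2, h1, h2⟩
  · exact hfin.mem_toFinset.mpr ⟨hc, hne⟩
  · refine (finrank_quot_le h (idl R v x) (hv.finite_quot h x)
      (hfin.toFinset.filter (· < x)) ?_).trans ?_
    · intro c hc y
      by_cases hy0 : (y : K) = 0
      · exact Or.inl hy0
      · refine Or.inr ?_
        show x ≤ v.val (y : K)
        rw [hv.val_eig h hy0 y.2.2]
        by_contra hcon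
        rw [not_le] at hcon
        refine hc (Finset.mem_filter.mpr ⟨hfin.mem_toFinset.mpr ⟨hcon.trans_le hx, ?_⟩, hcon⟩)
        exact (Submodule.ne_bot_iff _).mpr ⟨y, y.2, hy0⟩
    · refine Finset.sum_le_sum fun c _ => ?_
      have hfe := h.finite_eigR c
      exact LinearMap.finrank_range_le _
  · exact le_finrank_quot h hv x _ (fun c hc => (Finset.mem_filter.mp hc).2)

end Pool.Agent.Helper37.Q4
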