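import Mathlib

/-!
# Growth of functions with a recursion (inequalities)
-/

set_option autoImplicit false

namespace Pool.Agent.Helper37.Q4

open Filter Topology MeasureTheory intervalIntegral

variable {N N' : ℝ → ℝ} {h : ℝ}

theorem upper_of_rec (hh : 0 < h) (hmono : Monotone N') (hneg : ∀ m ≤ 0, N m ≤ 0)
    (hN' : ∀ m, 0 ≤ N' m) (hrec : ∀ m, N m ≤ N (m - h) + N' m) :
    ∀ m, 0 ≤ m → h * N m ≤ (∫ t in (0 : ℝ)..m, N' t) + h * N' m := by
  have hint : ∀ a b : ℝ, IntervalIntegrable N' volume a b := fun a b =>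
    hmono.intervalIntegrable
  have key : ∀ (j : ℕ) (m : ℝ), 0 ≤ m → m ≤ j * h →
      h * N m ≤ (∫ t in (0 : ℝ)..m, N' t) + h * N' m := by
    intro j
    induction j with
    | zero =>
      intro m h0 hm
      have hm : m ≤ 0 := by simpa using hm
      have e : m = 0 := le_antisymm hm h0
      subst e
      rw [intervalIntegral.integral_same, zero_add]
      exact mul_le_mul_of_nonneg_left ((hneg 0 le_rfl).trans (hN' 0)) hh.le
    | succ j ih =>
      intro m h0 hm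
      rcases le_total (m - h) 0 with h1 | h1
      · have h2 : 0 ≤ ∫ t in (0 : ℝ)..m, N' t :=
          intervalIntegral.integral_nonneg h0 fun t _ => hN' t
        have h3 := hrec m
        have h4 := hneg _ h1
        nlinarith
      · have h2 := ih (m - h) h1 (by push_cast at hm; linarith)
        have h3 : (∫ t in (0 : ℝ)..m, N' t) = (∫ t in (0 : ℝ)..(m - h), N' t) +
            ∫ t in (m - h)..m, N' t :=
          (intervalIntegral.integral_add_adjacent_intervals (hint _ _) (hint _ _)).symm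
        have hle : m - h ≤ m := by linarith
        have h5 : h * N' (m - h) ≤ ∫ t in (m - h)..m, N' t := by
          have h4 : (∫ t in (m - h)..m, N' (m - h)) ≤ ∫ t in (m - h)..m, N' t :=
            intervalIntegral.integral_mono_on hle _root_.intervalIntegrable_const (hint _ _)
              fun t ht => hmono ht.1
          rw [intervalIntegral.integral_const, smul_eq_mul] at h4
          have e : m - (m - h) = h := by ring
          rwa [e] at h4
        have h6 := hrec m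
        rw [h3]
        nlinarith
  intro m h0
  obtain ⟨j, hj⟩ := exists_nat_gt (m / h)
  rw [div_lt_iff₀ hh] at hj
  exact key j m h0 hj.le

theorem lower_of_rec (hh : 0 < h) (hmono : Monotone N') (hN : ∀ m, 0 ≤ N m)
    (hrec : ∀ m, N (m - h) + N' m ≤ N m) :
    ∀ m, 0 ≤ m → (∫ t in (0 : ℝ)..m, N' t) ≤ h * N m := by
  have hint : ∀ a b : ℝ, IntervalIntegrable N' volume a b := fun a b =>
    hmono.intervalIntegrable
  have hup : ∀ a b : ℝ, a ≤ b → (∫ t in a..b, N' t) ≤ (b - a) * N' b := by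
    intro a b hab
    have h4 : (∫ t in a..b, N' t) ≤ ∫ t in a..b, N' b :=
      intervalIntegral.integral_mono_on hab (hint _ _) _root_.intervalIntegrable_const
        fun t ht => hmono ht.2
    rwa [intervalIntegral.integral_const, smul_eq_mul] at h4
  have key : ∀ (j : ℕ) (m : ℝ), 0 ≤ m → m ≤ j * h → (∫ t in (0 : ℝ)..m, N' t) ≤ h * N m := by
    intro j
    induction j with
    | zero =>
      intro m h0 hm
      have hm : m ≤ 0 := by simpa using hm
      have e : m = 0 := le_antisymm hm h0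
      subst e
      rw [intervalIntegral.integral_same]
      exact mul_nonneg hh.le (hN 0)
    | succ j ih =>
      intro m h0 hm
      rcases le_total (m - h) 0 with h1 | h1
      · have h2 := hup 0 m h0
        rw [sub_zero] at h2
        have h3 := hrec m
        have h4 := hN (m - h)
        rcases le_total 0 (N' m) with h5 | h5
        · have h6 : m * N' m ≤ h * N' m := mul_le_mul_of_nonneg_right (by linarith) h5
          nlinarith
        · have h6 : m * N' m ≤ 0 := mul_nonpos_of_nonneg_of_nonpos h0 h5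
          have h7 := mul_nonneg hh.le (hN m)
          linarith
      · have h2 := ih (m - h) h1 (by push_cast at hm; linarith)
        have h3 : (∫ t in (0 : ℝ)..m, N' t) = (∫ t in (0 : ℝ)..(m - h), N' t) +
            ∫ t in (m - h)..m, N' t :=
          (intervalIntegral.integral_add_adjacent_intervals (hint _ _) (hint _ _)).symm
        have h5 := hup (m - h) m (by linarith)
        have e : m - (m - h) = h := by ring
        rw [e] at h5
        have h6 := hrec m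
        rw [h3]
        nlinarith
  intro m h0
  obtain ⟨j, hj⟩ := exists_nat_gt (m / h)
  rw [div_lt_iff₀ hh] at hj
  exact key j m h0 hj.le

/-- the integral of a shift -/
theorem integral_shift_le (hmono : Monotone N') {c : ℝ} (hc : 0 ≤ c)
    (hN' : ∀ m, 0 ≤ N' m) {m : ℝ} (hm : 0 ≤ m) :
    (∫ t in (0 : ℝ)..m, N' (t + c)) ≤ (∫ t in (0 : ℝ)..m, N' t) + c * N' (m + c) := by
  have hint : ∀ a b : ℝ, IntervalIntegrable N' volume a b := fun a b =>
    hmono.intervalIntegrable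
  rw [intervalIntegral.integral_comp_add_right, zero_add]
  have h1 : (∫ t in (0 : ℝ)..(m + c), N' t) = (∫ t in (0 : ℝ)..c, N' t) +
      ∫ t in c..(m + c), N' t :=
    (intervalIntegral.integral_add_adjacent_intervals (hint _ _) (hint _ _)).symm
  have h2 : (∫ t in (0 : ℝ)..(m + c), N' t) = (∫ t in (0 : ℝ)..m, N' t) +
      ∫ t in m..(m + c), N' t :=
    (intervalIntegral.integral_add_adjacent_intervals (hint _ _) (hint _ _)).symm
  have h3 : 0 ≤ ∫ t in (0 : ℝ)..c, N' t :=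
    intervalIntegral.integral_nonneg hc fun t _ => hN' t
  have h4 : (∫ t in m..(m + c), N' t) ≤ ∫ t in m..(m + c), N' (m + c) :=
    intervalIntegral.integral_mono_on (by linarith) (hint _ _) _root_.intervalIntegrable_const
      fun t ht => hmono ht.2
  rw [intervalIntegral.integral_const, smul_eq_mul] at h4
  have e : m + c - m = c := by ring
  rw [e] at h4
  linarith

theorem tendsto_shift {N₁ : ℝ → ℝ} {d : ℕ} {V : ℝ} (hmono₁ : Monotone N₁)
    (hV : Tendsto (fun m : ℕ => N₁ m / (m : ℝ) ^ d) atTop (𝓝 V)) (c : ℝ) :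
    Tendsto (fun m : ℕ => N₁ ((m : ℝ) + c) / (m : ℝ) ^ d) atTop (𝓝 V) := by
  obtain ⟨p, hp⟩ := exists_nat_ge |c|
  have hup : Tendsto (fun m : ℕ => N₁ ((m : ℝ) + p) / (m : ℝ) ^ d) atTop (𝓝 V) := by
    have h1 : Tendsto (fun m : ℕ => (N₁ ((m + p : ℕ) : ℝ) / ((m + p : ℕ) : ℝ) ^ d) *
        (((m : ℝ) + p) / (m : ℝ)) ^ d) atTop (𝓝 (V * 1 ^ d)) := by
      refine ((tendsto_add_atTop_iff_nat p).mpr hV).mul (Tendsto.pow ?_ d)
      have h2 : Tendsto (fun m : ℕ => 1 + (p : ℝ) / (m : ℝ)) atTop (𝓝 (1 + 0)) :=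
        tendsto_const_nhds.add (Tendsto.div_atTop tendsto_const_nhds tendsto_natCast_atTop_atTop)
      rw [add_zero] at h2
      refine h2.congr' ?_
      filter_upwards [eventually_gt_atTop 0] with m hm
      have : (0 : ℝ) < m := by exact_mod_cast hm
      field_simp
    rw [one_pow, mul_one] at h1
    refine h1.congr' ?_
    filter_upwards [eventually_gt_atTop 0] with m hm
    have hm' : (0 : ℝ) < m := by exact_mod_cast hm
    rw [div_pow]
    push_cast
    have h3 : ((m : ℝ) + p) ^ d ≠ 0 := by positivity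
    have h4 : (m : ℝ) ^ d ≠ 0 := by positivity
    field_simp
  have hlo : Tendsto (fun m : ℕ => N₁ ((m : ℝ) - p) / (m : ℝ) ^ d) atTop (𝓝 V) := by
    rw [← tendsto_add_atTop_iff_nat p]
    have h1 : Tendsto (fun m : ℕ => (N₁ m / (m : ℝ) ^ d) *
        ((m : ℝ) / ((m : ℝ) + p)) ^ d) atTop (𝓝 (V * 1 ^ d)) := by
      refine hV.mul (Tendsto.pow ?_ d)
      have h2 : Tendsto (fun m : ℕ => 1 - (p : ℝ) / ((m : ℝ) + p)) atTop (𝓝 (1 - 0)) := by
        refine tendsto_const_nhds.sub (Tendsto.div_atTop tendsto_const_nhds ?_)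
        exact tendsto_atTop_add_const_right _ _ tendsto_natCast_atTop_atTop
      rw [sub_zero] at h2
      refine h2.congr' ?_
      filter_upwards [eventually_gt_atTop 0] with m hm
      have : (0 : ℝ) < m := by exact_mod_cast hm
      have h3 : (m : ℝ) + p ≠ 0 := by positivity
      field_simp
      ring
    rw [one_pow, mul_one] at h1
    refine h1.congr' ?_
    filter_upwards [eventually_gt_atTop 0] with m hm
    have hm' : (0 : ℝ) < m := by exact_mod_cast hm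
    have e : ((m + p : ℕ) : ℝ) - p = m := by push_cast; ring
    have e2 : ((m + p : ℕ) : ℝ) = m + p := by push_cast; ring
    rw [e, e2, div_pow]
    have h3 : ((m : ℝ) + p) ^ d ≠ 0 := by positivity
    have h4 : (m : ℝ) ^ d ≠ 0 := by positivity
    field_simp
  refine tendsto_of_tendsto_of_tendsto_of_le_of_le hlo hup (fun m => ?_) (fun m => ?_)
  · refine div_le_div_of_nonneg_right (hmono₁ ?_) (by positivity)
    have := neg_abs_le c
    linarith
  · refine div_le_div_of_nonneg_right (hmono₁ ?_) (by positivity)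
    have := le_abs_self c
    linarith

/-- the differences are small -/
theorem tendsto_diff {N₁ : ℝ → ℝ} {d : ℕ} {V : ℝ} (hmono₁ : Monotone N₁)
    (hN' : ∀ m, 0 ≤ N' m) (hrec₁ : ∀ m, N₁ (m - h) + N' m ≤ N₁ m)
    (hV : Tendsto (fun m : ℕ => N₁ m / (m : ℝ) ^ d) atTop (𝓝 V)) (c : ℝ) :
    Tendsto (fun m : ℕ => N' ((m : ℝ) + c) / (m : ℝ) ^ d) atTop (𝓝 0) := by
  have h1 := (tendsto_shift hmono₁ hV c).sub (tendsto_shift hmono₁ hV (c - h))
  rw [sub_self] at h1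
  refine squeeze_zero (fun m => div_nonneg (hN' _) (by positivity)) (fun m => ?_) h1
  rw [← sub_div]
  refine div_le_div_of_nonneg_right ?_ (by positivity)
  have h2 := hrec₁ ((m : ℝ) + c)
  have e : (m : ℝ) + c - h = (m : ℝ) + (c - h) := by ring
  rw [e] at h2
  linarith

/-- **growth comparison with inequalities** -/
theorem growth_le {N₁ N₂ N' : ℝ → ℝ} {h₁ h₂ c : ℝ} (hh₁ : 0 < h₁) (hh₂ : 0 < h₂) (hc : 0 ≤ c)
    (hmono : Monotone N') (hmono₁ : Monotone N₁) (hN₁ : ∀ m, 0 ≤ N₁ m)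
    (hneg₂ : ∀ m ≤ 0, N₂ m ≤ 0) (hN' : ∀ m, 0 ≤ N' m)
    (hrec₁ : ∀ m, N₁ (m - h₁) + N' m ≤ N₁ m)
    (hrec₂ : ∀ m, N₂ m ≤ N₂ (m - h₂) + N' (m + c)) (d : ℕ) {V : ℝ}
    (hV : Tendsto (fun m : ℕ => N₁ m / (m : ℝ) ^ d) atTop (𝓝 V)) :
    ∀ ε > 0, ∀ᶠ m : ℕ in atTop, N₂ m / (m : ℝ) ^ d ≤ V * h₁ / h₂ + ε := by
  intro ε hε
  have h1 : Tendsto (fun m : ℕ => (h₁ * (N₁ m / (m : ℝ) ^ d) +
      (c + h₂) * (N' ((m : ℝ) + c) / (m : ℝ) ^ d)) / h₂) atTop
      (𝓝 ((h₁ * V + (c + h₂) * 0) / h₂)) :=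
    ((hV.const_mul h₁).add ((tendsto_diff hmono₁ hN' hrec₁ hV c).const_mul (c + h₂))).div_const h₂
  have e : (h₁ * V + (c + h₂) * 0) / h₂ = V * h₁ / h₂ := by ring
  rw [e] at h1
  have h2 := h1.eventually_lt_const (u := V * h₁ / h₂ + ε) (by linarith)
  filter_upwards [h2] with m hm
  refine le_trans ?_ hm.le
  have a := upper_of_rec (N := N₂) (N' := fun t => N' (t + c)) hh₂
    (fun x y hxy => hmono (by linarith)) hneg₂ (fun m => hN' _) hrec₂ m (Nat.cast_nonneg m)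
  have b := lower_of_rec hh₁ hmono hN₁ hrec₁ m (Nat.cast_nonneg m)
  have f := integral_shift_le hmono hc hN' (Nat.cast_nonneg (α := ℝ) m)
  rw [le_div_iff₀ hh₂]
  have e2 : h₁ * (N₁ m / (m : ℝ) ^ d) + (c + h₂) * (N' ((m : ℝ) + c) / (m : ℝ) ^ d) =
      (h₁ * N₁ m + (c + h₂) * N' ((m : ℝ) + c)) / (m : ℝ) ^ d := by ring
  rw [e2, div_mul_eq_mul_div]
  refine div_le_div_of_nonneg_right ?_ (by positivity)
  have a' : h₂ * N₂ m ≤ (∫ t in (0 : ℝ)..m, N' (t + c)) + h₂ * N' ((m : ℝ) + c) := a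
  linarith

/-- **two steps** -/
theorem growth_le_two {N₁ M₁ N₂ M₂ L : ℝ → ℝ} {h₁ h₂ : ℝ} (hh₁ : 0 < h₁) (hh₂ : 0 < h₂)
    (hmonoL : Monotone L) (hmonoM : Monotone M₁) (hmono₁ : Monotone N₁)
    (hN₁ : ∀ m, 0 ≤ N₁ m) (hM₁ : ∀ m, 0 ≤ M₁ m) (hL : ∀ m, 0 ≤ L m)
    (hneg₂ : ∀ m ≤ 0, N₂ m ≤ 0) (hnegM₂ : ∀ m ≤ 0, M₂ m ≤ 0)
    (hrec₁ : ∀ m, N₁ (m - h₁) + M₁ m ≤ N₁ m) (hrecM₁ : ∀ m, M₁ (m - h₁) + L m ≤ M₁ m)
    (hrec₂ : ∀ m, N₂ m ≤ N₂ (m - h₂) + M₂ m) (hrecM₂ : ∀ m, M₂ m ≤ M₂ (m - h₂) + L m)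
    (d : ℕ) {V : ℝ} (hV : Tendsto (fun m : ℕ => N₁ m / (m : ℝ) ^ d) atTop (𝓝 V)) :
    ∀ ε > 0, ∀ᶠ m : ℕ in atTop, N₂ m / (m : ℝ) ^ d ≤ V * (h₁ / h₂) ^ 2 + ε := by
  intro ε hε
  -- `M₂ m ≤ (h₁ / h₂) M₁ m + L m`
  have hM : ∀ m, 0 ≤ m → h₂ * M₂ m ≤ h₁ * M₁ m + h₂ * L m := by
    intro m hm
    have a := upper_of_rec hh₂ hmonoL hnegM₂ hL hrecM₂ m hm
    have b := lower_of_rec hh₁ hmonoL hM₁ hrecM₁ m hm
    linarith
  set Q : ℝ → ℝ := fun m => h₁ / h₂ * M₁ m + L m with hQ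
  have hQmono : Monotone Q := fun x y hxy => by
    have e1 := hmonoM hxy
    have e2 := hmonoL hxy
    have e3 : 0 ≤ h₁ / h₂ := by positivity
    show h₁ / h₂ * M₁ x + L x ≤ h₁ / h₂ * M₁ y + L y
    nlinarith
  have hQ0 : ∀ m, 0 ≤ Q m := fun m => by
    have e1 := hM₁ m
    have e2 := hL m
    have e3 : 0 ≤ h₁ / h₂ := by positivity
    show 0 ≤ h₁ / h₂ * M₁ m + L m
    positivity
  have hMQ : ∀ m, M₂ m ≤ Q m := by
    intro m
    rcases le_total 0 m with h0 | h0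
    · have e1 := hM m h0
      show M₂ m ≤ h₁ / h₂ * M₁ m + L m
      have e2 : h₁ / h₂ * M₁ m + L m = (h₁ * M₁ m + h₂ * L m) / h₂ := by
        field_simp
      rw [e2, le_div_iff₀ hh₂]
      linarith
    · exact (hnegM₂ m h0).trans (hQ0 m)
  have hrecQ : ∀ m, N₂ m ≤ N₂ (m - h₂) + Q m := fun m => by
    have e1 := hrec₂ m
    have e2 := hMQ m
    linarith
  have hM0 := tendsto_diff hmono₁ hM₁ hrec₁ hV 0
  have hL0 : Tendsto (fun m : ℕ => L ((m : ℝ) + 0) / (m : ℝ) ^ d) atTop (𝓝 0) := by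
    refine squeeze_zero (fun m => div_nonneg (hL _) (by positivity)) (fun m => ?_) hM0
    refine div_le_div_of_nonneg_right ?_ (by positivity)
    have e1 := hrecM₁ ((m : ℝ) + 0)
    have e2 := hM₁ ((m : ℝ) + 0 - h₁)
    linarith
  simp only [add_zero] at hM0 hL0
  have h1 : Tendsto (fun m : ℕ => ((h₁ / h₂ * h₁) * (N₁ m / (m : ℝ) ^ d) +
      (h₁ + h₂ * (h₁ / h₂)) * (M₁ m / (m : ℝ) ^ d) + h₂ * (L m / (m : ℝ) ^ d)) / h₂) atTop
      (𝓝 (((h₁ / h₂ * h₁) * V + (h₁ + h₂ * (h₁ / h₂)) * 0 + h₂ * 0) / h₂)) :=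
    (((hV.const_mul _).add (hM0.const_mul _)).add (hL0.const_mul _)).div_const h₂
  have e : ((h₁ / h₂ * h₁) * V + (h₁ + h₂ * (h₁ / h₂)) * 0 + h₂ * 0) / h₂ =
      V * (h₁ / h₂) ^ 2 := by
    field_simp
    ring
  rw [e] at h1
  have h2 := h1.eventually_lt_const (u := V * (h₁ / h₂) ^ 2 + ε) (by linarith)
  filter_upwards [h2] with m hm
  refine le_trans ?_ hm.le
  have hm0 : (0 : ℝ) ≤ m := Nat.cast_nonneg m
  have a := upper_of_rec hh₂ hQmono hneg₂ hQ0 hrecQ m hm0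
  have hintM : IntervalIntegrable M₁ volume 0 (m : ℝ) := hmonoM.intervalIntegrable
  have hintL : IntervalIntegrable L volume 0 (m : ℝ) := hmonoL.intervalIntegrable
  have e1 : (∫ t in (0 : ℝ)..m, Q t) = h₁ / h₂ * (∫ t in (0 : ℝ)..m, M₁ t) +
      ∫ t in (0 : ℝ)..m, L t := by
    rw [hQ, intervalIntegral.integral_add (hintM.const_mul _) hintL,
      intervalIntegral.integral_const_mul]
  have b := lower_of_rec hh₁ hmonoM hN₁ hrec₁ m hm0
  have b' := lower_of_rec hh₁ hmonoL hM₁ hrecM₁ m hm0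
  have e3 : 0 ≤ h₁ / h₂ := by positivity
  have e4 : h₁ / h₂ * (∫ t in (0 : ℝ)..m, M₁ t) ≤ h₁ / h₂ * (h₁ * N₁ m) :=
    mul_le_mul_of_nonneg_left b e3
  have e5 : h₂ * N₂ m ≤ (h₁ / h₂ * h₁) * N₁ m + (h₁ + h₂ * (h₁ / h₂)) * M₁ m + h₂ * L m := by
    have a' : h₂ * N₂ m ≤ (∫ t in (0 : ℝ)..m, Q t) + h₂ * (h₁ / h₂ * M₁ m + L m) := a
    rw [e1] at a'
    nlinarith
  rw [le_div_iff₀ hh₂]
  have e6 : (h₁ / h₂ * h₁) * (N₁ m / (m : ℝ) ^ d) +
      (h₁ + h₂ * (h₁ / h₂)) * (M₁ m / (m : ℝ) ^ d) + h₂ * (L m / (m : ℝ) ^ d) =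
      ((h₁ / h₂ * h₁) * N₁ m + (h₁ + h₂ * (h₁ / h₂)) * M₁ m + h₂ * L m) / (m : ℝ) ^ d := by
    ring
  rw [e6, div_mul_eq_mul_div]
  refine div_le_div_of_nonneg_right ?_ (by positivity)
  linarith

end Pool.Agent.Helper37.Q4
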