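import Pool.Agent.Helper37.Q4.VT
import Pool.Agent.Helper37.SD.Slice

/-!
# Project D4, package V: a torus direction
-/

set_option autoImplicit false

namespace Pool.Agent.Helper37.Q4

open Module Filter Topology Pool.Agent.Helper37.SD Pool.Agent.Helper88.D4

variable {K : Type} [Field K] [Algebra ℂ K] {R : Subalgebra ℂ K} {ξ H : Derivation ℂ K K}

/-- the span of the joint eigenvectors -/
def JH (R : Subalgebra ℂ K) (ξ H : Derivation ℂ K K) (Q : ℝ → ℕ → Prop) : Submodule ℂ K :=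
  Submodule.span ℂ {y | y ∈ R ∧ ∃ (c : ℝ) (i : ℕ), Q c i ∧ ξ y = (c : ℂ) • y ∧ H y = (i : ℂ) • y}

theorem mem_jh {Q : ℝ → ℕ → Prop} {y : K} (hy : y ∈ R) {c : ℝ} {i : ℕ} (hQ : Q c i)
    (hc : ξ y = (c : ℂ) • y) (hi : H y = (i : ℂ) • y) : y ∈ JH R ξ H Q :=
  Submodule.subset_span ⟨hy, c, i, hQ, hc, hi⟩

theorem jh_mono {Q Q' : ℝ → ℕ → Prop} (h : ∀ c i, Q c i → Q' c i) : JH R ξ H Q ≤ JH R ξ H Q' :=
  Submodule.span_mono fun _ hy => by
    obtain ⟨h1, c, i, h2, h3⟩ := hy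
    exact ⟨h1, c, i, h c i h2, h3⟩

theorem jh_le {Q : ℝ → ℕ → Prop} : JH R ξ H Q ≤ RS R :=
  Submodule.span_le.mpr fun _ hy => hy.1

/-- decomposition for `ξ` -/
theorem jh_dec {Q : ℝ → ℕ → Prop} {z : K} (hz : z ∈ JH R ξ H Q) :
    ∃ F : ℝ →₀ K, IsDec (ξ : K →ₗ[ℂ] K) ⊤ (fun _ => True) F z ∧
      ∀ c, F c ∈ JH R ξ H (fun c' i => c' = c ∧ Q c' i) := by
  classical
  induction hz using Submodule.span_induction with
  | mem y hy =>
    obtain ⟨hyR, c, i, hQ, hc, hi⟩ := hy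
    have h1 := isDec_single (A := (ξ : K →ₗ[ℂ] K)) hc
    refine ⟨Finsupp.single c y, ⟨h1.eig, fun _ => Submodule.mem_top, fun _ _ => trivial, h1.sum⟩,
      fun b => ?_⟩
    by_cases hb : c = b
    · subst hb
      rw [Finsupp.single_eq_same]
      exact mem_jh hyR ⟨rfl, hQ⟩ hc hi
    · rw [Finsupp.single_eq_of_ne (Ne.symm hb)]
      exact Submodule.zero_mem _
  | zero =>
    exact ⟨0, ⟨fun b => by simp, fun b => Submodule.mem_top, fun _ _ => trivial, by simp⟩,
      fun c => Submodule.zero_mem _⟩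
  | add x y _ _ hx hy =>
    obtain ⟨F, hF, hF'⟩ := hx
    obtain ⟨G, hG, hG'⟩ := hy
    refine ⟨F + G, ⟨fun c => ?_, fun _ => Submodule.mem_top, fun _ _ => trivial, ?_⟩,
      fun c => ?_⟩
    · rw [Finsupp.add_apply, map_add, hF.eig, hG.eig, smul_add]
    · rw [Finsupp.sum_add_index' (fun _ => rfl) (fun _ _ _ => rfl), hF.sum, hG.sum]
    · rw [Finsupp.add_apply]
      exact Submodule.add_mem _ (hF' c) (hG' c)
  | smul t x _ hx =>
    obtain ⟨F, hF, hF'⟩ := hx
    refine ⟨t • F, ⟨fun c => ?_, fun _ => Submodule.mem_top, fun _ _ => trivial, ?_⟩,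
      fun c => ?_⟩
    · rw [Finsupp.smul_apply, map_smul, hF.eig, smul_comm]
    · rw [Finsupp.sum_smul_index' (fun _ => rfl), ← Finsupp.smul_sum, hF.sum]
    · rw [Finsupp.smul_apply]
      exact Submodule.smul_mem _ t (hF' c)

theorem jh_comp {Q : ℝ → ℕ → Prop} {x : K} (hx : x ∈ JH R ξ H Q) {c : ℝ}
    (hc : ξ x = (c : ℂ) • x) : x ∈ JH R ξ H (fun c' i => c' = c ∧ Q c' i) := by
  obtain ⟨F, hF, hF'⟩ := jh_dec hx
  have h1 := hF.unique (isDec_single (A := (ξ : K →ₗ[ℂ] K)) hc)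
  have h2 := hF' c
  rwa [h1, Finsupp.single_eq_same] at h2

/-- a joint eigenvector in the span satisfies the condition -/
theorem prop_of_mem_jh {Q : ℝ → ℕ → Prop} {x : K} (hx0 : x ≠ 0) (hx : x ∈ JH R ξ H Q) {c : ℝ}
    {i : ℕ} (hc : ξ x = (c : ℂ) • x) (hi : H x = (i : ℂ) • x) : Q c i := by
  have h1 := jh_comp hx hc
  have h2 : JH R ξ H (fun c' i => c' = c ∧ Q c' i) ≤
      Hsp (H : K →ₗ[ℂ] K) ⊤ (fun r => ∃ n : ℕ, r = n ∧ Q c n) := by
    refine Submodule.span_le.mpr ?_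
    rintro y ⟨_, c', n, ⟨rfl, hQ⟩, _, hn⟩
    refine mem_hsp (c := (n : ℝ)) Submodule.mem_top ⟨n, rfl, hQ⟩ ?_
    have e : (((n : ℝ) : ℂ)) = (n : ℂ) := by push_cast; rfl
    rw [e]
    exact hn
  have e : (((i : ℝ) : ℂ)) = (i : ℂ) := by push_cast; rfl
  obtain ⟨n, hn, hQ⟩ := prop_of_mem_hsp (A := (H : K →ₗ[ℂ] K)) (a := (i : ℝ)) hx0
    (by rw [e]; exact hi) (h2 h1)
  have h3 : i = n := by exact_mod_cast hn
  rw [h3]
  exact hQ

theorem jh_mul {Q Q' Q'' : ℝ → ℕ → Prop}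
    (hQ : ∀ c i c' i', Q c i → Q' c' i' → Q'' (c + c') (i + i')) {x y : K}
    (hx : x ∈ JH R ξ H Q) (hy : y ∈ JH R ξ H Q') : x * y ∈ JH R ξ H Q'' := by
  induction hx using Submodule.span_induction with
  | mem x hx =>
    obtain ⟨hxR, c, i, hq, hxc, hxi⟩ := hx
    induction hy using Submodule.span_induction with
    | mem y hy =>
      obtain ⟨hyR, c', i', hq', hyc, hyi⟩ := hy
      refine mem_jh (R.mul_mem hxR hyR) (hQ c i c' i' hq hq') (eig_mul hxc hyc) ?_
      rw [Derivation.leibniz, hxi, hyi]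
      push_cast
      rw [smul_eq_mul, smul_eq_mul, mul_smul_comm, mul_smul_comm, mul_comm y x, add_smul, add_comm]
    | zero => rw [mul_zero]; exact Submodule.zero_mem _
    | add y y' _ _ h h' => rw [mul_add]; exact Submodule.add_mem _ h h'
    | smul z y _ h => rw [mul_smul_comm]; exact Submodule.smul_mem _ z h
  | zero => rw [zero_mul]; exact Submodule.zero_mem _
  | add x x' _ _ h h' => rw [add_mul]; exact Submodule.add_mem _ h h'
  | smul z x _ h => rw [smul_mul_assoc]; exact Submodule.smul_mem _ z h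

/-- refinement of homogeneous components -/
theorem jh_refine (hspan : ∀ x ∈ R, x ∈ JH R ξ H (fun _ _ => True)) {P : ℝ → Prop} {x : K}
    (hx : x ∈ RH R ξ P) : x ∈ JH R ξ H (fun c _ => P c) := by
  induction hx using Submodule.span_induction with
  | mem y hy =>
    obtain ⟨hyR, c, hP, hc⟩ := hy
    refine jh_mono ?_ (jh_comp (hspan y hyR) hc)
    rintro c' i ⟨rfl, _⟩
    exact hP
  | zero => exact Submodule.zero_mem _
  | add x y _ _ hx hy => exact Submodule.add_mem _ hx hy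
  | smul z x _ hx => exact Submodule.smul_mem _ z hx

/-- linear bound for the weights -/
theorem exists_bound (h : IsCone R ξ) (hspan : ∀ x ∈ R, x ∈ JH R ξ H (fun _ _ => True)) :
    ∃ C : ℝ, 0 < C ∧ ∀ x ∈ R, x ∈ JH R ξ H (fun c i => 0 ≤ c ∧ (i : ℝ) ≤ C * c) := by
  classical
  have h1 : ∀ x : K, x ∈ JH R ξ H (fun _ _ => True) → ∃ C₀ : ℝ, ∀ C ≥ C₀,
      x ∈ JH R ξ H (fun c i => 0 ≤ c ∧ (i : ℝ) ≤ C * c) := by
    intro x hx
    induction hx using Submodule.span_induction with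
    | mem y hy =>
      obtain ⟨hyR, c, i, _, hc, hi⟩ := hy
      by_cases hy0 : y = 0
      · exact ⟨0, fun C _ => by rw [hy0]; exact Submodule.zero_mem _⟩
      · have hc0 := h.eig_nonneg hyR hy0 hc
        rcases lt_or_eq_of_le hc0 with h2 | h2
        · refine ⟨i / c, fun C hC => mem_jh hyR ⟨hc0, ?_⟩ hc hi⟩
          rw [ge_iff_le, div_le_iff₀ h2] at hC
          exact hC
        · refine ⟨0, fun C _ => mem_jh hyR ⟨hc0, ?_⟩ hc hi⟩
          obtain ⟨z, hz⟩ := h.const y hyR (by rw [hc, ← h2]; simp)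
          have h3 : H y = 0 := by rw [hz, Derivation.map_algebraMap]
          rw [h3] at hi
          have h4 : (i : ℂ) = 0 := (smul_eq_zero.mp hi.symm).resolve_right hy0
          have h5 : i = 0 := by exact_mod_cast h4
          rw [h5, ← h2]
          simp
    | zero => exact ⟨0, fun C _ => Submodule.zero_mem _⟩
    | add x y _ _ hx hy =>
      obtain ⟨A, hA⟩ := hx
      obtain ⟨B, hB⟩ := hy
      exact ⟨max A B, fun C hC => Submodule.add_mem _ (hA C ((le_max_left _ _).trans hC))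
        (hB C ((le_max_right _ _).trans hC))⟩
    | smul z x _ hx =>
      obtain ⟨A, hA⟩ := hx
      exact ⟨A, fun C hC => Submodule.smul_mem _ z (hA C hC)⟩
  obtain ⟨T, hT⟩ := h.fg
  have hTR : ∀ t ∈ T, t ∈ R := fun t ht => by
    rw [← hT]
    exact Algebra.subset_adjoin ht
  have h2 : ∀ S : Finset K, S ⊆ T → ∃ C₀ : ℝ, ∀ C ≥ C₀, ∀ t ∈ S,
      t ∈ JH R ξ H (fun c i => 0 ≤ c ∧ (i : ℝ) ≤ C * c) := by
    intro S
    induction S using Finset.induction_on with
    | empty => exact fun _ => ⟨0, fun C _ t ht => absurd ht (Finset.notMem_empty t)⟩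
    | insert t S _ ih =>
      intro hS
      obtain ⟨A, hA⟩ := ih ((Finset.subset_insert t S).trans hS)
      obtain ⟨B, hB⟩ := h1 t (hspan t (hTR t (hS (Finset.mem_insert_self t S))))
      refine ⟨max A B, fun C hC x hx => ?_⟩
      rcases Finset.mem_insert.mp hx with rfl | hx
      · exact hB C ((le_max_right _ _).trans hC)
      · exact hA C ((le_max_left _ _).trans hC) x hx
  obtain ⟨C₀, hC₀⟩ := h2 T (Finset.Subset.refl T)
  refine ⟨max C₀ 1, by positivity, fun x hx => ?_⟩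
  have hC := hC₀ (max C₀ 1) (le_max_left _ _)
  let S : Subalgebra ℂ K :=
    { carrier := {x | x ∈ JH R ξ H (fun c i => 0 ≤ c ∧ (i : ℝ) ≤ max C₀ 1 * c)}
      mul_mem' := fun hx hy => jh_mul (fun c i c' i' h h' => by
        refine ⟨add_nonneg h.1 h'.1, ?_⟩
        push_cast
        have h1 := h.2
        have h2 := h'.2
        linarith) hx hy
      add_mem' := fun hx hy =>
        (JH R ξ H (fun c i => 0 ≤ c ∧ (i : ℝ) ≤ max C₀ 1 * c)).add_mem hx hy
      algebraMap_mem' := fun z => mem_jh (R.algebraMap_mem z) (c := 0) (i := 0)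
        ⟨le_rfl, by simp⟩ (by rw [Derivation.map_algebraMap]; simp)
        (by rw [Derivation.map_algebraMap]; simp) }
  have h3 : Algebra.adjoin ℂ (T : Set K) ≤ S := Algebra.adjoin_le fun t ht => hC t ht
  rw [hT] at h3
  exact h3 hx

/-- the span of the joint eigenvectors for a combination -/
theorem jh_le_rh {s : ℝ} {Q : ℝ → ℕ → Prop} {P : ℝ → Prop} (hQP : ∀ c i, Q c i → P (c - s * i)) :
    JH R ξ H Q ≤ RH R (ξ - (s : ℂ) • H) P := by
  refine Submodule.span_le.mpr ?_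
  rintro y ⟨hyR, c, i, hQ, hc, hi⟩
  refine mem_hsp hyR (hQP c i hQ) ?_
  show (ξ - (s : ℂ) • H) y = _
  rw [Derivation.sub_apply, Derivation.smul_apply, hc, hi, smul_smul, ← sub_smul]
  push_cast
  rfl

theorem cone_dir (h : IsCone R ξ) {C : ℝ}
    (hC : ∀ x ∈ R, x ∈ JH R ξ H (fun c i => 0 ≤ c ∧ (i : ℝ) ≤ C * c)) {s : ℝ} (hs : 0 < s)
    (hsC : s * C < 1) : IsCone R (ξ - (s : ℂ) • H) := by
  have hnum : ∀ (c : ℝ) (i : ℕ), 0 ≤ c ∧ (i : ℝ) ≤ C * c → (1 - s * C) * c ≤ c - s * i := by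
    intro c i hci
    have h1 := mul_le_mul_of_nonneg_left hci.2 hs.le
    linarith
  have hsC' : 0 < 1 - s * C := by linarith
  refine ⟨h.frac, h.fg, fun x hx => ?_, fun x hx hx0 => ?_⟩
  · refine jh_le_rh (fun c i hci => ?_) (hC x hx)
    exact (mul_nonneg hsC'.le hci.1).trans (hnum c i hci)
  · -- `x = z + y`, `z` of degree `0`
    have h1 : ∀ x : K, x ∈ JH R ξ H (fun c i => 0 ≤ c ∧ (i : ℝ) ≤ C * c) →
        ∃ (z : ℂ) (y : K), x = algebraMap ℂ K z + y ∧
          y ∈ RH R (ξ - (s : ℂ) • H) (fun c => 0 < c) := by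
      intro x hx
      induction hx using Submodule.span_induction with
      | mem y hy =>
        obtain ⟨hyR, c, i, hci, hc, hi⟩ := hy
        rcases lt_or_eq_of_le hci.1 with h2 | h2
        · refine ⟨0, y, by rw [map_zero, zero_add], ?_⟩
          refine jh_le_rh (Q := fun c' i' => c' = c ∧ i' = i) (fun c' i' hci' => ?_)
            (mem_jh hyR ⟨rfl, rfl⟩ hc hi)
          rw [hci'.1, hci'.2]
          exact (mul_pos hsC' h2).trans_le (hnum c i hci)
        · obtain ⟨z, hz⟩ := h.const y hyR (by rw [hc, ← h2]; simp)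
          exact ⟨z, 0, by rw [add_zero]; exact hz, Submodule.zero_mem _⟩
      | zero => exact ⟨0, 0, by rw [map_zero, add_zero], Submodule.zero_mem _⟩
      | add x y _ _ hx hy =>
        obtain ⟨z, a, rfl, ha⟩ := hx
        obtain ⟨z', a', rfl, ha'⟩ := hy
        exact ⟨z + z', a + a', by rw [map_add]; ring, Submodule.add_mem _ ha ha'⟩
      | smul t x _ hx =>
        obtain ⟨z, a, rfl, ha⟩ := hx
        exact ⟨t * z, t • a, by rw [smul_add, map_mul, Algebra.smul_def],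
          Submodule.smul_mem _ t ha⟩
    obtain ⟨z, y, hxy, hy⟩ := h1 x (hC x hx)
    have h2 : (ξ - (s : ℂ) • H) y = (((0 : ℝ)) : ℂ) • y := by
      have h3 : (ξ - (s : ℂ) • H) x = (ξ - (s : ℂ) • H) y := by
        rw [hxy, map_add, Derivation.map_algebraMap, zero_add]
      rw [← h3, hx0]
      simp
    by_cases hy0 : y = 0
    · exact ⟨z, by rw [hxy, hy0, add_zero]⟩
    · exact absurd (prop_of_mem_hsp (A := ((ξ - (s : ℂ) • H : Derivation ℂ K K) : K →ₗ[ℂ] K)) hy0 h2 hy)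
        (lt_irrefl _)

end Pool.Agent.Helper37.Q4
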