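import Pool.Agent.Helper37.SD.Main

/-!
# The valuations `wt + s u` of a cone
-/

set_option autoImplicit false

namespace Pool.Agent.Helper37.Q4

open Module Pool.Agent.Helper37.SD

variable {K : Type} [Field K] [Algebra ℂ K]

theorem gt_sum (u : RVal K) {ι : Type} {c : ℝ} (S : Finset ι) (z : ι → K)
    (h : ∀ p ∈ S, u.Gt c (z p)) : u.Gt c (∑ p ∈ S, z p) := by
  classical
  induction S using Finset.induction_on with
  | empty =>
    rw [Finset.sum_empty]
    exact Or.inl rfl
  | insert p S hp ih =>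
    rw [Finset.sum_insert hp]
    exact u.gt_add (h p (Finset.mem_insert_self p S))
      (ih fun q hq => h q (Finset.mem_insert_of_mem hq))

theorem exists_le_val (u : RVal K) {ι : Type} (S : Finset ι) (z : ι → K)
    (h : ∑ p ∈ S, z p ≠ 0) : ∃ p ∈ S, z p ≠ 0 ∧ u.val (z p) ≤ u.val (∑ p ∈ S, z p) := by
  by_contra hcon
  push Not at hcon
  have h1 : u.Gt (u.val (∑ p ∈ S, z p)) (∑ p ∈ S, z p) := by
    refine gt_sum u S z fun p hp => ?_
    by_cases h0 : z p = 0
    · exact Or.inl h0
    · exact Or.inr (hcon p hp h0)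
  rcases h1 with h2 | h2
  · exact h h2
  · exact lt_irrefl _ h2

open Classical in
/-- the least value `c + s u (F c)` of the coefficients -/
noncomputable def mv (u : RVal K) (s : ℝ) (F : ℝ →₀ K) : ℝ :=
  if h : F.support.Nonempty then F.support.inf' h (fun c => c + s * u.val (F c)) else 0

theorem mv_le (u : RVal K) (s : ℝ) {F : ℝ →₀ K} {c : ℝ} (hc : F c ≠ 0) :
    mv u s F ≤ c + s * u.val (F c) := by
  have h1 : c ∈ F.support := Finsupp.mem_support_iff.mpr hc
  have h2 : F.support.Nonempty := ⟨c, h1⟩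
  rw [mv, dif_pos h2]
  exact Finset.inf'_le _ h1

theorem exists_mv (u : RVal K) (s : ℝ) {F : ℝ →₀ K} (hF : F ≠ 0) :
    ∃ c, F c ≠ 0 ∧ mv u s F = c + s * u.val (F c) := by
  have h2 : F.support.Nonempty := Finsupp.support_nonempty_iff.mpr hF
  obtain ⟨c, hc, he⟩ := Finset.exists_mem_eq_inf' h2 (fun c => c + s * u.val (F c))
  refine ⟨c, Finsupp.mem_support_iff.mp hc, ?_⟩
  rw [mv, dif_pos h2]
  exact he

theorem le_mv_iff (u : RVal K) (s : ℝ) {F : ℝ →₀ K} (hF : F ≠ 0) (m : ℝ) :
    m ≤ mv u s F ↔ ∀ c, F c ≠ 0 → m ≤ c + s * u.val (F c) := by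
  constructor
  · intro h c hc
    exact h.trans (mv_le u s hc)
  · intro h
    obtain ⟨c, hc, he⟩ := exists_mv u s hF
    rw [he]
    exact h c hc

/-- the smallest degree where the value is attained -/
theorem exists_first (u : RVal K) (s : ℝ) {F : ℝ →₀ K} (hF : F ≠ 0) :
    ∃ c, F c ≠ 0 ∧ mv u s F = c + s * u.val (F c) ∧
      ∀ b < c, F b ≠ 0 → mv u s F < b + s * u.val (F b) := by
  classical
  have h1 : (F.support.filter fun c => mv u s F = c + s * u.val (F c)).Nonempty := by
    obtain ⟨c, hc, he⟩ := exists_mv u s hF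
    exact ⟨c, Finset.mem_filter.mpr ⟨Finsupp.mem_support_iff.mpr hc, he⟩⟩
  have h2 := Finset.min'_mem _ h1
  rw [Finset.mem_filter] at h2
  refine ⟨_, Finsupp.mem_support_iff.mp h2.1, h2.2, fun b hb hb0 => ?_⟩
  refine lt_of_le_of_ne (mv_le u s hb0) fun he => ?_
  have h3 := Finset.min'_le (F.support.filter fun c => mv u s F = c + s * u.val (F c)) b
    (Finset.mem_filter.mpr ⟨Finsupp.mem_support_iff.mpr hb0, he⟩)
  exact absurd hb (not_lt.mpr h3)

theorem mv_add (u : RVal K) {s : ℝ} (hs : 0 ≤ s) {F G : ℝ →₀ K} (hFG : F + G ≠ 0) : min (mv u s F) (mv u s G) ≤ mv u s (F + G) := by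
  rw [le_mv_iff u s hFG]
  intro c hc
  rw [Finsupp.add_apply] at hc ⊢
  by_cases h1 : F c = 0
  · rw [h1, zero_add] at hc ⊢
    exact (min_le_right _ _).trans (mv_le u s hc)
  · by_cases h2 : G c = 0
    · rw [h2, add_zero] at hc ⊢
      exact (min_le_left _ _).trans (mv_le u s h1)
    · have h3 := u.map_add _ _ h1 h2 hc
      rcases min_le_iff.mp h3 with h4 | h4
      · refine (min_le_left _ _).trans ((mv_le u s h1).trans ?_)
        have := mul_le_mul_of_nonneg_left h4 hs
        linarith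
      · refine (min_le_right _ _).trans ((mv_le u s h2).trans ?_)
        have := mul_le_mul_of_nonneg_left h4 hs
        linarith

/-- the product of the families -/
theorem mv_mul (u : RVal K) {s : ℝ} (hs : 0 ≤ s) {F G H : ℝ →₀ K} (hF : F ≠ 0) (hG : G ≠ 0)
    (hH : ∀ e, H e = ∑ p ∈ F.support ×ˢ G.support, if p.1 + p.2 = e then F p.1 * G p.2 else 0) :
    H ≠ 0 ∧ mv u s H = mv u s F + mv u s G := by
  classical
  obtain ⟨c, hc, hce, hcl⟩ := exists_first u s hF
  obtain ⟨d, hd, hde, hdl⟩ := exists_first u s hG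
  have hz0 : F c * G d ≠ 0 := mul_ne_zero hc hd
  have huz0 : u.val (F c * G d) = u.val (F c) + u.val (G d) := u.map_mul _ _ hc hd
  -- the coefficient at `c + d`
  have hcd : (c, d) ∈ F.support ×ˢ G.support :=
    Finset.mem_product.mpr ⟨Finsupp.mem_support_iff.mpr hc, Finsupp.mem_support_iff.mpr hd⟩
  have h1 : H (c + d) = F c * G d + ∑ p ∈ (F.support ×ˢ G.support).erase (c, d),
      if p.1 + p.2 = c + d then F p.1 * G p.2 else 0 := by
    rw [hH, ← Finset.add_sum_erase _ _ hcd, if_pos rfl]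
  have h2 : u.Gt (u.val (F c * G d)) (∑ p ∈ (F.support ×ˢ G.support).erase (c, d),
      if p.1 + p.2 = c + d then F p.1 * G p.2 else 0) := by
    refine gt_sum u _ _ fun p hp => ?_
    rw [Finset.mem_erase, Finset.mem_product, Finsupp.mem_support_iff,
      Finsupp.mem_support_iff] at hp
    obtain ⟨hne, hpF, hpG⟩ := hp
    by_cases he : p.1 + p.2 = c + d
    · rw [if_pos he]
      refine Or.inr ?_
      rw [huz0, u.map_mul _ _ hpF hpG]
      have e1 := mv_le u s hpF
      have e2 := mv_le u s hpG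
      have e3 : p.1 < c ∨ p.2 < d := by
        by_contra hcon
        push Not at hcon
        apply hne
        have e4 : p.1 = c := by linarith [hcon.1, hcon.2]
        have e5 : p.2 = d := by linarith [hcon.1, hcon.2]
        exact Prod.ext e4 e5
      have e6 : s * (u.val (F c) + u.val (G d)) < s * (u.val (F p.1) + u.val (G p.2)) := by
        rcases e3 with e4 | e4
        · have e5 := hcl p.1 e4 hpF
          linarith
        · have e5 := hdl p.2 e4 hpG
          linarith
      exact lt_of_mul_lt_mul_left e6 hs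
    · rw [if_neg he]
      exact Or.inl rfl
  have h3 := u.val_add_eq hz0 h2
  rw [← h1] at h3
  have hH0 : H ≠ 0 := by
    rintro rfl
    exact h3.1 rfl
  refine ⟨hH0, le_antisymm ?_ ?_⟩
  · have h4 := mv_le u s h3.1
    rw [h3.2, huz0] at h4
    linarith
  · rw [le_mv_iff u s hH0]
    intro e he
    rw [hH] at he ⊢
    obtain ⟨p, hp, hp0, hpu⟩ := exists_le_val u _ _ he
    rw [Finset.mem_product, Finsupp.mem_support_iff, Finsupp.mem_support_iff] at hp
    have hpe : p.1 + p.2 = e := by
      by_contra hcon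
      exact hp0 (if_neg hcon)
    rw [if_pos hpe, u.map_mul _ _ hp.1 hp.2] at hpu
    have e1 := mv_le u s hp.1
    have e2 := mv_le u s hp.2
    have e3 := mul_le_mul_of_nonneg_left hpu hs
    linarith

end Pool.Agent.Helper37.Q4
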