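import Pool.Agent.Helper37.Q4.Grd

/-!
# Project D4: the volume estimate by slopes
-/

set_option autoImplicit false

namespace Pool.Agent.Helper37.Q4

open Module Filter Topology Pool.Agent.Helper37.SD Pool.Agent.Helper88.D4

variable {K : Type} [Field K] [Algebra ℂ K] {R : Subalgebra ℂ K} {ξ : Derivation ℂ K K}
  {J : Bra K} {u v w : RVal K} {h : K} {s : ℝ}

/-! ## numbers -/

theorem sum_slope (d : ℕ → ℝ) (N : ℕ) :
    ∑ j ∈ Finset.range N, (d (j + 1) + (j + 1 : ℕ) * (d (j + 1) - d (j + 2))) =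
      2 * ∑ j ∈ Finset.range N, d (j + 1) - N * d (N + 1) := by
  induction N with
  | zero => simp
  | succ N ih =>
    rw [Finset.sum_range_succ, Finset.sum_range_succ, ih]
    push_cast
    ring

theorem sum_block {d : ℕ → ℝ} (hd : Antitone d) (p I : ℕ) :
    p * ∑ i ∈ Finset.range I, d ((i + 1) * p) ≤ ∑ j ∈ Finset.range (I * p), d (j + 1) := by
  induction I with
  | zero => simp
  | succ I ih =>
    rw [Finset.sum_range_succ, mul_add, add_mul, one_mul, Finset.sum_range_add]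
    have h1 : (p : ℝ) * d ((I + 1) * p) ≤ ∑ j ∈ Finset.range p, d (I * p + j + 1) := by
      have h2 : ∑ j ∈ Finset.range p, d ((I + 1) * p) = (p : ℝ) * d ((I + 1) * p) := by
        rw [Finset.sum_const, Finset.card_range, nsmul_eq_mul]
      rw [← h2]
      refine Finset.sum_le_sum fun j hj => hd ?_
      have := Finset.mem_range.mp hj
      rw [add_mul, one_mul]
      omega
    rw [add_mul, one_mul] at h1
    linarith

theorem sum_trunc {d : ℕ → ℝ} (hd0 : ∀ j, 0 ≤ d j) {N : ℕ} (hN : ∀ j, N < j → d j = 0) (M : ℕ) :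
    ∑ j ∈ Finset.range M, d (j + 1) ≤ ∑ j ∈ Finset.range N, d (j + 1) := by
  rcases le_total M N with h | h
  · exact Finset.sum_le_sum_of_subset_of_nonneg (Finset.range_mono h) fun j _ _ => hd0 _
  · refine le_of_eq (Finset.sum_subset (Finset.range_mono h) fun j _ hj => ?_).symm
    refine hN _ ?_
    rw [Finset.mem_range, not_lt] at hj
    omega

theorem num_slope {a V c δ κ τ : ℝ} {p : ℕ} (ha : 0 < a) (hV : 0 < V) (hδ : 0 < δ)
    (hκ : 0 ≤ κ) (h : ∀ s, 0 < s → a ^ 4 * V ≤ (a + s * c) ^ 4 *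
      (V * (1 - 2 * p * (s * τ) * (1 / (1 + κ * s)) ^ 5 / δ))) :
    a * p * τ ≤ 2 * δ * c := by
  have hder : HasDerivAt (fun s : ℝ => (a + s * c) ^ 4 * (δ * (1 + κ * s) ^ 5 - 2 * p * (s * τ)) -
      a ^ 4 * (δ * (1 + κ * s) ^ 5)) (4 * a ^ 3 * c * δ - a ^ 4 * (2 * p * τ)) 0 := by
    have h1 : HasDerivAt (fun s : ℝ => a + s * c) c 0 := by
      have := ((hasDerivAt_id (0 : ℝ)).mul_const c).const_add a
      simpa using this
    have h2 := h1.pow 4
    have h3 : HasDerivAt (fun s : ℝ => 1 + κ * s) κ 0 := by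
      have := ((hasDerivAt_id (0 : ℝ)).const_mul κ).const_add 1
      simpa using this
    have h4 := (h3.pow 5).const_mul δ
    have h5 : HasDerivAt (fun s : ℝ => 2 * p * (s * τ)) (2 * p * τ) 0 := by
      have := ((hasDerivAt_id (0 : ℝ)).mul_const τ).const_mul (2 * (p : ℝ))
      simpa using this
    have h6 := (h2.mul (h4.sub h5)).sub (h4.const_mul (a ^ 4))
    refine h6.congr_deriv ?_
    simp only [Pi.sub_apply, Pi.pow_apply, zero_mul, add_zero, mul_zero, sub_zero,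
      one_pow, mul_one, Nat.cast_ofNat, Nat.add_one_sub_one]
    ring
  have h0 := deriv_nonneg hder (by simp) (fun s hs => by
    have h1 := h s hs
    have h2 : 0 < 1 + κ * s := by
      have := mul_nonneg hκ hs.le
      linarith
    have h3 : 0 < (1 + κ * s) ^ 5 := pow_pos h2 5
    have e : V * (1 - 2 * p * (s * τ) * (1 / (1 + κ * s)) ^ 5 / δ) * (δ * (1 + κ * s) ^ 5) =
        V * (δ * (1 + κ * s) ^ 5 - 2 * p * (s * τ)) := by
      field_simp
    have h4 := mul_le_mul_of_nonneg_right h1 (show 0 ≤ δ * (1 + κ * s) ^ 5 by positivity)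
    rw [mul_assoc ((a + s * c) ^ 4), e] at h4
    have h5 : V * (a ^ 4 * (δ * (1 + κ * s) ^ 5)) ≤
        V * ((a + s * c) ^ 4 * (δ * (1 + κ * s) ^ 5 - 2 * p * (s * τ))) := by
      calc V * (a ^ 4 * (δ * (1 + κ * s) ^ 5)) = a ^ 4 * V * (δ * (1 + κ * s) ^ 5) := by ring
        _ ≤ (a + s * c) ^ 4 * (V * (δ * (1 + κ * s) ^ 5 - 2 * p * (s * τ))) := h4
        _ = _ := by ring
    have h6 := le_of_mul_le_mul_left h5 hV
    linarith)
  have h1 : 2 * a ^ 3 * (a * p * τ) ≤ 2 * a ^ 3 * (2 * δ * c) := by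
    have e1 : 2 * a ^ 3 * (a * p * τ) = a ^ 4 * (2 * p * τ) := by ring
    have e2 : 2 * a ^ 3 * (2 * δ * c) = 4 * a ^ 3 * c * δ := by ring
    rw [e1, e2]
    linarith
  exact le_of_mul_le_mul_left h1 (by positivity)

/-! ## the filtration by slopes -/

/-- the elements of degree `c` and slope at least `j` -/
def Vj (R : Subalgebra ℂ K) (ξ : Derivation ℂ K K) (h : K) (c : ℝ) (j : ℕ) : Submodule ℂ K :=
  eigR R ξ c ⊓ Sj R h j

theorem sj_down (hn : ∀ x : K, ∀ n : ℕ, 0 < n → x ^ n ∈ R → x ∈ R) {i j : ℕ} (hij : i ≤ j)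
    {φ : K} (hφ : φ ∈ Sj R h j) : φ ∈ Sj R h i := by
  refine ⟨hφ.1, ?_⟩
  rcases Nat.eq_zero_or_pos i with hi | hi
  · subst hi
    rw [pow_zero, mul_one]
    exact hφ.1
  · refine hn _ j (hi.trans_le hij) ?_
    have e : (φ * h ^ i) ^ j = φ ^ (j - i) * (φ * h ^ j) ^ i := by
      rw [mul_pow, mul_pow, ← mul_assoc, ← pow_add, ← pow_mul, ← pow_mul, mul_comm j i]
      congr 2
      omega
    rw [e]
    exact R.mul_mem (R.pow_mem hφ.1 _) (R.pow_mem hφ.2 _)

/-- the span of `V N`, `h V N`, …, `h ^ k V N` -/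
def Uk (R : Subalgebra ℂ K) (ξ : Derivation ℂ K K) (h : K) (c : ℝ) (N : ℕ) : ℕ → Submodule ℂ K
  | 0 => Vj R ξ h c N
  | k + 1 => Uk R ξ h c N k ⊔ (Vj R ξ h c N).map (LinearMap.mulLeft ℂ (h ^ (k + 1)))

theorem eig_hpow (hξ : ξ h = 0) (k : ℕ) : ξ (h ^ k) = ((0 : ℝ) : ℂ) • h ^ k := by
  rw [Derivation.leibniz_pow, hξ]
  simp

theorem uk_le (hn : ∀ x : K, ∀ n : ℕ, 0 < n → x ^ n ∈ R → x ∈ R) (hξ : ξ h = 0) (c : ℝ)
    (N : ℕ) : ∀ k ≤ N, Uk R ξ h c N k ≤ Vj R ξ h c (N - k) := by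
  intro k
  induction k with
  | zero => exact fun _ => le_rfl
  | succ k ih =>
    intro hk
    refine sup_le ((ih (by omega)).trans ?_) ?_
    · rintro x ⟨hx1, hx2⟩
      exact ⟨hx1, sj_down hn (by omega) hx2⟩
    · rintro _ ⟨x, ⟨hx1, hx2⟩, rfl⟩
      have h1 : h ^ (k + 1) * x ∈ R := by
        rw [mul_comm]
        exact (sj_down hn hk hx2).2
      refine ⟨⟨h1, ?_⟩, h1, ?_⟩
      · have h2 := eig_mul (eig_hpow hξ (k + 1)) hx1.2
        rw [zero_add] at h2
        exact h2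
      · show h ^ (k + 1) * x * h ^ (N - (k + 1)) ∈ R
        have e : h ^ (k + 1) * x * h ^ (N - (k + 1)) = x * h ^ N := by
          rw [mul_right_comm, ← pow_add, mul_comm]
          congr 2
          omega
        rw [e]
        exact hx2.2

theorem uk_val (hu0 : 0 ≤ u.val h) (hh : h ≠ 0) {c τ : ℝ} {N : ℕ}
    (hV : ∀ φ ∈ Vj R ξ h c N, φ ≠ 0 → N * τ ≤ u.val φ) : ∀ k, ∀ x ∈ Uk R ξ h c N k,
      u.Ge (N * τ) x := by
  intro k
  induction k with
  | zero =>
    intro x hx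
    by_cases hx0 : x = 0
    · exact Or.inl hx0
    · exact Or.inr (hV x hx hx0)
  | succ k ih =>
    intro x hx
    obtain ⟨y, hy, z, ⟨t, ht, rfl⟩, rfl⟩ := Submodule.mem_sup.mp hx
    refine u.ge_add (ih y hy) ?_
    by_cases ht0 : t = 0
    · subst ht0
      exact Or.inl (map_zero _)
    · refine Or.inr ?_
      show N * τ ≤ u.val (h ^ (k + 1) * t)
      rw [u.map_mul _ _ (pow_ne_zero _ hh) ht0]
      have h1 := hV t ht ht0
      have h2 : ∀ m : ℕ, 0 ≤ u.val (h ^ m) := by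
        intro m
        induction m with
        | zero => rw [pow_zero, u.val_one]
        | succ m ihm =>
          rw [pow_succ, u.map_mul _ _ (pow_ne_zero _ hh) hh]
          linarith
      have h3 := h2 (k + 1)
      linarith

theorem finite_vj (hc : IsCone R ξ) (c : ℝ) (j : ℕ) : Module.Finite ℂ (Vj R ξ h c j) := by
  have := hc.finite_eigR c
  exact Submodule.finiteDimensional_of_le (inf_le_left : Vj R ξ h c j ≤ eigR R ξ c)

theorem uk_finrank (hc : IsCone R ξ) (hn : ∀ x : K, ∀ n : ℕ, 0 < n → x ^ n ∈ R → x ∈ R)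
    (hh : h ≠ 0) (hξ : ξ h = 0) (c : ℝ) (N : ℕ) : ∀ k ≤ N,
      (finrank ℂ (Vj R ξ h c N) : ℝ) + k * ((finrank ℂ (Vj R ξ h c N) : ℝ) -
        finrank ℂ (Vj R ξ h c (N + 1))) ≤ finrank ℂ (Uk R ξ h c N k) := by
  intro k
  induction k with
  | zero =>
    intro _
    simp only [Nat.cast_zero, zero_mul, add_zero]
    exact le_rfl
  | succ k ih =>
    intro hk
    have hf := finite_vj (h := h) hc c
    have h1 := ih (by omega)
    set L := LinearMap.mulLeft ℂ (h ^ (k + 1)) with hL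
    have hLinj : Function.Injective L := fun x y hxy =>
      mul_left_cancel₀ (pow_ne_zero (k + 1) hh) hxy
    set Z := (Vj R ξ h c N).map L with hZ
    have hU := uk_le hn hξ c N k (by omega)
    have hfU : Module.Finite ℂ (Uk R ξ h c N k) := by
      have := hf (N - k)
      exact Submodule.finiteDimensional_of_le hU
    have hfZ : Module.Finite ℂ Z := by
      have := hf N
      rw [hZ]
      infer_instance
    have h2 := Submodule.finrank_sup_add_finrank_inf_eq (Uk R ξ h c N k) Z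
    have h3 : finrank ℂ Z = finrank ℂ (Vj R ξ h c N) :=
      (Submodule.equivMapOfInjective L hLinj _).symm.finrank_eq
    have h4 : Uk R ξ h c N k ⊓ Z ≤ (Vj R ξ h c (N + 1)).map L := by
      rintro _ ⟨hx1, x, hx2, rfl⟩
      refine ⟨x, ⟨hx2.1, hx2.1.1, ?_⟩, rfl⟩
      have h5 : L x * h ^ (N - k) ∈ R := (hU hx1).2.2
      have e : L x * h ^ (N - k) = x * h ^ (N + 1) := by
        show h ^ (k + 1) * x * h ^ (N - k) = _
        rw [mul_right_comm, ← pow_add, mul_comm]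
        congr 2
        omega
      rwa [e] at h5
    have h5 : finrank ℂ ((Vj R ξ h c (N + 1)).map L) = finrank ℂ (Vj R ξ h c (N + 1)) :=
      (Submodule.equivMapOfInjective L hLinj _).symm.finrank_eq
    have h6 : finrank ℂ (Uk R ξ h c N k ⊓ Z : Submodule ℂ K) ≤ finrank ℂ (Vj R ξ h c (N + 1)) := by
      rw [← h5]
      have := hf (N + 1)
      exact Submodule.finrank_mono h4
    have h7 : (finrank ℂ (Uk R ξ h c N (k + 1)) : ℝ) +
        (finrank ℂ (Uk R ξ h c N k ⊓ Z : Submodule ℂ K) : ℝ) =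
          finrank ℂ (Uk R ξ h c N k) + finrank ℂ (Vj R ξ h c N) := by
      rw [← h3]
      exact_mod_cast h2
    have h8 : (finrank ℂ (Uk R ξ h c N k ⊓ Z : Submodule ℂ K) : ℝ) ≤
        finrank ℂ (Vj R ξ h c (N + 1)) := by exact_mod_cast h6
    push_cast
    linarith

/-! ## the counting inequality -/

/-- the part of degree `c` of the colength of `wt + s u` -/
theorem range_le (hc : IsCone R ξ) (hw : IsWs R ξ u s w)
    (hn : ∀ x : K, ∀ n : ℕ, 0 < n → x ^ n ∈ R → x ∈ R)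
    (hh : h ≠ 0) (hξ : ξ h = 0) (hu0 : 0 ≤ u.val h) {τ : ℝ} (hs : 0 ≤ s)
    (hV : ∀ (j : ℕ) (φ : K), φ ∈ Sj R h j → φ ≠ 0 → j * τ ≤ u.val φ) {x c : ℝ} {N : ℕ}
    (hN : x ≤ c + s * (N * τ)) :
    (finrank ℂ (LinearMap.range ((idl R w x).mkQ.comp (inc R ξ c))) : ℝ) ≤
      finrank ℂ (eigR R ξ c) - (finrank ℂ (Vj R ξ h c N) + N * ((finrank ℂ (Vj R ξ h c N) : ℝ) -
        finrank ℂ (Vj R ξ h c (N + 1)))) := by
  have hfe := hc.finite_eigR c
  set π := (idl R w x).mkQ.comp (inc R ξ c) with hπ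
  have h1 := LinearMap.finrank_range_add_finrank_ker π
  have hUle : Uk R ξ h c N N ≤ eigR R ξ c :=
    (uk_le hn hξ c N N le_rfl).trans inf_le_left
  have h2 : (Uk R ξ h c N N).comap (eigR R ξ c).subtype ≤ LinearMap.ker π := by
    intro y hy
    have h3 : u.Ge (N * τ) (y : K) := uk_val (ξ := ξ) (c := c) hu0 hh
      (fun φ hφ hφ0 => hV N φ hφ.2 hφ0) N (y : K) hy
    have h4 : inc R ξ c y ∈ idl R w x := by
      by_cases hy0 : (y : K) = 0
      · exact Or.inl hy0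
      · refine Or.inr ?_
        show x ≤ w.val (y : K)
        rw [hw.val_hom y.2.1 hy0 y.2.2]
        have h5 := mul_le_mul_of_nonneg_left (h3.resolve_left hy0) hs
        linarith
    exact (Submodule.Quotient.mk_eq_zero _).mpr h4
  have h3 : finrank ℂ ((Uk R ξ h c N N).comap (eigR R ξ c).subtype) =
      finrank ℂ (Uk R ξ h c N N) :=
    (Submodule.comapSubtypeEquivOfLe hUle).finrank_eq
  have h4 := Submodule.finrank_mono h2
  rw [h3] at h4
  have h5 := uk_finrank hc hn hh hξ c N N le_rfl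
  have h6 : (finrank ℂ (Uk R ξ h c N N) : ℝ) ≤ finrank ℂ (LinearMap.ker π) := by
    exact_mod_cast h4
  have h7 : (finrank ℂ (LinearMap.range π) : ℝ) + finrank ℂ (LinearMap.ker π) =
      finrank ℂ (eigR R ξ c) := by exact_mod_cast h1
  linarith

theorem vj_mul {φ : K} {δ : ℝ} {p : ℕ} (hφ : φ ∈ Sj R h p) (hφ0 : φ ≠ 0)
    (hφδ : ξ φ = (δ : ℂ) • φ) (hc : IsCone R ξ) (c : ℝ) (i : ℕ) :
    finrank ℂ (eigR R ξ (c - i * δ)) ≤ finrank ℂ (Vj R ξ h c (i * p)) := by
  have hf := finite_vj (h := h) hc c (i * p)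
  have hpow : ∀ i : ℕ, ξ (φ ^ i) = ((i * δ : ℝ) : ℂ) • φ ^ i := by
    intro i
    induction i with
    | zero => simp
    | succ i ih =>
      rw [pow_succ, eig_mul ih hφδ]
      congr 2
      push_cast
      ring
  have hmem : ∀ y ∈ eigR R ξ (c - i * δ), φ ^ i * y ∈ Vj R ξ h c (i * p) := by
    intro y hy
    refine ⟨⟨R.mul_mem (R.pow_mem hφ.1 i) hy.1, ?_⟩, R.mul_mem (R.pow_mem hφ.1 i) hy.1, ?_⟩
    · rw [eig_mul (hpow i) hy.2]
      congr 2
      ring
    · have e : φ ^ i * y * h ^ (i * p) = (φ * h ^ p) ^ i * y := by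
        rw [mul_pow, ← pow_mul, mul_comm p i]
        ring
      rw [e]
      exact R.mul_mem (R.pow_mem hφ.2 i) hy.1
  let L : eigR R ξ (c - i * δ) →ₗ[ℂ] Vj R ξ h c (i * p) :=
    LinearMap.codRestrict _ ((LinearMap.mulLeft ℂ (φ ^ i)).comp (eigR R ξ (c - i * δ)).subtype)
      (fun y => hmem y y.2)
  refine LinearMap.finrank_le_finrank_of_injective (f := L) ?_
  intro x y hxy
  have h1 : φ ^ i * (x : K) = φ ^ i * (y : K) := congrArg Subtype.val hxy
  exact Subtype.ext (mul_left_cancel₀ (pow_ne_zero i hφ0) h1)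

/-- **the counting inequality** -/
theorem count_slope (hc : IsCone R ξ) (hv : IsWt R ξ v) (hs : 0 ≤ s) (hw : IsWs R ξ u s w)
    (hu : ∀ x ∈ R, x ≠ 0 → 0 ≤ u.val x)
    (hn : ∀ x : K, ∀ n : ℕ, 0 < n → x ^ n ∈ R → x ∈ R)
    (hh : h ≠ 0) (hξ : ξ h = 0) (hu0 : 0 ≤ u.val h) {τ : ℝ} (hsτ : 0 < s * τ)
    (hV : ∀ (j : ℕ) (φ : K), φ ∈ Sj R h j → φ ≠ 0 → j * τ ≤ u.val φ) {φ : K} {δ : ℝ} {p : ℕ}
    (hφ : φ ∈ Sj R h p) (hφ0 : φ ≠ 0) (hφδ : ξ φ = (δ : ℂ) • φ) (hδ : 0 < δ) {T : ℝ}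
    (hT0 : 0 ≤ T) (hT : ∀ (c : ℝ) (j : ℕ) (ψ : K), ψ ∈ Vj R ξ h c j → ψ ≠ 0 → j ≤ T * c)
    (n : ℝ) (A I : ℕ) (hA : n ≤ A * (s * τ)) :
    ∑ k ∈ Finset.range A, (finrank ℂ (R ⧸ idl R w (n - k * (s * τ))) : ℝ) +
      2 * p * ∑ i ∈ Finset.range I, (finrank ℂ (R ⧸ idl R v
        (1 / (1 + s * τ * T) * n - δ - i * δ)) : ℝ) ≤
      ∑ k ∈ Finset.range A, (finrank ℂ (R ⧸ idl R v (n - k * (s * τ))) : ℝ) := by
  classical
  obtain ⟨C, hC, hC', hCount⟩ := exists_degrees hc hv n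
  set s' := s * τ with hs'
  set t := 1 / (1 + s' * T) with ht
  have hden : 0 < 1 + s' * T := by positivity
  have ht0 : 0 < t := by positivity
  have ht1 : t ≤ 1 := by
    rw [ht, div_le_one hden]
    have : 0 ≤ s' * T := by positivity
    linarith
  set D : ℝ → ℝ := fun c => finrank ℂ (eigR R ξ c) with hD
  set d : ℝ → ℕ → ℝ := fun c j => finrank ℂ (Vj R ξ h c j) with hd
  have hvj := fun c j => finite_vj (h := h) hc (R := R) (ξ := ξ) c j
  have hanti : ∀ c, Antitone (d c) := by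
    intro c i j hij
    have := hvj c i
    have h1 : Vj R ξ h c j ≤ Vj R ξ h c i := fun x hx => ⟨hx.1, sj_down hn hij hx.2⟩
    exact Nat.cast_le.mpr (Submodule.finrank_mono h1)
  have hd0 : ∀ c j, 0 ≤ d c j := fun c j => Nat.cast_nonneg _
  set e : ℝ → ℕ → ℝ := fun c j => d c j + j * (d c j - d c (j + 1)) with he
  have he0 : ∀ c j, 0 ≤ e c j := by
    intro c j
    have h1 := hanti c (Nat.le_succ j)
    have h2 : 0 ≤ (j : ℝ) * (d c j - d c (j + 1)) :=
      mul_nonneg (Nat.cast_nonneg _) (sub_nonneg.mpr h1)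
    have h3 := hd0 c j
    show 0 ≤ d c j + j * (d c j - d c (j + 1))
    linarith
  -- the upper bound for the colength of `w`
  have hH : ∀ x ≤ n, (finrank ℂ (R ⧸ idl R w x) : ℝ) ≤
      ∑ c ∈ C.filter (· < x), (D c - e c ⌈(x - c) / s'⌉₊) := by
    intro x hx
    have hle := idl_le_of_ws hc hv hu hs hw
    have hfw : Module.Finite ℂ (R ⧸ idl R w x) := finite_of_le (hle x) (hv.finite_quot hc x)
    have h1 := finrank_quot_le hc (idl R w x) hfw (C.filter (· < x)) (by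
      intro c hcC y
      by_cases hy0 : (y : K) = 0
      · exact Or.inl hy0
      · refine hle x (Or.inr ?_)
        show x ≤ v.val (y : K)
        rw [hv.val_eig hc hy0 y.2.2]
        by_contra hcon
        rw [not_le] at hcon
        refine hcC (Finset.mem_filter.mpr ⟨hC' c (hcon.trans_le hx) ?_, hcon⟩)
        exact (Submodule.ne_bot_iff _).mpr ⟨y, y.2, hy0⟩)
    have h2 : (finrank ℂ (R ⧸ idl R w x) : ℝ) ≤ ∑ c ∈ C.filter (· < x),
        (finrank ℂ (LinearMap.range ((idl R w x).mkQ.comp (inc R ξ c))) : ℝ) := by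
      exact_mod_cast h1
    refine h2.trans (Finset.sum_le_sum fun c _ => ?_)
    refine range_le hc hw hn hh hξ hu0 hs hV (N := ⌈(x - c) / s'⌉₊) ?_
    have h3 := Nat.le_ceil ((x - c) / s')
    rw [div_le_iff₀ hsτ] at h3
    rw [hs'] at h3
    linarith
  have hN₁ : ∀ x ≤ n, (finrank ℂ (R ⧸ idl R v x) : ℝ) = ∑ c ∈ C.filter (· < x), D c := by
    intro x hx
    rw [hCount x hx]
    push_cast
    rfl
  have hkn : ∀ k : ℕ, n - k * s' ≤ n := fun k => by
    have : 0 ≤ (k : ℝ) * s' := by positivity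
    linarith
  -- the main sum
  have hmain : ∑ k ∈ Finset.range A, (finrank ℂ (R ⧸ idl R w (n - k * s')) : ℝ) +
      ∑ c ∈ C, ∑ j ∈ Finset.range ⌈(n - c) / s'⌉₊, e c (j + 1) ≤
        ∑ k ∈ Finset.range A, (finrank ℂ (R ⧸ idl R v (n - k * s')) : ℝ) := by
    have h1 : ∀ k ∈ Finset.range A, (finrank ℂ (R ⧸ idl R w (n - k * s')) : ℝ) ≤
        (finrank ℂ (R ⧸ idl R v (n - k * s')) : ℝ) -
          ∑ c ∈ C, if c < n - k * s' then e c ⌈(n - k * s' - c) / s'⌉₊ else 0 := by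
      intro k _
      have h2 := hH _ (hkn k)
      rw [hN₁ _ (hkn k), ← Finset.sum_filter, ← Finset.sum_sub_distrib]
      exact h2
    have h2 := Finset.sum_le_sum h1
    rw [Finset.sum_sub_distrib, Finset.sum_comm] at h2
    have h3 : ∀ c ∈ C, ∑ k ∈ Finset.range A,
        (if c < n - k * s' then e c ⌈(n - k * s' - c) / s'⌉₊ else 0) =
          ∑ j ∈ Finset.range ⌈(n - c) / s'⌉₊, e c (j + 1) := by
      intro c hcC
      have hB : ⌈(n - c) / s'⌉₊ ≤ A := by
        refine Nat.ceil_le.mpr ?_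
        rw [div_le_iff₀ hsτ]
        have := (hC c hcC).1
        linarith
      have hlt : ∀ k : ℕ, c < n - k * s' ↔ k < ⌈(n - c) / s'⌉₊ := by
        intro k
        rw [Nat.lt_ceil, lt_div_iff₀ hsτ]
        constructor <;> intro h <;> linarith
      rw [← Finset.sum_filter]
      have e1 : (Finset.range A).filter (fun k : ℕ => c < n - k * s') =
          Finset.range ⌈(n - c) / s'⌉₊ := by
        ext k
        rw [Finset.mem_filter, Finset.mem_range, Finset.mem_range, hlt k]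
        constructor
        · exact fun h => h.2
        · exact fun h => ⟨h.trans_le hB, h⟩
      rw [e1, ← Finset.sum_range_reflect]
      refine Finset.sum_congr rfl fun k hk => ?_
      have hk' := Finset.mem_range.mp hk
      congr 1
      have e2 : (n - ((⌈(n - c) / s'⌉₊ - 1 - k : ℕ) : ℝ) * s' - c) / s' =
          (n - c) / s' - ((⌈(n - c) / s'⌉₊ - 1 - k : ℕ) : ℝ) := by
        field_simp
        ring
      rw [e2, Nat.ceil_sub_natCast]
      omega
    rw [Finset.sum_congr rfl h3] at h2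
    linarith
  -- the lower bound
  have hslope : ∀ c ∈ C, c ≤ t * n → ∀ j, ⌈(n - c) / s'⌉₊ < j → d c j = 0 := by
    intro c hcC hct j hj
    have h1 : Vj R ξ h c j = ⊥ := by
      rw [eq_bot_iff]
      intro ψ hψ
      rw [Submodule.mem_bot]
      by_contra hψ0
      have h2 := hT c j ψ hψ hψ0
      have h3 : T * c ≤ (n - c) / s' := by
        rw [le_div_iff₀ hsτ]
        have h4 : (1 + s' * T) * c ≤ n := by
          have h5 := mul_le_mul_of_nonneg_left hct hden.le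
          have h6 : (1 + s' * T) * (t * n) = n := by
            rw [ht]
            field_simp
          linarith
        linarith
      have h4 := (h2.trans h3).trans (Nat.le_ceil _)
      have h5 : j ≤ ⌈(n - c) / s'⌉₊ := by exact_mod_cast h4
      omega
    show (finrank ℂ (Vj R ξ h c j) : ℝ) = 0
    rw [h1, finrank_bot]
    simp
  have hlow : 2 * p * ∑ i ∈ Finset.range I, (finrank ℂ (R ⧸ idl R v (t * n - δ - i * δ)) : ℝ) ≤
      ∑ c ∈ C, ∑ j ∈ Finset.range ⌈(n - c) / s'⌉₊, e c (j + 1) := by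
    have h1 : ∑ c ∈ C.filter (· ≤ t * n), (2 * p * ∑ i ∈ Finset.range I,
        D (c - (i + 1 : ℕ) * δ)) ≤
        ∑ c ∈ C, ∑ j ∈ Finset.range ⌈(n - c) / s'⌉₊, e c (j + 1) := by
      refine le_trans ?_ (Finset.sum_le_sum_of_subset_of_nonneg
        (Finset.filter_subset (· ≤ t * n) C) fun c _ _ => Finset.sum_nonneg fun j _ => he0 c _)
      refine Finset.sum_le_sum fun c hcC => ?_
      obtain ⟨hcC, hct⟩ := Finset.mem_filter.mp hcC
      have h2 := sum_slope (d c) ⌈(n - c) / s'⌉₊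
      rw [hslope c hcC hct _ (Nat.lt_succ_self _), mul_zero, sub_zero] at h2
      show _ ≤ ∑ j ∈ Finset.range ⌈(n - c) / s'⌉₊, (d c (j + 1) +
        (j + 1 : ℕ) * (d c (j + 1) - d c (j + 1 + 1)))
      rw [h2]
      have h3 : ∑ i ∈ Finset.range I, D (c - (i + 1 : ℕ) * δ) ≤
          ∑ i ∈ Finset.range I, d c ((i + 1) * p) := by
        refine Finset.sum_le_sum fun i _ => ?_
        exact Nat.cast_le.mpr (vj_mul hφ hφ0 hφδ hc c (i + 1))
      have h4 := sum_block (hanti c) p I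
      have h5 := sum_trunc (hd0 c) (hslope c hcC hct) (I * p)
      have h6 := mul_le_mul_of_nonneg_left h3 (show (0 : ℝ) ≤ 2 * p by positivity)
      linarith
    refine le_trans ?_ h1
    rw [← Finset.mul_sum, Finset.sum_comm]
    refine mul_le_mul_of_nonneg_left (Finset.sum_le_sum fun i _ => ?_) (by positivity)
    have hx : t * n - δ - i * δ = t * n - ((i + 1 : ℕ) : ℝ) * δ := by
      push_cast
      ring
    rw [hx]
    by_cases hn0 : n ≤ 0
    · -- no degrees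
      have hCe : C = ∅ := by
        refine Finset.eq_empty_of_forall_notMem fun c hcC => ?_
        have := hC c hcC
        linarith [this.1, this.2.1]
      have hi : 0 ≤ ((i + 1 : ℕ) : ℝ) * δ := by positivity
      have htn : t * n ≤ 0 := mul_nonpos_of_nonneg_of_nonpos ht0.le hn0
      have h9 : (idl R v (t * n - ((i + 1 : ℕ) : ℝ) * δ)) = ⊤ :=
        idl_top (fun x hx hx0 => hv.nonneg hc hx hx0) (by linarith)
      rw [finrank_top h9, hCe]
      simp
    · rw [not_le] at hn0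
      have hi : 0 < ((i + 1 : ℕ) : ℝ) * δ := by positivity
      have htn : t * n ≤ n := by
        have := mul_le_mul_of_nonneg_right ht1 hn0.le
        linarith
      rw [hN₁ _ (by linarith)]
      set b := ((i + 1 : ℕ) : ℝ) * δ with hb
      -- shift by `b`
      have hshift : ((C.filter (· < t * n - b)).image (fun c => c + b)) ⊆
          C.filter (· ≤ t * n) := by
        intro c hc1
        obtain ⟨c', hc', rfl⟩ := Finset.mem_image.mp hc1
        obtain ⟨hc'1, hc'2⟩ := Finset.mem_filter.mp hc'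
        refine Finset.mem_filter.mpr ⟨hC' _ (by linarith) ?_, by linarith⟩
        intro hbot
        have h2 := vj_mul hφ hφ0 hφδ hc (c' + b) (i + 1)
        have e3 : c' + b - ((i + 1 : ℕ) : ℝ) * δ = c' := by rw [hb]; ring
        rw [e3] at h2
        have h3 : Vj R ξ h (c' + b) ((i + 1) * p) = ⊥ := by
          rw [eq_bot_iff, ← hbot]
          exact inf_le_left
        rw [h3, finrank_bot] at h2
        have h4 : eigR R ξ c' = ⊥ := by
          have := hc.finite_eigR c'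
          exact Submodule.finrank_eq_zero.mp (Nat.le_zero.mp h2)
        exact (hC c' hc'1).2.2 h4
      have h2 : ∑ c ∈ (C.filter (· < t * n - b)).image (fun c => c + b), D (c - b) =
          ∑ c ∈ C.filter (· < t * n - b), D c := by
        rw [Finset.sum_image fun x _ y _ hxy => add_right_cancel hxy]
        exact Finset.sum_congr rfl fun c _ => by rw [add_sub_cancel_right]
      rw [← h2]
      exact Finset.sum_le_sum_of_subset_of_nonneg hshift fun c _ _ => Nat.cast_nonneg _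
  linarith

/-! ## the estimate -/

theorem IsMinF.isMin {a V : ℝ} (hM : IsMinF R ξ J v a V) : IsMin R ξ J v a V :=
  ⟨hM.wt, hM.vol, hM.apos, hM.vpos, fun w a' V' hc hl hv => hM.min w a' V' hc hl
    fun ε hε => (hv ε hε).frequently⟩

theorem normal_root (hN : Pool.Agent.Helper20.TS.Normal R) {x : K} {n : ℕ} (hn : 0 < n) (hx : x ^ n ∈ R) : x ∈ R := by
  refine hN x ?_
  have h1 : IsIntegral R (x ^ n) := by
    have h2 : x ^ n = algebraMap R K ⟨x ^ n, hx⟩ := rfl
    rw [h2]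
    exact isIntegral_algebraMap
  exact IsIntegral.of_pow hn h1

theorem volLeF_slope (hc : IsCone R ξ) (hv : IsWt R ξ v) {V : ℝ} (hV0 : 0 < V)
    (hVol : HasVol 2 R v V) (hs : 0 < s) (hw : IsWs R ξ u s w)
    (hu : ∀ x ∈ R, x ≠ 0 → 0 ≤ u.val x)
    (hn : ∀ x : K, ∀ n : ℕ, 0 < n → x ^ n ∈ R → x ∈ R)
    (hh : h ≠ 0) (hξ : ξ h = 0) (hu0 : 0 ≤ u.val h) {τ : ℝ} (hτ : 0 < τ)
    (hV : ∀ (j : ℕ) (φ : K), φ ∈ Sj R h j → φ ≠ 0 → j * τ ≤ u.val φ) {φ : K} {δ : ℝ} {p : ℕ}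
    (hφ : φ ∈ Sj R h p) (hφ0 : φ ≠ 0) (hφδ : ξ φ = (δ : ℂ) • φ) (hδ : 0 < δ) {T : ℝ}
    (hT0 : 0 ≤ T) (hT : ∀ (c : ℝ) (j : ℕ) (ψ : K), ψ ∈ Vj R ξ h c j → ψ ≠ 0 → j ≤ T * c) :
    VolLeF R w (V * (1 - 2 * p * (s * τ) * (1 / (1 + s * τ * T)) ^ 5 / δ)) := by
  have hfv : ∀ c, Module.Finite ℂ (R ⧸ idl R v c) := hv.finite_quot hc
  have hle := idl_le_of_ws hc hv hu hs.le hw
  have hfw : ∀ c, Module.Finite ℂ (R ⧸ idl R w c) := fun c => finite_of_le (hle c) (hfv c)
  have hv0 : ∀ x ∈ R, x ≠ 0 → 0 ≤ v.val x := fun x hx hx0 => hv.nonneg hc hx hx0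
  have hsτ : 0 < s * τ := mul_pos hs hτ
  intro ε hε
  refine asy_chain (N₁ := fun m => 24 * (finrank ℂ (R ⧸ idl R v m) : ℝ))
    (H := fun m => 24 * (finrank ℂ (R ⧸ idl R w m) : ℝ)) (s := s * τ)
    (t := 1 / (1 + s * τ * T)) (p := (p : ℝ)) hsτ hδ (by positivity) (by positivity) hV0
    ?_ ?_ ?_ ?_ ?_ ?_ ?_ hε
  · intro a b hab
    refine mul_le_mul_of_nonneg_left ?_ (by norm_num)
    exact_mod_cast finrank_anti (idl_anti hab) (hfv b)
  · intro m hm
    show 24 * _ ≤ 0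
    rw [finrank_top (idl_top hv0 hm)]
    simp
  · intro m
    positivity
  · intro a b hab
    refine mul_le_mul_of_nonneg_left ?_ (by norm_num)
    exact_mod_cast finrank_anti (idl_anti hab) (hfw b)
  · intro m
    positivity
  · refine hVol.congr fun m => ?_
    have e : ((2 * 2).factorial : ℝ) = 24 := by norm_num [Nat.factorial]
    rw [e]
  · intro n A I hA
    have h1 := count_slope hc hv hs.le hw hu hn hh hξ hu0 hsτ hV hφ hφ0 hφδ hδ hT0 hT n A I hA
    show ∑ k ∈ Finset.range A, 24 * (finrank ℂ (R ⧸ idl R w (n - k * (s * τ))) : ℝ) +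
      2 * (p : ℝ) * ∑ i ∈ Finset.range I, 24 * (finrank ℂ (R ⧸ idl R v
        (1 / (1 + s * τ * T) * n - δ - i * δ)) : ℝ) ≤
      ∑ k ∈ Finset.range A, 24 * (finrank ℂ (R ⧸ idl R v (n - k * (s * τ))) : ℝ)
    rw [← Finset.mul_sum, ← Finset.mul_sum, ← Finset.mul_sum]
    linarith

theorem V5 : ∀ (K : Type) [Field K] [Algebra ℂ K] (R : Subalgebra ℂ K)
    (ξ : Derivation ℂ K K) (J : Bra K) (v : RVal K) (a V : ℝ), Cone4 R ξ J a →
    IsMinF R ξ J v a V →
    ∀ h : K, ξ h = 0 → ¬ Cst h → ∀ (u : RVal K) (c τ : ℝ), 0 < τ → 0 ≤ u.val h → LDLe J u c →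
      (∀ (j : ℕ) (φ : K), φ ∈ Sj R h j → φ ≠ 0 → j * τ ≤ u.val φ) →
        ∀ (j : ℕ) (φ : K) (δ : ℝ), 0 < j → φ ∈ Sj R h j → φ ≠ 0 → ξ φ = (δ : ℂ) • φ →
          a * j * τ ≤ 2 * δ * c := by
  intro K _ _ R ξ J v a V hC hM h hξ hcst u c τ hτ hu0 hld hV p φ δ hp hφ hφ0 hφδ
  have hh : h ≠ 0 := by
    rintro rfl
    exact hcst ⟨0, by rw [map_zero]⟩
  have hu : ∀ x ∈ R, x ≠ 0 → 0 ≤ u.val x := by
    intro x hx hx0
    have h1 := hV 0 x ⟨hx, by rw [pow_zero, mul_one]; exact hx⟩ hx0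
    simpa using h1
  have hn : ∀ x : K, ∀ n : ℕ, 0 < n → x ^ n ∈ R → x ∈ R := fun x n hn hx =>
    normal_root hC.normal hn hx
  obtain ⟨hc0, hT0⟩ := T0 K R ξ J v a V hC (IsMinF.isMin hM) u c hu hld
  have hapos := hM.apos
  have hδ : 0 < δ := by
    rcases lt_or_eq_of_le (hC.toIsCone.eig_nonneg hφ.1 hφ0 hφδ) with h1 | h1
    · exact h1
    · exfalso
      obtain ⟨z, hz⟩ := hC.const φ hφ.1 (by rw [hφδ, ← h1]; simp)
      have hz0 : z ≠ 0 := by
        rintro rfl
        exact hφ0 (by rw [hz, map_zero])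
      have h2 : h ^ p ∈ R := by
        have h3 := R.smul_mem hφ.2 z⁻¹
        rw [hz, Algebra.smul_def, ← mul_assoc, ← map_mul, inv_mul_cancel₀ hz0, map_one,
          one_mul] at h3
        exact h3
      exact hcst (hC.const h (hn h p hp h2) hξ)
  have hTn : 0 ≤ 4 * c / (a * τ) := by positivity
  have hT : ∀ (b : ℝ) (j : ℕ) (ψ : K), ψ ∈ Vj R ξ h b j → ψ ≠ 0 →
      (j : ℝ) ≤ 4 * c / (a * τ) * b := by
    intro b j ψ hψ hψ0
    have h1 := hV j ψ hψ.2 hψ0
    have h2 := hT0 ψ b hψ.1.1 hψ0 hψ.1.2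
    have h3 : a * (j * τ) ≤ 4 * b * c := (mul_le_mul_of_nonneg_left h1 hapos.le).trans h2
    rw [div_mul_eq_mul_div, le_div_iff₀ (by positivity)]
    linarith
  refine num_slope (κ := τ * (4 * c / (a * τ))) hM.apos hM.vpos hδ (by positivity) fun s hs => ?_
  obtain ⟨w, hw⟩ := exists_ws hC.toIsCone u hs.le
  have h1 := volLeF_slope hC.toIsCone hM.wt hM.vpos hM.vol hs hw hu hn hh hξ hu0 hτ hV hφ hφ0
    hφδ hδ hTn hT
  have e : s * τ * (4 * c / (a * τ)) = τ * (4 * c / (a * τ)) * s := by ring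
  rw [e] at h1
  exact (hM.min w _ _ (centred_ws hC.toIsCone hM.wt hu hs.le hw) (ldLe_ws hC hs.le hw hld) h1).2

end Pool.Agent.Helper37.Q4
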