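import Pool.Agent.Helper37.Q4.Ws
import Pool.Agent.Helper37.Q4.Growth
import Pool.Agent.Helper37.SD.Vol
import Pool.Agent.Helper37.SD.Fin

/-!
# Upper bounds for the volume of `wt + s u`
-/

set_option autoImplicit false

namespace Pool.Agent.Helper37.Q4

open Module Filter Topology Pool.Agent.Helper37.SD

variable {K : Type} [Field K] [Algebra ℂ K] {R : Subalgebra ℂ K} {ξ : Derivation ℂ K K}
  {u v w : RVal K} {s : ℝ}

/-! ## splitting by degree -/

/-- splitting of a homogeneous span -/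
theorem exists_split {x : K} {P : ℝ → Prop} (hx : x ∈ RH R ξ P) (m : ℝ) :
    ∃ y ∈ RH R ξ (fun c => c < m), ∃ z ∈ RH R ξ (fun c => m ≤ c), x = y + z := by
  induction hx using Submodule.span_induction with
  | mem x hx =>
    obtain ⟨hxR, c, _, hc⟩ := hx
    rcases lt_or_ge c m with h | h
    · exact ⟨x, mem_hsp hxR h hc, 0, Submodule.zero_mem _, (add_zero x).symm⟩
    · exact ⟨0, Submodule.zero_mem _, x, mem_hsp hxR h hc, (zero_add x).symm⟩
  | zero => exact ⟨0, Submodule.zero_mem _, 0, Submodule.zero_mem _, (add_zero 0).symm⟩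
  | add x x' _ _ h h' =>
    obtain ⟨y, hy, z, hz, rfl⟩ := h
    obtain ⟨y', hy', z', hz', rfl⟩ := h'
    exact ⟨y + y', Submodule.add_mem _ hy hy', z + z', Submodule.add_mem _ hz hz', by ring⟩
  | smul c x _ h =>
    obtain ⟨y, hy, z, hz, rfl⟩ := h
    exact ⟨c • y, Submodule.smul_mem _ c hy, c • z, Submodule.smul_mem _ c hz, smul_add c y z⟩

/-- the two parts are independent -/
theorem split_zero {y z : K} {m : ℝ} (hy : y ∈ Hsp (ξ : K →ₗ[ℂ] K) ⊤ (fun c => c < m))
    (hz : z ∈ Hsp (ξ : K →ₗ[ℂ] K) ⊤ (fun c => m ≤ c)) (h : y + z = 0) : y = 0 := by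
  obtain ⟨F, hF⟩ := exists_dec hy
  have e : y = -z := eq_neg_of_add_eq_zero_left h
  have hz' : y ∈ Hsp (ξ : K →ₗ[ℂ] K) ⊤ (fun c => m ≤ c) := by
    rw [e]
    exact Submodule.neg_mem _ hz
  obtain ⟨G, hG⟩ := exists_dec hz'
  have h1 := hF.unique hG
  have h2 : F = 0 := by
    ext c
    by_contra hc
    have h3 := hF.prop c hc
    rw [h1] at hc
    exact absurd (hG.prop c hc) (not_le.mpr h3)
  rw [← hF.sum, h2, Finsupp.sum_zero_index]

/-! ## the filtrations -/

theorem idl_le_of_ws (h : IsCone R ξ) (hv : IsWt R ξ v)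
    (hu : ∀ x ∈ R, x ≠ 0 → 0 ≤ u.val x) (hs : 0 ≤ s) (hw : IsWs R ξ u s w) (m : ℝ) :
    idl R v m ≤ idl R w m := by
  intro x hx
  rcases hx with hx | hx
  · exact Or.inl hx
  · by_cases hx0 : (x : K) = 0
    · exact Or.inl hx0
    · refine Or.inr ?_
      obtain ⟨F, hF⟩ := exists_dec ((hv x x.2 hx0 m).mp hx)
      rw [hw.ge_iff x.2 hx0 hF]
      intro c hc
      have h1 := hF.prop c hc
      have h2 := mul_nonneg hs (hu _ (hF.mem c) hc)
      linarith

theorem idl_anti {a b : ℝ} (hab : a ≤ b) : idl R w b ≤ idl R w a := by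
  intro x hx
  rcases hx with hx | hx
  · exact Or.inl hx
  · exact Or.inr (hab.trans hx)

theorem idl_top (hw0 : ∀ x ∈ R, x ≠ 0 → 0 ≤ w.val x) {m : ℝ} (hm : m ≤ 0) :
    idl R w m = ⊤ := by
  rw [eq_top_iff]
  intro x _
  by_cases hx : (x : K) = 0
  · exact Or.inl hx
  · exact Or.inr (hm.trans (hw0 x x.2 hx))

theorem IsWs.nonneg (h : IsCone R ξ) (hu : ∀ x ∈ R, x ≠ 0 → 0 ≤ u.val x) (hs : 0 ≤ s)
    (hw : IsWs R ξ u s w) : ∀ x ∈ R, x ≠ 0 → 0 ≤ w.val x := by
  intro x hx hx0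
  obtain ⟨F, hF⟩ := exists_dec (h.span x hx)
  rw [hw.ge_iff hx hx0 hF]
  intro c hc
  have h1 := hF.prop c hc
  have h2 := mul_nonneg hs (hu _ (hF.mem c) hc)
  linarith

theorem finrank_top {S : Submodule ℂ R} (hS : S = ⊤) : finrank ℂ (R ⧸ S) = 0 := by
  subst hS
  have : Subsingleton (R ⧸ (⊤ : Submodule ℂ R)) := Submodule.Quotient.subsingleton_iff.mpr rfl
  exact Module.finrank_zero_of_subsingleton

/-- the elements whose product with `g` lies in `S` -/
noncomputable def col (g : R) (S : Submodule ℂ R) : Submodule ℂ R := S.comap (mulR R g)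

/-- recursion for colengths -/
theorem colen_col (g : R) (S : Submodule ℂ R) (hfin : Module.Finite ℂ (R ⧸ S)) :
    finrank ℂ (R ⧸ S) = finrank ℂ (R ⧸ col g S) +
      finrank ℂ (R ⧸ S ⊔ LinearMap.range (mulR R g)) := by
  let φ : R →ₗ[ℂ] (R ⧸ S) := S.mkQ.comp (mulR R g)
  have h1 : LinearMap.ker φ = col g S := by
    rw [LinearMap.ker_comp, Submodule.ker_mkQ]
    rfl
  have h2 : LinearMap.range φ = (LinearMap.range (mulR R g)).map S.mkQ :=
    LinearMap.range_comp _ _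
  have h3 := (LinearMap.range φ).finrank_quotient_add_finrank
  have h4 : finrank ℂ (LinearMap.range φ) = finrank ℂ (R ⧸ col g S) := by
    rw [← h1]
    exact (LinearMap.quotKerEquivRange φ).finrank_eq.symm
  have h5 : finrank ℂ ((R ⧸ S) ⧸ LinearMap.range φ) =
      finrank ℂ (R ⧸ S ⊔ LinearMap.range (mulR R g)) := by
    rw [h2]
    exact (Submodule.quotientQuotientEquivQuotientSup S
      (LinearMap.range (mulR R g))).finrank_eq
  rw [← h3, h4, h5, add_comm]

theorem finite_of_le {S T : Submodule ℂ R} (h : S ≤ T) (hfin : Module.Finite ℂ (R ⧸ S)) :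
    Module.Finite ℂ (R ⧸ T) :=
  Module.Finite.of_surjective (Submodule.factor h) (Submodule.factor_surjective h)

theorem idl_le_col {g : R} (hg0 : (g : K) ≠ 0) {m b : ℝ} (hb : b ≤ w.val (g : K)) :
    idl R w (m - b) ≤ col g (idl R w m) := by
  intro x hx
  show w.Ge m ((g : K) * (x : K))
  rcases hx with hx | hx
  · exact Or.inl (by rw [hx, mul_zero])
  · by_cases hx0 : (x : K) = 0
    · exact Or.inl (by rw [hx0, mul_zero])
    · refine Or.inr ?_
      rw [w.map_mul _ _ hg0 hx0]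
      linarith

/-- `VolLe n R w V`: the volume of `w` is at most `V`. -/
def VolLe (n : ℕ) (R : Subalgebra ℂ K) (w : RVal K) (V : ℝ) : Prop :=
  ∀ ε > 0, ∀ᶠ m : ℕ in atTop, ((2 * n).factorial : ℝ) * (finrank ℂ (R ⧸ idl R w m) : ℝ) /
    (m : ℝ) ^ (2 * n) ≤ V + ε

/-- **one homogeneous element** -/
theorem volLe_one (h : IsCone R ξ) (hv : IsWt R ξ v)
    (hu : ∀ x ∈ R, x ≠ 0 → 0 ≤ u.val x) (hs : 0 ≤ s) (hw : IsWs R ξ u s w)
    {f : K} (hf : f ∈ R) (hf0 : f ≠ 0) {b : ℝ} (hb : 0 < b) (hfb : ξ f = (b : ℂ) • f)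
    {n : ℕ} {V : ℝ} (hV : HasVol n R v V) : VolLe n R w (V * b / (b + s * u.val f)) := by
  set F : ℝ := ((2 * n).factorial : ℝ) with hF
  have hF0 : 0 < F := by
    rw [hF]
    exact_mod_cast Nat.factorial_pos _
  have hvf : v.val f = b := hv.val_eig h hf0 hfb
  have hwf : w.val f = b + s * u.val f := hw.val_hom hf hf0 hfb
  have huf := mul_nonneg hs (hu f hf hf0)
  have hfv : ∀ c, Module.Finite ℂ (R ⧸ idl R v c) := hv.finite_quot h
  have hle := idl_le_of_ws h hv hu hs hw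
  have hfw : ∀ c, Module.Finite ℂ (R ⧸ idl R w c) := fun c => finite_of_le (hle c) (hfv c)
  have hv0 : ∀ x ∈ R, x ≠ 0 → 0 ≤ v.val x := fun x hx hx0 => hv.nonneg h hx hx0
  have hw0 := IsWs.nonneg h hu hs hw
  set g : R := ⟨f, hf⟩ with hg
  have hfJ : ∀ m, Module.Finite ℂ (R ⧸ idl R v m ⊔ LinearMap.range (mulR R g)) := fun m =>
    finite_of_le le_sup_left (hfv m)
  have key := growth_le (N₁ := fun m => F * (finrank ℂ (R ⧸ idl R v m) : ℝ))
    (N₂ := fun m => F * (finrank ℂ (R ⧸ idl R w m) : ℝ))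
    (N' := fun m => F * (finrank ℂ (R ⧸ idl R v m ⊔ LinearMap.range (mulR R g)) : ℝ))
    (h₁ := b) (h₂ := b + s * u.val f) (c := 0) hb (by linarith) le_rfl ?_ ?_ ?_ ?_ ?_ ?_ ?_
    (2 * n) hV
  · exact key
  · intro a b hab
    refine mul_le_mul_of_nonneg_left ?_ hF0.le
    exact_mod_cast finrank_anti (sup_le_sup_right (idl_anti hab) _) (hfJ b)
  · intro a b hab
    refine mul_le_mul_of_nonneg_left ?_ hF0.le
    exact_mod_cast finrank_anti (idl_anti hab) (hfv b)
  · intro m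
    positivity
  · intro m hm
    show F * _ ≤ 0
    rw [finrank_top (idl_top hw0 hm)]
    simp
  · intro m
    positivity
  · intro m
    show F * _ + F * _ ≤ F * _
    have h1 := colen_rec (f := g) hf0 m (hfv m)
    have e : v.val (g : K) = b := hvf
    rw [e] at h1
    rw [h1]
    push_cast
    linarith
  · intro m
    show F * _ ≤ F * _ + F * _
    have h1 := colen_rec (f := g) hf0 m (hfw m)
    have e : w.val (g : K) = b + s * u.val f := hwf
    rw [e] at h1
    have h2 := finrank_anti (sup_le_sup_right (hle m) (LinearMap.range (mulR R g))) (hfJ m)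
    rw [h1, add_zero, ← mul_add]
    refine mul_le_mul_of_nonneg_left ?_ hF0.le
    exact_mod_cast Nat.add_le_add_left h2 _

/-- **two homogeneous elements which form a regular sequence** -/
theorem volLe_two (h : IsCone R ξ) (hv : IsWt R ξ v)
    (hu : ∀ x ∈ R, x ≠ 0 → 0 ≤ u.val x) (hs : 0 ≤ s) (hw : IsWs R ξ u s w)
    {f g : K} (hf : f ∈ R) (hf0 : f ≠ 0) (hg : g ∈ R) (hg0 : g ≠ 0) {b : ℝ} (hb : 0 < b)
    (hfb : ξ f = (b : ℂ) • f) (hgb : ξ g = (b : ℂ) • g)
    (hreg : ∀ x ∈ R, ∀ y ∈ R, g * x = f * y → ∃ z ∈ R, x = f * z)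
    {e : ℝ} (hfe : e ≤ u.val f) (hge : e ≤ u.val g) (he : 0 ≤ e)
    {n : ℕ} {V : ℝ} (hV : HasVol n R v V) : VolLe n R w (V * (b / (b + s * e)) ^ 2) := by
  set F : ℝ := ((2 * n).factorial : ℝ) with hF
  have hF0 : 0 < F := by
    rw [hF]
    exact_mod_cast Nat.factorial_pos _
  have hvf : v.val f = b := hv.val_eig h hf0 hfb
  have hwf : w.val f = b + s * u.val f := hw.val_hom hf hf0 hfb
  have hwg : w.val g = b + s * u.val g := hw.val_hom hg hg0 hgb
  have hse := mul_nonneg hs he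
  have hfv : ∀ c, Module.Finite ℂ (R ⧸ idl R v c) := hv.finite_quot h
  have hle := idl_le_of_ws h hv hu hs hw
  have hfw : ∀ c, Module.Finite ℂ (R ⧸ idl R w c) := fun c => finite_of_le (hle c) (hfv c)
  have hw0 := IsWs.nonneg h hu hs hw
  have hv0 : ∀ x ∈ R, x ≠ 0 → 0 ≤ v.val x := fun x hx hx0 => hv.nonneg h hx hx0
  set f' : R := ⟨f, hf⟩ with hf'
  set g' : R := ⟨g, hg⟩ with hg'
  set Rf := LinearMap.range (mulR R f') with hRf
  set Rg := LinearMap.range (mulR R g') with hRg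
  have hcf : ∀ S, Rf ≤ col g' (S ⊔ Rf) := by
    rintro S _ ⟨x, rfl⟩
    show g' * (f' * x) ∈ S ⊔ Rf
    refine Submodule.mem_sup_right ⟨g' * x, ?_⟩
    show f' * (g' * x) = g' * (f' * x)
    ring
  have hbf : b + s * e ≤ w.val (f' : K) := by
    have h1 := mul_le_mul_of_nonneg_left hfe hs
    show b + s * e ≤ w.val f
    rw [hwf]
    linarith
  have hbg : b + s * e ≤ w.val (g' : K) := by
    have h1 := mul_le_mul_of_nonneg_left hge hs
    show b + s * e ≤ w.val g
    rw [hwg]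
    linarith
  -- the colon ideal for `v`
  have hcolv : ∀ m, col g' (idl R v m ⊔ Rf) ≤ idl R v (m - b) ⊔ Rf := by
    intro m x hx
    have hx' : g' * x ∈ idl R v m ⊔ Rf := hx
    obtain ⟨y, hy, z, ⟨t, rfl⟩, hyz⟩ := Submodule.mem_sup.mp hx'
    have hyz' : (y : K) + f * (t : K) = g * (x : K) := congrArg Subtype.val hyz
    have hyH : (y : K) ∈ RH R ξ (fun c => m ≤ c) := by
      by_cases hy0 : (y : K) = 0
      · rw [hy0]
        exact Submodule.zero_mem _
      · exact (hv y y.2 hy0 m).mp (hy.resolve_left hy0)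
    obtain ⟨x₁, hx₁, x₂, hx₂, ex⟩ := exists_split (h.span x x.2) (m - b)
    obtain ⟨t₁, ht₁, t₂, ht₂, et⟩ := exists_split (h.span t t.2) (m - b)
    have hx₁R : x₁ ∈ R := hsp_le hx₁
    have hx₂R : x₂ ∈ R := hsp_le hx₂
    have ht₁R : t₁ ∈ R := hsp_le ht₁
    have hgx : ∀ {P Q : ℝ → Prop} {k z : K}, k ∈ R → ξ k = (b : ℂ) • k →
        (∀ c, P c → Q (b + c)) → z ∈ RH R ξ P → k * z ∈ RH R ξ Q := by
      intro P Q k z hk hkb hPQ hz
      exact hsp_mul (P := fun c => c = b) (fun a c ha hc => by rw [ha]; exact hPQ c hc)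
        (mem_hsp hk rfl hkb) hz
    have h1 : g * x₁ - f * t₁ = 0 := by
      refine split_zero (ξ := ξ) (m := m) (z := g * x₂ - f * t₂ - (y : K)) ?_ ?_ ?_
      · exact rh_le_top (Submodule.sub_mem _
          (hgx hg hgb (Q := fun c => c < m) (fun c hc => by linarith) hx₁)
          (hgx hf hfb (Q := fun c => c < m) (fun c hc => by linarith) ht₁))
      · exact rh_le_top (Submodule.sub_mem _ (Submodule.sub_mem _
          (hgx hg hgb (Q := fun c => m ≤ c) (fun c hc => by linarith) hx₂)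
          (hgx hf hfb (Q := fun c => m ≤ c) (fun c hc => by linarith) ht₂)) hyH)
      · have h2 : (y : K) + f * (t₁ + t₂) = g * (x₁ + x₂) := by rw [← et, ← ex]; exact hyz'
        linear_combination -h2
    obtain ⟨z, hz, ez⟩ := hreg x₁ hx₁R t₁ ht₁R (sub_eq_zero.mp h1)
    refine Submodule.mem_sup.mpr ⟨⟨x₂, hx₂R⟩, ?_, ⟨x₁, hx₁R⟩, ⟨⟨z, hz⟩, Subtype.ext ez.symm⟩,
      Subtype.ext (by rw [ex]; exact add_comm _ _)⟩
    by_cases hx20 : x₂ = 0
    · exact Or.inl hx20
    · exact Or.inr ((hv x₂ hx₂R hx20 _).mpr hx₂)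
  have hfM : ∀ m, Module.Finite ℂ (R ⧸ idl R v m ⊔ Rf) := fun m => finite_of_le le_sup_left (hfv m)
  have hfM₂ : ∀ m, Module.Finite ℂ (R ⧸ idl R w m ⊔ Rf) := fun m =>
    finite_of_le le_sup_left (hfw m)
  have hfL : ∀ m, Module.Finite ℂ (R ⧸ idl R v m ⊔ Rf ⊔ Rg) := fun m =>
    finite_of_le le_sup_left (hfM m)
  have key := growth_le_two (N₁ := fun m => F * (finrank ℂ (R ⧸ idl R v m) : ℝ))
    (M₁ := fun m => F * (finrank ℂ (R ⧸ idl R v m ⊔ Rf) : ℝ))
    (N₂ := fun m => F * (finrank ℂ (R ⧸ idl R w m) : ℝ))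
    (M₂ := fun m => F * (finrank ℂ (R ⧸ idl R w m ⊔ Rf) : ℝ))
    (L := fun m => F * (finrank ℂ (R ⧸ idl R v m ⊔ Rf ⊔ Rg) : ℝ))
    (h₁ := b) (h₂ := b + s * e) hb (by linarith) ?_ ?_ ?_ ?_ ?_ ?_ ?_ ?_ ?_ ?_ ?_ ?_
    (2 * n) hV
  · exact key
  · intro a b hab
    refine mul_le_mul_of_nonneg_left ?_ hF0.le
    exact_mod_cast finrank_anti (sup_le_sup_right (sup_le_sup_right (idl_anti hab) _) _) (hfL b)
  · intro a b hab
    refine mul_le_mul_of_nonneg_left ?_ hF0.le
    exact_mod_cast finrank_anti (sup_le_sup_right (idl_anti hab) _) (hfM b)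
  · intro a b hab
    refine mul_le_mul_of_nonneg_left ?_ hF0.le
    exact_mod_cast finrank_anti (idl_anti hab) (hfv b)
  · intro m
    positivity
  · intro m
    positivity
  · intro m
    positivity
  · intro m hm
    show F * _ ≤ 0
    rw [finrank_top (idl_top hw0 hm)]
    simp
  · intro m hm
    show F * _ ≤ 0
    rw [finrank_top (by rw [idl_top hw0 hm, top_sup_eq])]
    simp
  · intro m
    show F * _ + F * _ ≤ F * _
    have h1 := colen_rec (f := f') hf0 m (hfv m)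
    have e1 : v.val (f' : K) = b := hvf
    rw [e1] at h1
    rw [h1]
    push_cast
    linarith
  · intro m
    show F * _ + F * _ ≤ F * _
    have h1 := colen_col g' (idl R v m ⊔ Rf) (hfM m)
    have h2 := finrank_anti (hcolv m) (finite_of_le (S := idl R v m ⊔ Rf) (by
      refine sup_le ?_ (hcf _)
      intro x hx
      have h3 : x ∈ idl R v (m - 0) := by rwa [sub_zero]
      exact Submodule.comap_mono le_sup_left (idl_le_col (w := v) (g := g') hg0 (hv0 g hg hg0) h3))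
      (hfM m))
    rw [h1, ← mul_add]
    refine mul_le_mul_of_nonneg_left ?_ hF0.le
    exact_mod_cast Nat.add_le_add_right h2 _
  · intro m
    show F * _ ≤ F * _ + F * _
    have h1 := colen_col f' (idl R w m) (hfw m)
    have h2 := finrank_anti (idl_le_col (w := w) (g := f') hf0 hbf (m := m)) (hfw _)
    rw [h1, ← mul_add]
    refine mul_le_mul_of_nonneg_left ?_ hF0.le
    exact_mod_cast Nat.add_le_add_right h2 _
  · intro m
    show F * _ ≤ F * _ + F * _
    have h1 := colen_col g' (idl R w m ⊔ Rf) (hfM₂ m)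
    have h2 : finrank ℂ (R ⧸ col g' (idl R w m ⊔ Rf)) ≤
        finrank ℂ (R ⧸ idl R w (m - (b + s * e)) ⊔ Rf) := by
      refine finrank_anti (sup_le ?_ (hcf _)) (hfM₂ _)
      exact (idl_le_col (w := w) (g := g') hg0 hbg (m := m)).trans
        (Submodule.comap_mono le_sup_left)
    have h3 : finrank ℂ (R ⧸ idl R w m ⊔ Rf ⊔ Rg) ≤ finrank ℂ (R ⧸ idl R v m ⊔ Rf ⊔ Rg) :=
      finrank_anti (sup_le_sup_right (sup_le_sup_right (hle m) _) _) (hfL m)
    rw [h1, ← mul_add]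
    refine mul_le_mul_of_nonneg_left ?_ hF0.le
    exact_mod_cast Nat.add_le_add h2 h3

end Pool.Agent.Helper37.Q4
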